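import Mathlib
import Pool.Agent.Lib.MP_4fb322_lc_h91x.XDefs

set_option autoImplicit false

/-!
# Stable ages of arity at most two: definitions and small lemmas (all proved)
-/

namespace Pool.Agent.Lib.MP_4fb322_lc_h91s

open Set Pool.Agent.Lib.MP_4fb322_lc_h70 Pool.Agent.Lib.MP_4fb322_lc_h91
open Pool.Agent.Lib.MP_4fb322_lc_h21 Pool.Agent.Lib.MP_4fb322_lc_h91x

variable {I : Type} {ar : I → ℕ} {V W C : Type}

/-- the pair `(x, y)` as a tuple (used for `n = 2`) -/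
def pr2 {n : ℕ} (x y : V) : Fin n → V := fun j => if j.1 = 0 then x else y

/-- no half graph of order `t` in the binary relation `S` -/
def NoLadder (S : V → V → Prop) (t : ℕ) : Prop :=
  ¬ ∃ x y : Fin t → V, ∀ a b : Fin t, S (x a) (y b) ↔ a ≤ b

/-- `C` contains a half graph of order `t` in the relation `i` -/
def HalfGraph (C : Str ar) (i : I) (t : ℕ) : Prop :=
  ∃ x y : Fin t → Fin C.1, ∀ a b : Fin t, (pr2 (x a) (y b) : Fin (ar i) → Fin C.1) ∈ C.2 i ↔
    a ≤ b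

/-! ## Part 1: generalised self-embeddings -/

/-- partial embedding between two structures -/
def PX (M : (i : I) → Set (Fin (ar i) → V)) (N : (i : I) → Set (Fin (ar i) → W)) (Y : Set V)
    (f : V → W) : Prop :=
  Set.InjOn f Y ∧ ∀ (i : I) (s : Fin (ar i) → V), (∀ j, s j ∈ Y) → (s ∈ M i ↔ f ∘ s ∈ N i)

/-- generalised self-embedding of `M` -/
def GE (M : (i : I) → Set (Fin (ar i) → V)) (u : Ultrafilter (V → V)) : Prop :=
  ∀ A : Set V, A.Finite → ∀ᶠ f in (u : Filter (V → V)), PE M A f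

/-- a generic generalised self-embedding: an idempotent of a minimal left ideal -/
structure Gen (M : (i : I) → Set (Fin (ar i) → V)) (u : Ultrafilter (V → V)) : Prop where
  emb : GE M u
  idem : ∀ p : (V → V) → Prop, (∀ᶠ f in (u : Filter (V → V)), p f) ↔
    ∀ᶠ f in (u : Filter (V → V)), ∀ᶠ g in (u : Filter (V → V)), p (fun x => g (f x))
  mini : ∀ v : Ultrafilter (V → V), GE M v → ∃ q : Ultrafilter (V → V), GE M q ∧
    ∀ p : (V → V) → Prop, (∀ᶠ f in (u : Filter (V → V)), p f) ↔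
      ∀ᶠ f in (q : Filter (V → V)), ∀ᶠ g in (v : Filter (V → V)),
        ∀ᶠ h in (u : Filter (V → V)), p (fun x => h (g (f x)))

/-- the pins: `M` does not embed (locally) into the complement of `p` -/
def Pins (M : (i : I) → Set (Fin (ar i) → V)) : Set V :=
  {p | ¬ ∀ Y : Set V, Y.Finite → VE M Y {p}ᶜ}

/-- the limit relation: independent generic copies of `x` and `y` -/
def Qr (M : (i : I) → Set (Fin (ar i) → V)) (u : Ultrafilter (V → V)) (i : I) (x y : V) :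
    Prop :=
  ar i = 2 ∧ ∀ᶠ f in (u : Filter (V → V)), ∀ᶠ g in (u : Filter (V → V)),
    (pr2 (f x) (g y) : Fin (ar i) → V) ∈ M i

/-- colours: rows and columns of the limit relations, and being a pin -/
abbrev Col (I V : Type) : Type := (I → V → Prop) × (I → V → Prop) × Prop

/-- the colour of a point -/
def col (M : (i : I) → Set (Fin (ar i) → V)) (u : Ultrafilter (V → V)) (x : V) : Col I V :=
  (fun i y => Qr M u i x y, fun i y => Qr M u i y x, x ∈ Pins M)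

/-- the points whose colour is exactly preserved by `u` -/
def Zs (M : (i : I) → Set (Fin (ar i) → V)) (u : Ultrafilter (V → V)) : Set V :=
  {z | ∀ᶠ g in (u : Filter (V → V)), col M u (g z) = col M u z}

/-- the rank of a set of rows: there is a binary tree of height `n` with tests in `Y` and
leaves in `Z` -/
def Rk (S : V → V → Prop) (Y : Set V) : ℕ → Set V → Prop
  | 0, Z => Z.Nonempty
  | n + 1, Z => ∃ y ∈ Y, Rk S Y n {z | z ∈ Z ∧ S z y} ∧ Rk S Y n {z | z ∈ Z ∧ ¬ S z y}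

/-! ## Part 2: the limit structure -/

/-- vertices of the limit structure: the pins and infinitely many copies of all other points -/
def LW (M : (i : I) → Set (Fin (ar i) → V)) (u : Ultrafilter (V → V)) : Type :=
  {v : V × ℕ // v.1 ∈ Zs M u ∧ (v.1 ∈ Pins M → v.2 = 0)}

/-- the point of `V` below a vertex -/
def pj {M : (i : I) → Set (Fin (ar i) → V)} {u : Ultrafilter (V → V)} (v : LW M u) : V :=
  v.1.1

/-- the piece of a vertex -/
def pcl {M : (i : I) → Set (Fin (ar i) → V)} {u : Ultrafilter (V → V)} (v : LW M u) : ℕ :=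
  v.1.2

/-- the pins of the limit structure -/
def LP (M : (i : I) → Set (Fin (ar i) → V)) (u : Ultrafilter (V → V)) : Set (LW M u) :=
  {v | pj v ∈ Pins M}

/-- apart from pins, all entries of the tuple lie in one piece -/
def OneP {M : (i : I) → Set (Fin (ar i) → V)} {u : Ultrafilter (V → V)} {n : ℕ}
    (s : Fin n → LW M u) : Prop :=
  ∃ k : ℕ, ∀ j, pj (s j) ∈ Pins M ∨ pcl (s j) = k

/-- the limit structure -/
def LL (M : (i : I) → Set (Fin (ar i) → V)) (u : Ultrafilter (V → V)) :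
    (i : I) → Set (Fin (ar i) → LW M u) :=
  fun i => {s | (OneP s ∧ (fun j => pj (s j)) ∈ M i) ∨
    (¬ OneP s ∧ ∃ x y : LW M u, s = pr2 x y ∧ Qr M u i (pj x) (pj y))}

/-! ## Part 3: coloured embeddings -/

/-- adjacency: the pair does not follow the rule `Q` given by the colours -/
def AdjQ (M : (i : I) → Set (Fin (ar i) → V)) (κ : V → C) (Q : I → C → C → Prop) (x y : V) :
    Prop :=
  ∃ i, ar i = 2 ∧ (¬ ((pr2 x y : Fin (ar i) → V) ∈ M i ↔ Q i (κ x) (κ y)) ∨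
    ¬ ((pr2 y x : Fin (ar i) → V) ∈ M i ↔ Q i (κ y) (κ x)))

/-- disjoint and not adjacent -/
def NA (M : (i : I) → Set (Fin (ar i) → V)) (κ : V → C) (Q : I → C → C → Prop)
    (A B : Set V) : Prop :=
  ∀ x ∈ A, ∀ y ∈ B, x ≠ y ∧ ¬ AdjQ M κ Q x y

/-- `f` is a coloured embedding of `A` into `X` over `T` -/
def KE (M : (i : I) → Set (Fin (ar i) → V)) (κ : V → C) (T A X : Set V) (f : V → V) : Prop :=
  PE M (T ∪ A) f ∧ (∀ x ∈ T, f x = x) ∧ ∀ y ∈ A, f y ∈ X ∧ κ (f y) = κ y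

/-- there is a coloured embedding of `A` into `X` over `T` -/
def KX (M : (i : I) → Set (Fin (ar i) → V)) (κ : V → C) (T A X : Set V) : Prop :=
  ∃ f, KE M κ T A X f

/-- coloured embeddings over all finite sets of pins, into almost all sets of the sequence -/
def LE (M : (i : I) → Set (Fin (ar i) → V)) (κ : V → C) (P A : Set V) (N : ℕ → Set V) :
    Prop :=
  ∀ T : Set V, T.Finite → T ⊆ P → ∀ᶠ m in UF, KX M κ T A (N m)

/-- the package obtained in the first half and refuted in the second half -/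
structure Sy (M : (i : I) → Set (Fin (ar i) → V)) (P : Set V) (pc : V → ℕ) (κ : V → C)
    (Q : I → C → C → Prop) (sh : ℕ → V → V) (X : ℕ → Finset V) : Prop where
  ar2 : ∀ i, ar i ≤ 2
  cross : ∀ i, ar i = 2 → ∀ x y : V, x ∉ P → y ∉ P → pc x ≠ pc y →
    ((pr2 x y : Fin (ar i) → V) ∈ M i ↔ Q i (κ x) (κ y))
  sh_pe : ∀ k, PE M (P ∪ {x | x ∉ P ∧ pc x = 0}) (sh k)
  sh_pin : ∀ k, ∀ x ∈ P, sh k x = x
  sh_np : ∀ k x, x ∉ P → pc x = 0 → sh k x ∉ P ∧ pc (sh k x) = k ∧ κ (sh k x) = κ x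
  X_np : ∀ n, ∀ x ∈ X n, x ∉ P ∧ pc x = 0
  full : ∀ N : ℕ → Set V, (∀ m, N m ⊆ Pᶜ) → (∀ᶠ n in UF, LE M κ P (X n : Set V) N) →
    ∀ A : Set V, A.Finite → A ⊆ Pᶜ → LE M κ P A N
  anti : ∀ n, ¬ LE M κ P (X n : Set V) (fun m => (X m : Set V))

/-- arrows with infinite precision -/
def ArrK (M : (i : I) → Set (Fin (ar i) → V)) (κ : V → C) (P : Set V) (D E : ℕ → Finset V) :
    Prop :=
  ∀ᶠ n in UF, LE M κ P (D n : Set V) (fun m => (E m : Set V))

/-- two copies of `D n` fit into `E m` -/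
def Arr2 (M : (i : I) → Set (Fin (ar i) → V)) (κ : V → C) (P : Set V) (sh : ℕ → V → V)
    (D E : ℕ → Finset V) : Prop :=
  ∀ᶠ n in UF, ∀ T : Set V, T.Finite → T ⊆ P → ∀ᶠ m in UF, ∃ k₁ k₂ : ℕ, k₁ ≠ k₂ ∧
    KX M κ T (sh k₁ '' (D n : Set V) ∪ sh k₂ '' (D n : Set V)) (E m : Set V)

/-- the component of `x` in the set `X` -/
def CmpK (M : (i : I) → Set (Fin (ar i) → V)) (κ : V → C) (Q : I → C → C → Prop) (X : Set V)
    (x : V) : Set V :=
  {y | Linked (AdjQ M κ Q) X x y}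

/-- `D 0, ..., D (q-1)` are the components of `X` containing a copy of `C₀` over `T` -/
def SpecK (M : (i : I) → Set (Fin (ar i) → V)) (κ : V → C) (Q : I → C → C → Prop)
    (T : Set V) (C₀ X : Finset V) {q : ℕ} (D : Fin q → Finset V) : Prop :=
  (∀ i, ∃ x ∈ X, (D i : Set V) = CmpK M κ Q (X : Set V) x) ∧ Function.Injective D ∧
    (∀ i, KX M κ T (C₀ : Set V) (D i : Set V)) ∧
    ∀ x ∈ X, KX M κ T (C₀ : Set V) (CmpK M κ Q (X : Set V) x) →
      ∃ i, (D i : Set V) = CmpK M κ Q (X : Set V) x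

variable {M : (i : I) → Set (Fin (ar i) → V)} {P : Set V} {pc : V → ℕ} {κ : V → C}
  {Q : I → C → C → Prop} {sh : ℕ → V → V} {X : ℕ → Finset V}

/-! ## Part 4: easy lemmas -/

theorem pr2_comp {n : ℕ} (f : V → W) (x y : V) : f ∘ (pr2 x y : Fin n → V) = pr2 (f x) (f y) := by
  funext j
  by_cases h : j.1 = 0 <;> simp [pr2, h]

theorem eq_pr2 {n : ℕ} (hn : n ≤ 2) (s : Fin n → V) {j k : Fin n} (hj : j.1 = 0)
    (hk : k.1 = 1) : s = pr2 (s j) (s k) := by
  funext l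
  by_cases h : l.1 = 0
  · have : l = j := Fin.ext (by omega)
    simp [pr2, this, hj]
  · have : l = k := Fin.ext (by omega)
    simp [pr2, this, hk]

theorem AdjQ.symm {x y : V} (h : AdjQ M κ Q x y) : AdjQ M κ Q y x := by
  obtain ⟨i, hi, h⟩ := h
  exact ⟨i, hi, h.symm⟩

theorem NA.symm {A B : Set V} (h : NA M κ Q A B) : NA M κ Q B A :=
  fun x hx y hy => ⟨(h y hy x hx).1.symm, fun e => (h y hy x hx).2 e.symm⟩

theorem NA.mono {A A' B B' : Set V} (h : NA M κ Q A B) (hA : A' ⊆ A) (hB : B' ⊆ B) :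
    NA M κ Q A' B' := fun x hx y hy => h x (hA hx) y (hB hy)

theorem adjQ_map {T A X : Set V} {f : V → V} (hf : KE M κ T A X f) {x y : V} (hx : x ∈ A)
    (hy : y ∈ A) : AdjQ M κ Q (f x) (f y) ↔ AdjQ M κ Q x y := by
  have key : ∀ (i : I) (a b : V), a ∈ A → b ∈ A →
      ((pr2 (f a) (f b) : Fin (ar i) → V) ∈ M i ↔ (pr2 a b : Fin (ar i) → V) ∈ M i) := by
    intro i a b ha hb
    rw [← pr2_comp f a b]
    refine (hf.1.2 i _ fun j => ?_).symm
    by_cases h : j.1 = 0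
    · simp only [pr2, h, if_true]; exact Or.inr ha
    · simp only [pr2, h, if_false]; exact Or.inr hb
  unfold AdjQ
  simp only [key _ _ _ hx hy, key _ _ _ hy hx, (hf.2.2 x hx).2, (hf.2.2 y hy).2]

theorem KE.comp {T A B X : Set V} {f g : V → V} (hf : KE M κ T A B f) (hg : KE M κ T B X g) :
    KE M κ T A X (g ∘ f) := by
  obtain ⟨hf1, hf2, hf3⟩ := hf
  obtain ⟨hg1, hg2, hg3⟩ := hg
  refine ⟨PE_comp hf1 hg1 ?_, fun x hx => ?_, fun y hy => ⟨(hg3 _ (hf3 y hy).1).1, ?_⟩⟩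
  · intro y hy
    rcases hy with hy | hy
    · rw [hf2 y hy]; exact Or.inl hy
    · exact Or.inr (hf3 y hy).1
  · rw [Function.comp_apply, hf2 x hx, hg2 x hx]
  · rw [Function.comp_apply, (hg3 _ (hf3 y hy).1).2, (hf3 y hy).2]

theorem KX.trans {T A B X : Set V} (h : KX M κ T A B) (h' : KX M κ T B X) :
    KX M κ T A X := by
  obtain ⟨f, hf⟩ := h
  obtain ⟨g, hg⟩ := h'
  exact ⟨_, hf.comp hg⟩

theorem KX.mono {T T' A A' X X' : Set V} (h : KX M κ T A X) (hT : T' ⊆ T) (hA : A' ⊆ A)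
    (hX : X ⊆ X') : KX M κ T' A' X' := by
  obtain ⟨f, hf1, hf2, hf3⟩ := h
  exact ⟨f, PE_mono hf1 (Set.union_subset_union hT hA), fun x hx => hf2 x (hT hx),
    fun y hy => ⟨hX (hf3 y (hA hy)).1, (hf3 y (hA hy)).2⟩⟩

theorem KX.refl (T A : Set V) : KX M κ T A A :=
  ⟨id, PE_id _, fun _ _ => rfl, fun _ h => ⟨h, rfl⟩⟩

theorem KX.of_subset {T A X : Set V} (h : A ⊆ X) : KX M κ T A X :=
  (KX.refl T A).mono subset_rfl subset_rfl h

theorem LE.mono {A A' : Set V} {N N' : ℕ → Set V} (h : LE M κ P A N) (hA : A' ⊆ A)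
    (hN : ∀ m, N m ⊆ N' m) : LE M κ P A' N' := by
  intro T hT hTP
  filter_upwards [h T hT hTP] with m hm
  exact hm.mono subset_rfl hA (hN m)

theorem ArrK.trans {D E F : ℕ → Finset V} (h : ArrK M κ P D E) (h' : ArrK M κ P E F) :
    ArrK M κ P D F := by
  filter_upwards [h] with n hn T hT hTP
  obtain ⟨m, hm1, hm2⟩ := ((hn T hT hTP).and h').exists
  filter_upwards [hm2 T hT hTP] with l hl
  exact hm1.trans hl

theorem Arr2.trans {D E F : ℕ → Finset V} (h : Arr2 M κ P sh D E) (h' : ArrK M κ P E F) :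
    Arr2 M κ P sh D F := by
  filter_upwards [h] with n hn T hT hTP
  obtain ⟨m, ⟨k₁, k₂, hk, hm1⟩, hm2⟩ := ((hn T hT hTP).and h').exists
  filter_upwards [hm2 T hT hTP] with l hl
  exact ⟨k₁, k₂, hk, hm1.trans hl⟩

section SyLemmas

variable (hS : Sy M P pc κ Q sh X)

include hS

theorem Sy.na_of_pc {x y : V} (hx : x ∉ P) (hy : y ∉ P) (h : pc x ≠ pc y) :
    x ≠ y ∧ ¬ AdjQ M κ Q x y := by
  refine ⟨fun e => h (by rw [e]), ?_⟩
  rintro ⟨i, hi, h1 | h1⟩
  · exact h1 (hS.cross i hi x y hx hy h)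
  · exact h1 (hS.cross i hi y x hy hx (Ne.symm h))

/-- copying a part of piece `0` to piece `k` -/
theorem Sy.kx_sh {A : Set V} (hA : ∀ x ∈ A, x ∉ P ∧ pc x = 0) {T : Set V} (hT : T ⊆ P)
    (k : ℕ) : KE M κ T A (sh k '' A) (sh k) := by
  refine ⟨PE_mono (hS.sh_pe k) ?_, fun x hx => hS.sh_pin k x (hT hx), fun y hy =>
    ⟨⟨y, hy, rfl⟩, (hS.sh_np k y (hA y hy).1 (hA y hy).2).2.2⟩⟩
  rintro x (hx | hx)
  · exact Or.inl (hT hx)
  · exact Or.inr (hA x hx)

/-- and back -/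
theorem Sy.kx_sh_inv {A : Set V} (hA : ∀ x ∈ A, x ∉ P ∧ pc x = 0) {T : Set V} (hT : T ⊆ P)
    (k : ℕ) : KX M κ T (sh k '' A) A := by
  have h1 := hS.kx_sh hA hT k
  obtain ⟨h, hh, hinv⟩ := RE_of_image h1.1 h1.2.1
  refine ⟨h, hh.1, hh.2.1, ?_⟩
  rintro y ⟨x, hx, rfl⟩
  rw [hinv x hx]
  exact ⟨hx, ((h1.2.2 x hx).2).symm⟩

/-- copies of sets in piece `0` lie outside `P`, in piece `k` -/
theorem Sy.sh_image {A : Set V} (hA : ∀ x ∈ A, x ∉ P ∧ pc x = 0) (k : ℕ) :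
    ∀ y ∈ sh k '' A, y ∉ P ∧ pc y = k := by
  rintro y ⟨x, hx, rfl⟩
  have := hS.sh_np k x (hA x hx).1 (hA x hx).2
  exact ⟨this.1, this.2.1⟩

/-- copies in different pieces are not adjacent -/
theorem Sy.na_sh {A B : Set V} (hA : ∀ x ∈ A, x ∉ P ∧ pc x = 0)
    (hB : ∀ x ∈ B, x ∉ P ∧ pc x = 0) {k l : ℕ} (hkl : k ≠ l) :
    NA M κ Q (sh k '' A) (sh l '' B) := by
  intro x hx y hy
  have h1 := hS.sh_image hA k x hx
  have h2 := hS.sh_image hB l y hy
  exact hS.na_of_pc h1.1 h2.1 (by rw [h1.2, h2.2]; exact hkl)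

end SyLemmas

end Pool.Agent.Lib.MP_4fb322_lc_h91s
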