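import Mathlib
import Pool.Agent.Lib.MP_4fb322_lc_h91s.SDefs

set_option autoImplicit false

/-!
# Row S01

Generic generalised self-embeddings exist. PROOF (Ellis). Use a type synonym `Sf V := V → V` with the multiplication
`f * g := fun x => g (f x)` (a semigroup), and on `Ultrafilter (Sf V)` the local instances `Ultrafilter.mul`,
`Ultrafilter.semigroup` of Mathlib.Combinatorics.Hindman; `Ultrafilter.eventually_mul`: `(∀ᶠ m in U * V, p m) ↔ ∀ᶠ m in U,
∀ᶠ m' in V, p (m * m')` (by Iff.rfl); `Ultrafilter.continuous_mul_left V : Continuous (· * V)`. `Ultrafilter _` is compact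
and T2. Let `E = {u | GE M u}`: closed (intersection over finite `A` of `{u | {f | PE M A f} ∈ u}`,
`ultrafilter_isClosed_basic`), nonempty (`pure id`), closed under `*` (for almost all `f` in `U`: PE M A f, and then
almost all `g` in `V` satisfy PE M (f '' A) g; PE_comp). By Zorn (`zorn_superset_nonempty` or
`zorn_superset`; chains: `IsCompact.nonempty_sInter_of_directedOn_nonempty_isCompact_isClosed` or similar) there is
a minimal set `L ⊆ E` which is closed, nonempty and a left ideal: `a ∈ E, b ∈ L → a * b ∈ L`. `L` is a compact subsemigroup,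
so it has an idempotent `u` (`exists_idempotent_in_compact_subsemigroup`, Mathlib.Topology.Algebra.Semigroup). This
gives `idem`. For `v ∈ E` the set `{q * (v * u) | q ∈ E}` is closed (image of the compact `E` under the continuous map
`(· * (v * u))`), nonempty, a left ideal (associativity) and contained in `L` (`v * u ∈ L`), so it equals `L` and
contains `u`: `q * (v * u) = u`; by eventually_mul twice this is `mini`. (About 120 lines.)
-/

namespace Pool.Agent.Lib.MP_4fb322_lc_h91s

open Set Pool.Agent.Lib.MP_4fb322_lc_h70 Pool.Agent.Lib.MP_4fb322_lc_h91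
open Pool.Agent.Lib.MP_4fb322_lc_h21 Pool.Agent.Lib.MP_4fb322_lc_h91x

variable {I : Type} {ar : I → ℕ} {V W C : Type}

open Ultrafilter in
attribute [local instance] Ultrafilter.mul Ultrafilter.semigroup in
private theorem s01_ellis {S : Type} [Semigroup S] (E : Set (Ultrafilter S)) (hc : IsClosed E)
    (hne : E.Nonempty) (hmul : ∀ a ∈ E, ∀ b ∈ E, a * b ∈ E) :
    ∃ u ∈ E, u * u = u ∧ ∀ v ∈ E, ∃ q ∈ E, q * (v * u) = u := by
  obtain ⟨L, hLE, hmin⟩ := zorn_superset_nonempty
    {L : Set (Ultrafilter S) | IsClosed L ∧ L.Nonempty ∧ L ⊆ E ∧ ∀ a ∈ E, ∀ b ∈ L, a * b ∈ L}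
    (by
      intro c hcS hchain hcne
      refine ⟨⋂₀ c, ⟨isClosed_sInter fun t ht => (hcS ht).1, ?_, ?_, ?_⟩, fun s hs =>
        Set.sInter_subset_of_mem hs⟩
      · have : Nonempty c := hcne.coe_sort
        exact IsCompact.nonempty_sInter_of_directed_nonempty_isCompact_isClosed
          (IsChain.directedOn hchain.symm) (fun U hU => (hcS hU).2.1)
          (fun U hU => (hcS hU).1.isCompact) (fun U hU => (hcS hU).1)
      · obtain ⟨t, ht⟩ := hcne
        exact (Set.sInter_subset_of_mem ht).trans (hcS ht).2.2.1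
      · intro a ha b hb
        rw [Set.mem_sInter] at hb ⊢
        exact fun t ht => (hcS ht).2.2.2 a ha b (hb t ht))
    E ⟨hc, hne, subset_rfl, hmul⟩
  obtain ⟨hLc, hLne, hLE', hLid⟩ := hmin.prop
  obtain ⟨u, huL, huu⟩ := exists_idempotent_in_compact_subsemigroup
    (fun r : Ultrafilter S => Ultrafilter.continuous_mul_left r) L hLne hLc.isCompact
    (fun x hx y hy => hLid x (hLE' hx) y hy)
  refine ⟨u, hLE' huL, huu, fun v hv => ?_⟩
  have hvu : v * u ∈ L := hLid v hv u huL
  have hsub : (fun q => q * (v * u)) '' E ⊆ L := by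
    rintro _ ⟨q, hq, rfl⟩
    exact hLid q hq _ hvu
  have hmem : (fun q => q * (v * u)) '' E ∈ {L : Set (Ultrafilter S) | IsClosed L ∧ L.Nonempty ∧
      L ⊆ E ∧ ∀ a ∈ E, ∀ b ∈ L, a * b ∈ L} := by
    refine ⟨(hc.isCompact.image (Ultrafilter.continuous_mul_left (v * u))).isClosed,
      hne.image _, hsub.trans hLE', ?_⟩
    rintro a ha _ ⟨q, hq, rfl⟩
    exact ⟨a * q, hmul a ha q hq, mul_assoc a q (v * u)⟩
  have h1 : L ⊆ (fun q => q * (v * u)) '' E := hmin.le_of_le hmem hsub
  obtain ⟨q, hq, hqe⟩ := h1 huL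
  exact ⟨q, hq, hqe⟩

attribute [local instance] Ultrafilter.mul Ultrafilter.semigroup in
theorem exists_gen (M : (i : I) → Set (Fin (ar i) → V)) : ∃ u : Ultrafilter (V → V), Gen M u := by
  letI inst : Semigroup (V → V) :=
    { mul := fun f g x => g (f x)
      mul_assoc := fun _ _ _ => rfl }
  have hev : ∀ (u v : Ultrafilter (V → V)) (p : (V → V) → Prop),
      (∀ᶠ f in ((u * v : Ultrafilter (V → V)) : Filter (V → V)), p f) ↔
        ∀ᶠ f in (u : Filter (V → V)), ∀ᶠ g in (v : Filter (V → V)), p (fun x => g (f x)) :=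
    fun u v p => Ultrafilter.eventually_mul u v p
  have hE : ∃ u ∈ {u : Ultrafilter (V → V) | GE M u}, u * u = u ∧
      ∀ v ∈ {u : Ultrafilter (V → V) | GE M u}, ∃ q ∈ {u : Ultrafilter (V → V) | GE M u},
        q * (v * u) = u := by
    refine s01_ellis _ ?_ ?_ ?_
    · have h1 : {u : Ultrafilter (V → V) | GE M u} =
          ⋂ (A : Set V), ⋂ (_ : A.Finite), {u : Ultrafilter (V → V) | {f | PE M A f} ∈ u} := by
        ext u
        simp only [Set.mem_ofPred_eq, Set.mem_iInter]
        rfl
      rw [h1]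
      exact isClosed_iInter fun A => isClosed_iInter fun _ => ultrafilter_isClosed_basic _
    · refine ⟨(pure id : Ultrafilter (V → V)), ?_⟩
      intro A _
      change ∀ᶠ f in (pure id : Filter (V → V)), PE M A f
      rw [Filter.eventually_pure]
      exact PE_id A
    · intro a ha b hb A hA
      rw [hev]
      filter_upwards [ha A hA] with f hf
      filter_upwards [hb (f '' A) (hA.image f)] with g hg
      exact PE_comp hf hg fun y hy => ⟨y, hy, rfl⟩
  obtain ⟨u, hu, huu, hq⟩ := hE
  refine ⟨u, hu, ?_, ?_⟩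
  · intro p
    have h1 := hev u u p
    rw [huu] at h1
    exact h1
  · intro v hv
    obtain ⟨q, hqE, hqe⟩ := hq v hv
    refine ⟨q, hqE, fun p => ?_⟩
    have h1 := hev q (v * u) p
    rw [hqe] at h1
    rw [h1]
    refine Filter.eventually_congr (Filter.Eventually.of_forall fun f => ?_)
    exact hev v u (fun h => p (fun x => h (f x)))

end Pool.Agent.Lib.MP_4fb322_lc_h91s
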