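import Mathlib
import Pool.Agent.Lib.MP_4fb322_lc_h91s.SDefs

set_option autoImplicit false

/-!
# Row S02

An ultrafilter containing a family of sets indexed by the finite sets. PROOF. The sets `{f | Φ A f}`, `A` finite,
are nonempty and directed (`Φ (A ∪ B)` is contained in both by hmono), so they are contained in
a proper filter (e.g. `⨅ A : Finset V, 𝓟 {f | Φ A f}`, NeBot by `Filter.iInf_neBot_of_directed`), take
`Ultrafilter.of`. (About 30 lines.)
-/

namespace Pool.Agent.Lib.MP_4fb322_lc_h91s

open Set Pool.Agent.Lib.MP_4fb322_lc_h70 Pool.Agent.Lib.MP_4fb322_lc_h91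
open Pool.Agent.Lib.MP_4fb322_lc_h21 Pool.Agent.Lib.MP_4fb322_lc_h91x

variable {I : Type} {ar : I → ℕ} {V W C : Type}

theorem exists_ultra {α : Type} (Φ : Set V → α → Prop)
    (hmono : ∀ A B : Set V, A ⊆ B → ∀ f, Φ B f → Φ A f)
    (hne : ∀ A : Set V, A.Finite → ∃ f, Φ A f) :
    ∃ v : Ultrafilter α, ∀ A : Set V, A.Finite → ∀ᶠ f in (v : Filter α), Φ A f := by
  classical
  obtain ⟨f0, _⟩ := hne ∅ Set.finite_empty
  haveI : Nonempty α := ⟨f0⟩
  let F : Filter α := ⨅ A : Finset V, Filter.principal {f | Φ (A : Set V) f}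
  have hdir : Directed (· ≥ ·) (fun A : Finset V => Filter.principal {f | Φ (A : Set V) f}) := by
    intro A B
    refine ⟨A ∪ B, ?_, ?_⟩
    · refine Filter.principal_mono.2 ?_
      intro f hf
      exact hmono (A : Set V) ((A ∪ B : Finset V) : Set V) (by simp) f hf
    · refine Filter.principal_mono.2 ?_
      intro f hf
      exact hmono (B : Set V) ((A ∪ B : Finset V) : Set V) (by simp) f hf
  haveI hF : F.NeBot := by
    refine Filter.iInf_neBot_of_directed hdir ?_
    intro A
    rw [Filter.principal_neBot_iff]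
    exact hne _ A.finite_toSet
  refine ⟨Ultrafilter.of F, ?_⟩
  intro A hA
  have h1 : {f | Φ A f} ∈ F := by
    have h2 : F ≤ Filter.principal {f | Φ ((hA.toFinset : Finset V) : Set V) f} :=
      iInf_le (fun A : Finset V => Filter.principal {f | Φ (A : Set V) f}) hA.toFinset
    have h3 := h2 (Filter.mem_principal_self _)
    simpa using h3
  exact Ultrafilter.of_le F h1

end Pool.Agent.Lib.MP_4fb322_lc_h91s
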