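import Mathlib
import Pool.Agent.Lib.MP_4fb322_lc_h91s.SDefs
import Pool.Agent.Lib.MP_4fb322_lc_h91s.S02

set_option autoImplicit false

/-!
# Row S03

Pins are fixed, all other points are pushed off. PROOF of push_off. `x ∉ Pins M` means: every finite `Y` embeds into
`{x}ᶜ`. By exists_ultra (Φ A f := PE M A f ∧ ∀ z ∈ A, f z ≠ x) there is `v` with `GE M v` and for all `z`, almost
all `g` in `v`: `g z ≠ x`. Take `q` from `hu.mini v`. If the conclusion fails then (ultrafilter, Ultrafilter.eventually_not)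
`∀ᶠ f in u, f x = y`, so by `mini` with `p f := f x = y`: `∀ᶠ f in q, ∀ᶠ g in v, ∀ᶠ h in u, h (g (f x)) = y`. Choose `f, g`
with this and `z := g (f x) ≠ x`. For almost all `h` in `u`: `h z = y = h x` and `h` is injective on `{x, z}` (hu.emb):
contradiction. PROOF of pin_fix. First: for a pin `p` there is `x` with `∀ᶠ f in u, f x = p`: there is a finite `Y` with
`¬ VE M Y {p}ᶜ`, almost all `f` satisfy `PE M Y f`, so `∃ x ∈ Y, f x = p`; `Y` is finite, so one `x` works for almost all `f`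
(finite union in an ultrafilter, e.g. by contradiction with Filter.eventually_all_finite / Set.Finite induction). Such an `x`
is a pin by push_off. Do this for `p` (get `x₀`), then for the pin `x₀` (get `x₁`). By `hu.idem`
with `p f := f x₁ = p`: for almost all `f`, `f x₁ = x₀`, and for almost all `g`, `g x₀ = p`; so `∀ᶠ f in u, f x₁ = p`. By
injectivity on `{x₀, x₁}`, `x₁ = x₀`. So `∀ᶠ f, f x₀ = x₀` and `∀ᶠ f, f x₀ = p`: `x₀ = p`. (About 80 lines.)
-/

namespace Pool.Agent.Lib.MP_4fb322_lc_h91s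

open Set Pool.Agent.Lib.MP_4fb322_lc_h70 Pool.Agent.Lib.MP_4fb322_lc_h91
open Pool.Agent.Lib.MP_4fb322_lc_h21 Pool.Agent.Lib.MP_4fb322_lc_h91x

variable {I : Type} {ar : I → ℕ} {V W C : Type}

theorem push_off {M : (i : I) → Set (Fin (ar i) → V)} {u : Ultrafilter (V → V)} (hu : Gen M u)
    {x : V} (hx : x ∉ Pins M) (y : V) : ∀ᶠ f in (u : Filter (V → V)), f x ≠ y := by
  have hx' : ∀ Y : Set V, Y.Finite → VE M Y {x}ᶜ := by
    by_contra h
    exact hx h
  obtain ⟨v, hv⟩ := exists_ultra (fun (A : Set V) (f : V → V) => PE M A f ∧ ∀ z ∈ A, f z ≠ x)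
    (fun A B hAB f hf => ⟨PE_mono hf.1 hAB, fun z hz => hf.2 z (hAB hz)⟩)
    (fun A hA => by
      obtain ⟨f, hf, hf'⟩ := hx' A hA
      exact ⟨f, hf, fun z hz => hf' z hz⟩)
  have hvG : GE M v := fun A hA => (hv A hA).mono fun f hf => hf.1
  have hvx : ∀ z : V, ∀ᶠ g in (v : Filter (V → V)), g z ≠ x := fun z =>
    (hv {z} (Set.finite_singleton z)).mono fun g hg => hg.2 z (Set.mem_singleton z)
  obtain ⟨q, -, hq⟩ := hu.mini v hvG
  by_contra hcon
  have hxy : ∀ᶠ f in (u : Filter (V → V)), f x = y := by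
    by_contra h2
    exact hcon (Ultrafilter.eventually_not.2 h2)
  obtain ⟨f, hf⟩ := ((hq fun f => f x = y).1 hxy).exists
  obtain ⟨g, hg1, hg2⟩ := (hf.and (hvx (f x))).exists
  obtain ⟨h, ⟨hh1, hh2⟩, hh3⟩ := ((hg1.and hxy).and (hu.emb {x, g (f x)} (by simp))).exists
  have h4 : g (f x) = x := hh3.1 (by simp) (by simp) (hh1.trans hh2.symm)
  exact hg2 h4

theorem pin_fix {M : (i : I) → Set (Fin (ar i) → V)} {u : Ultrafilter (V → V)} (hu : Gen M u)
    {p : V} (hp : p ∈ Pins M) : ∀ᶠ f in (u : Filter (V → V)), f p = p := by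
  have key : ∀ p ∈ Pins M, ∃ x ∈ Pins M, ∀ᶠ f in (u : Filter (V → V)), f x = p := by
    intro p hp
    have hp' : ¬ ∀ Y : Set V, Y.Finite → VE M Y {p}ᶜ := hp
    push Not at hp'
    obtain ⟨Y, hY, hYp⟩ := hp'
    have h1 : ∃ x ∈ Y, ∀ᶠ f in (u : Filter (V → V)), f x = p := by
      by_contra hcon
      push Not at hcon
      have h2 : ∀ᶠ f in (u : Filter (V → V)), ∀ x ∈ Y, f x ≠ p :=
        (Filter.eventually_all_finite hY).2 fun x hx => hcon x hx
      obtain ⟨f, hf1, hf2⟩ := (h2.and (hu.emb Y hY)).exists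
      exact hYp ⟨f, hf2, fun y hy => hf1 y hy⟩
    obtain ⟨x, -, hx⟩ := h1
    refine ⟨x, ?_, hx⟩
    by_contra hxP
    obtain ⟨f, hf1, hf2⟩ := (hx.and (push_off hu hxP p)).exists
    exact hf2 hf1
  obtain ⟨x₀, hx₀, h0⟩ := key p hp
  obtain ⟨x₁, -, h1⟩ := key x₀ hx₀
  have h2 : ∀ᶠ f in (u : Filter (V → V)), f x₁ = p := by
    refine (hu.idem fun f => f x₁ = p).2 ?_
    filter_upwards [h1] with f hf
    simp only [hf]
    exact h0
  have h3 : x₁ = x₀ := by
    obtain ⟨f, ⟨hf1, hf2⟩, hf3⟩ := ((h2.and h0).and (hu.emb {x₁, x₀} (by simp))).exists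
    exact hf3.1 (by simp) (by simp) (hf1.trans hf2.symm)
  have h4 : x₀ = p := by
    rw [h3] at h1
    obtain ⟨f, hf1, hf2⟩ := (h1.and h0).exists
    exact hf1.symm.trans hf2
  rw [h4] at h0
  exact h0

end Pool.Agent.Lib.MP_4fb322_lc_h91s
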