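import Mathlib
import Pool.Agent.Lib.MP_4fb322_lc_h91s.SDefs

set_option autoImplicit false

/-!
# Row S04

Exchange of limits (pure combinatorics).
-/

namespace Pool.Agent.Lib.MP_4fb322_lc_h91s

open Set Pool.Agent.Lib.MP_4fb322_lc_h70 Pool.Agent.Lib.MP_4fb322_lc_h91
open Pool.Agent.Lib.MP_4fb322_lc_h21 Pool.Agent.Lib.MP_4fb322_lc_h91x

variable {I : Type} {ar : I → ℕ} {V W C : Type}

private theorem s04_build {α β : Type} (a : Ultrafilter α) (b : Ultrafilter β)
    (R : α → β → Prop)
    (h1 : ∀ᶠ f in (a : Filter α), ∀ᶠ g in (b : Filter β), R f g)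
    (h2 : ∀ᶠ g in (b : Filter β), ∀ᶠ f in (a : Filter α), ¬ R f g) (n : ℕ) :
    ∃ (f : ℕ → α) (g : ℕ → β),
      (∀ k, k < n → ∀ᶠ y in (b : Filter β), R (f k) y) ∧
      (∀ k, k < n → ∀ᶠ x in (a : Filter α), ¬ R x (g k)) ∧
      ∀ i j, i < n → j < n → (R (f i) (g j) ↔ i ≤ j) := by
  induction n with
  | zero =>
    obtain ⟨f0, -⟩ := h1.exists
    obtain ⟨g0, -⟩ := h2.exists
    exact ⟨fun _ => f0, fun _ => g0, by simp, by simp, by simp⟩
  | succ n ih =>
    obtain ⟨f, g, hf, hg, hR⟩ := ih
    -- the new f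
    have hfin : ∀ᶠ x in (a : Filter α), ∀ k ∈ Finset.range n, ¬ R x (g k) :=
      (Filter.eventually_all_finset (Finset.range n)).2
        (fun k hk => hg k (Finset.mem_range.1 hk))
    obtain ⟨x, hx1, hx2⟩ := (h1.and hfin).exists
    have hfin2 : ∀ᶠ y in (b : Filter β), ∀ k ∈ Finset.range n, R (f k) y :=
      (Filter.eventually_all_finset (Finset.range n)).2
        (fun k hk => hf k (Finset.mem_range.1 hk))
    obtain ⟨y, ⟨hy1, hy2⟩, hy3⟩ := ((h2.and hfin2).and hx1).exists
    refine ⟨Function.update f n x, Function.update g n y, ?_, ?_, ?_⟩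
    · intro k hk
      rcases Nat.lt_succ_iff_lt_or_eq.1 hk with h | h
      · rw [Function.update_of_ne (ne_of_lt h)]
        exact hf k h
      · subst h
        rw [Function.update_self]
        exact hx1
    · intro k hk
      rcases Nat.lt_succ_iff_lt_or_eq.1 hk with h | h
      · rw [Function.update_of_ne (ne_of_lt h)]
        exact hg k h
      · subst h
        rw [Function.update_self]
        exact hy1
    · intro i j hi hj
      rcases Nat.lt_succ_iff_lt_or_eq.1 hi with hi' | hi'
      · rcases Nat.lt_succ_iff_lt_or_eq.1 hj with hj' | hj'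
        · rw [Function.update_of_ne (ne_of_lt hi'), Function.update_of_ne (ne_of_lt hj')]
          exact hR i j hi' hj'
        · subst hj'
          rw [Function.update_of_ne (ne_of_lt hi'), Function.update_self]
          exact ⟨fun _ => le_of_lt hi', fun _ => hy2 i (Finset.mem_range.2 hi')⟩
      · subst hi'
        rcases Nat.lt_succ_iff_lt_or_eq.1 hj with hj' | hj'
        · rw [Function.update_self, Function.update_of_ne (ne_of_lt hj')]
          exact ⟨fun h => absurd h (hx2 j (Finset.mem_range.2 hj')),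
            fun h => absurd h (not_le.2 hj')⟩
        · subst hj'
          rw [Function.update_self, Function.update_self]
          exact ⟨fun _ => le_rfl, fun _ => hy3⟩

theorem limit_exchange {S : V → V → Prop} {t : ℕ} (hS : NoLadder S t) {α β : Type}
    (a : Ultrafilter α) (b : Ultrafilter β) (φ : α → V) (ψ : β → V) :
    (∀ᶠ f in (a : Filter α), ∀ᶠ g in (b : Filter β), S (φ f) (ψ g)) ↔
      ∀ᶠ g in (b : Filter β), ∀ᶠ f in (a : Filter α), S (φ f) (ψ g) := by
  constructor
  · intro h
    by_contra hn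
    have h2 : ∀ᶠ g in (b : Filter β), ∀ᶠ f in (a : Filter α), ¬ S (φ f) (ψ g) := by
      have := (Ultrafilter.eventually_not (f := b)).2 hn
      exact this.mono (fun g hg => (Ultrafilter.eventually_not (f := a)).2 hg)
    obtain ⟨f, g, -, -, hR⟩ := s04_build a b (fun f g => S (φ f) (ψ g)) h h2 t
    exact hS ⟨fun i => φ (f i), fun i => ψ (g i), fun i j => by
      rw [hR i j i.2 j.2]
      exact Iff.rfl⟩
  · intro h
    by_contra hn
    have h2 : ∀ᶠ f in (a : Filter α), ∀ᶠ g in (b : Filter β), ¬ S (φ f) (ψ g) := by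
      have := (Ultrafilter.eventually_not (f := a)).2 hn
      exact this.mono (fun g hg => (Ultrafilter.eventually_not (f := b)).2 hg)
    obtain ⟨g, f, -, -, hR⟩ := s04_build b a (fun g f => S (φ f) (ψ g)) h h2 t
    refine hS ⟨fun i => φ (f (Fin.rev i)), fun i => ψ (g (Fin.rev i)), fun i j => ?_⟩
    rw [hR _ _ (Fin.rev j).2 (Fin.rev i).2, ← Fin.rev_le_rev (i := j) (j := i)]
    exact Iff.rfl

end Pool.Agent.Lib.MP_4fb322_lc_h91s
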