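import Mathlib
import Pool.Agent.Lib.MP_4fb322_lc_h91s.SDefs
import Pool.Agent.Lib.MP_4fb322_lc_h91s.S04

set_option autoImplicit false

/-!
# Row S05

The limit relation is invariant in both variables. PROOF. qr_comm is limit_exchange (S := the relation `i` of `M`,
φ f := f x, ψ g := g y). qr_left: by `hu.idem` applied to `p f := ∀ᶠ g in u, pr2 (f x) (g y) ∈ M i`: `Qr i x y ↔ ∀ᶠ g in u,
Qr i (g x) y`; if `Qr i x y` holds then almost all `g` have `Qr i (g x) y`; otherwise not (∀ᶠ g, Qr i (g x) y), so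
(ultrafilter) almost all `g` have `¬ Qr i (g x) y`. qr_right: the same for the other variable, using qr_comm to write both
sides with the `y`-limit outside. (About 50 lines.)
-/

namespace Pool.Agent.Lib.MP_4fb322_lc_h91s

open Set Pool.Agent.Lib.MP_4fb322_lc_h70 Pool.Agent.Lib.MP_4fb322_lc_h91
open Pool.Agent.Lib.MP_4fb322_lc_h21 Pool.Agent.Lib.MP_4fb322_lc_h91x

variable {I : Type} {ar : I → ℕ} {V W C : Type}

theorem qr_comm {M : (i : I) → Set (Fin (ar i) → V)} {u : Ultrafilter (V → V)} {i : I} {t : ℕ}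
    (hst : NoLadder (fun x y => (pr2 x y : Fin (ar i) → V) ∈ M i) t) (x y : V) :
    Qr M u i x y ↔ (ar i = 2 ∧ ∀ᶠ g in (u : Filter (V → V)), ∀ᶠ f in (u : Filter (V → V)),
      (pr2 (f x) (g y) : Fin (ar i) → V) ∈ M i) := by
  unfold Qr
  exact and_congr_right fun _ => limit_exchange hst u u (fun f => f x) (fun g => g y)

theorem qr_left {M : (i : I) → Set (Fin (ar i) → V)} {u : Ultrafilter (V → V)} (hu : Gen M u)
    (i : I) (x y : V) :
    ∀ᶠ g in (u : Filter (V → V)), (Qr M u i (g x) y ↔ Qr M u i x y) := by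
  by_cases hi : ar i = 2
  · have h1 := hu.idem (fun f => ∀ᶠ g in (u : Filter (V → V)),
      (pr2 (f x) (g y) : Fin (ar i) → V) ∈ M i)
    have h2 : Qr M u i x y ↔ ∀ᶠ g in (u : Filter (V → V)), Qr M u i (g x) y := by
      unfold Qr
      simp only [hi, true_and]
      exact h1
    by_cases hQ : Qr M u i x y
    · filter_upwards [h2.1 hQ] with g hg
      exact ⟨fun _ => hQ, fun _ => hg⟩
    · have h3 : ∀ᶠ g in (u : Filter (V → V)), ¬ Qr M u i (g x) y := by
        rw [Ultrafilter.eventually_not]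
        exact fun h => hQ (h2.2 h)
      filter_upwards [h3] with g hg
      exact ⟨fun h => absurd h hg, fun h => absurd h hQ⟩
  · refine Filter.Eventually.of_forall fun g => ⟨fun h => absurd h.1 hi, fun h => absurd h.1 hi⟩

theorem qr_right {M : (i : I) → Set (Fin (ar i) → V)} {u : Ultrafilter (V → V)} (hu : Gen M u)
    {i : I} {t : ℕ} (hst : NoLadder (fun x y => (pr2 x y : Fin (ar i) → V) ∈ M i) t)
    (x y : V) : ∀ᶠ g in (u : Filter (V → V)), (Qr M u i x (g y) ↔ Qr M u i x y) := by
  by_cases hi : ar i = 2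
  · have h1 := hu.idem (fun g => ∀ᶠ f in (u : Filter (V → V)),
      (pr2 (f x) (g y) : Fin (ar i) → V) ∈ M i)
    have h2 : Qr M u i x y ↔ ∀ᶠ g in (u : Filter (V → V)), Qr M u i x (g y) := by
      rw [qr_comm hst]
      simp only [hi, true_and]
      rw [h1]
      refine Filter.eventually_congr (Filter.Eventually.of_forall fun g => ?_)
      rw [qr_comm hst]
      simp only [hi, true_and]
    by_cases hQ : Qr M u i x y
    · filter_upwards [h2.1 hQ] with g hg
      exact ⟨fun _ => hQ, fun _ => hg⟩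
    · have h3 : ∀ᶠ g in (u : Filter (V → V)), ¬ Qr M u i x (g y) := by
        rw [Ultrafilter.eventually_not]
        exact fun h => hQ (h2.2 h)
      filter_upwards [h3] with g hg
      exact ⟨fun h => absurd h hg, fun h => absurd h hQ⟩
  · refine Filter.Eventually.of_forall fun g => ⟨fun h => absurd h.1 hi, fun h => absurd h.1 hi⟩

end Pool.Agent.Lib.MP_4fb322_lc_h91s
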