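import Mathlib
import Pool.Agent.Lib.MP_4fb322_lc_h91s.SDefs

set_option autoImplicit false

/-!
# Row S06

The limit relation has no ladder. PROOF. noLadder_swap: reverse the indices (`Fin.rev`). qr_noLadder: given `x y : Fin t → V`
with `Qr i (x a) (y b) ↔ a ≤ b`, for every `a b` almost all `f` satisfy: almost all `g` satisfy `pr2 (f (x a)) (g (y b)) ∈ M i ↔
a ≤ b` (if `a ≤ b` this is `Qr i (x a) (y b)`; otherwise `¬ Qr i (x a) (y b)` with `ar i = 2` gives `¬ ∀ᶠ f, ∀ᶠ g, ...`, and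
Ultrafilter.eventually_not twice). Intersect over the finitely many pairs (Filter.eventually_all), choose `f`, then `g`: a ladder of `M`.
(About 50 lines.)
-/

namespace Pool.Agent.Lib.MP_4fb322_lc_h91s

open Set Pool.Agent.Lib.MP_4fb322_lc_h70 Pool.Agent.Lib.MP_4fb322_lc_h91
open Pool.Agent.Lib.MP_4fb322_lc_h21 Pool.Agent.Lib.MP_4fb322_lc_h91x

variable {I : Type} {ar : I → ℕ} {V W C : Type}

theorem noLadder_swap {S : V → V → Prop} {t : ℕ} (h : NoLadder S t) :
    NoLadder (fun x y => S y x) t := by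
  rintro ⟨x, y, hxy⟩
  refine h ⟨fun a => y (Fin.rev a), fun b => x (Fin.rev b), fun a b => ?_⟩
  exact (hxy (Fin.rev b) (Fin.rev a)).trans Fin.rev_le_rev

theorem qr_noLadder {M : (i : I) → Set (Fin (ar i) → V)} {u : Ultrafilter (V → V)} {i : I}
    (hi : ar i = 2) {t : ℕ}
    (hst : NoLadder (fun x y => (pr2 x y : Fin (ar i) → V) ∈ M i) t) :
    NoLadder (fun x y => Qr M u i x y) t := by
  rintro ⟨x, y, hxy⟩
  have key : ∀ a b : Fin t, ∀ᶠ f in (u : Filter (V → V)), ∀ᶠ g in (u : Filter (V → V)),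
      ((pr2 (f (x a)) (g (y b)) : Fin (ar i) → V) ∈ M i ↔ a ≤ b) := by
    intro a b
    by_cases hab : a ≤ b
    · have h1 := ((hxy a b).mpr hab).2
      filter_upwards [h1] with f hf
      filter_upwards [hf] with g hg
      exact ⟨fun _ => hab, fun _ => hg⟩
    · have h1 : ¬ Qr M u i (x a) (y b) := fun h => hab ((hxy a b).mp h)
      have h2 : ¬ ∀ᶠ f in (u : Filter (V → V)), ∀ᶠ g in (u : Filter (V → V)),
          (pr2 (f (x a)) (g (y b)) : Fin (ar i) → V) ∈ M i := fun h => h1 ⟨hi, h⟩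
      rw [← Ultrafilter.eventually_not] at h2
      filter_upwards [h2] with f hf
      rw [← Ultrafilter.eventually_not] at hf
      filter_upwards [hf] with g hg
      exact ⟨fun h => absurd h hg, fun h => absurd h hab⟩
  have key2 : ∀ᶠ f in (u : Filter (V → V)), ∀ a b : Fin t, ∀ᶠ g in (u : Filter (V → V)),
      ((pr2 (f (x a)) (g (y b)) : Fin (ar i) → V) ∈ M i ↔ a ≤ b) := by
    rw [Filter.eventually_all]
    intro a
    rw [Filter.eventually_all]
    intro b
    exact key a b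
  obtain ⟨f, hf⟩ := key2.exists
  have key3 : ∀ᶠ g in (u : Filter (V → V)), ∀ a b : Fin t,
      ((pr2 (f (x a)) (g (y b)) : Fin (ar i) → V) ∈ M i ↔ a ≤ b) := by
    rw [Filter.eventually_all]
    intro a
    rw [Filter.eventually_all]
    intro b
    exact hf a b
  obtain ⟨g, hg⟩ := key3.exists
  exact hst ⟨fun a => f (x a), fun b => g (y b), hg⟩

end Pool.Agent.Lib.MP_4fb322_lc_h91s
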