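import Mathlib
import Pool.Agent.Lib.MP_4fb322_lc_h91s.SDefs

set_option autoImplicit false

/-!
# Row S07

No ladder implies no tall binary tree (Hodges, Lemma 6.7.9; pure combinatorics). PROOF. (1) `Rk S Y n Z` is monotone in `Y`
and `Z`, and `Rk S Y n Z → Z.Nonempty`. (2) Splitting: if `Y ⊆ Y₁ ∪ Y₂` and `Rk S Y (n + k) Z` then `Rk S Y₁ n Z ∨ Rk S Y₂ k Z`.
Induction on `n + k` (generalise `Z`): if `n = 0` or `k = 0` use nonemptiness. Otherwise the root is `y ∈ Y`, both halves
`Z⁺ = {z ∈ Z | S z y}`, `Z⁻` have height `n + k - 1`; if `y ∈ Y₁` apply induction to both halves with `(n - 1, k)`: if one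
of them gives `Rk S Y₂ k` we are done by monotonicity, otherwise both give `Rk S Y₁ (n - 1)` and `y` is
a root for `Rk S Y₁ n Z`; symmetric if `y ∈ Y₂`. (3) CLAIM: for all `p r` there is `N` such that for all `Y Z` with `Rk S Y N Z`:
either there are `x y : Fin p → V` with `x a ∈ Z`, `y b ∈ Y`, `S (x a) (y b) ↔ a ≤ b`, or there are `x y : Fin r → V` with `x a ∈ Z`,
`y b ∈ Y`, `S (x a) (y b) ↔ a < b`. Induction on `p + r`; trivial if `p = 0` or `r = 0`. Let `N₁` be the number for `(p, r + 1)`, `N₂`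
for `(p + 1, r)`; for `(p + 1, r + 1)` take `N = (N₁ + 1) + (N₂ + 1)`. Choose `c ∈ Z`; `Y₁ = {y ∈ Y | S c y}`, `Y₂ = {y ∈ Y | ¬ S c y}`. By
(2) either `Rk S Y₁ (N₁ + 1) Z`, with root `y ∈ Y₁` and `Rk S Y₁ N₁ Z⁻`, `Z⁻ = {z ∈ Z | ¬ S z y}`: induction gives a `p`-ladder
(≤) in `(Z⁻, Y₁)`, and putting `(c, y)` in front (Fin.cons) gives a `(p + 1)`-ladder: `S c y`, `S c (y b)` as `y b ∈ Y₁`, `¬ S (x a) y` as
`x a ∈ Z⁻`; or a strict `(r + 1)`-ladder: done. Or `Rk S Y₂ (N₂ + 1) Z`, root `y ∈ Y₂`, `Rk S Y₂ N₂ Z⁺`: induction gives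
a `(p + 1)`-ladder: done; or a strict `r`-ladder in `(Z⁺, Y₂)`, and appending `(c, y)` at the end (Fin.snoc) gives a strict
`(r + 1)`-ladder: `S (x a) y`, `¬ S c (y b)`, `¬ S c y`. (4) Apply (3) with `p = t`, `r = t + 1`, `Y = Z = univ`: a strict
`(t + 1)`-ladder gives the ladder `x a := x (castSucc a)`, `y b := y (succ b)` (`castSucc a < succ b ↔ a ≤ b`). So `N` of the claim
contradicts NoLadder. (About 150 lines.)
-/

namespace Pool.Agent.Lib.MP_4fb322_lc_h91s

open Set Pool.Agent.Lib.MP_4fb322_lc_h70 Pool.Agent.Lib.MP_4fb322_lc_h91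
open Pool.Agent.Lib.MP_4fb322_lc_h21 Pool.Agent.Lib.MP_4fb322_lc_h91x

variable {I : Type} {ar : I → ℕ} {V W C : Type}

private lemma rk_mono_Z {S : V → V → Prop} {Y : Set V} : ∀ (n : ℕ) {Z Z' : Set V}, Z ⊆ Z' →
    Rk S Y n Z → Rk S Y n Z' := by
  intro n
  induction n with
  | zero =>
    intro Z Z' h hr
    exact Set.Nonempty.mono h hr
  | succ n ih =>
    intro Z Z' h hr
    obtain ⟨y, hy, h1, h2⟩ := hr
    exact ⟨y, hy, ih (fun z hz => ⟨h hz.1, hz.2⟩) h1, ih (fun z hz => ⟨h hz.1, hz.2⟩) h2⟩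

private lemma rk_nonempty {S : V → V → Prop} {Y : Set V} : ∀ (n : ℕ) {Z : Set V},
    Rk S Y n Z → Z.Nonempty := by
  intro n
  induction n with
  | zero =>
    intro Z hr
    exact hr
  | succ n ih =>
    intro Z hr
    obtain ⟨y, hy, h1, h2⟩ := hr
    obtain ⟨z, hz⟩ := ih h1
    exact ⟨z, hz.1⟩

private lemma rk_split {S : V → V → Prop} {Y Y₁ Y₂ : Set V} (hY : Y ⊆ Y₁ ∪ Y₂) :
    ∀ (s n k : ℕ), n + k = s → ∀ Z : Set V, Rk S Y s Z → Rk S Y₁ n Z ∨ Rk S Y₂ k Z := by
  intro s
  induction s with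
  | zero =>
    intro n k hnk Z hr
    have hn : n = 0 := by omega
    subst hn
    exact Or.inl (rk_nonempty 0 hr)
  | succ s ih =>
    intro n k hnk Z hr
    have hne : Z.Nonempty := rk_nonempty _ hr
    rcases n with _ | n
    · exact Or.inl hne
    rcases k with _ | k
    · exact Or.inr hne
    obtain ⟨y, hy, h1, h2⟩ := hr
    rcases hY hy with hy1 | hy2
    · have a1 := ih n (k + 1) (by omega) _ h1
      have a2 := ih n (k + 1) (by omega) _ h2
      rcases a1 with a1 | a1
      · rcases a2 with a2 | a2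
        · exact Or.inl ⟨y, hy1, a1, a2⟩
        · exact Or.inr (rk_mono_Z _ (fun z hz => hz.1) a2)
      · exact Or.inr (rk_mono_Z _ (fun z hz => hz.1) a1)
    · have a1 := ih (n + 1) k (by omega) _ h1
      have a2 := ih (n + 1) k (by omega) _ h2
      rcases a1 with a1 | a1
      · exact Or.inl (rk_mono_Z _ (fun z hz => hz.1) a1)
      · rcases a2 with a2 | a2
        · exact Or.inl (rk_mono_Z _ (fun z hz => hz.1) a2)
        · exact Or.inr ⟨y, hy2, a1, a2⟩

private lemma ladder_claim (S : V → V → Prop) : ∀ (s p r : ℕ), p + r = s → ∃ N : ℕ,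
    ∀ Y Z : Set V, Rk S Y N Z →
      (∃ x y : Fin p → V, (∀ a, x a ∈ Z) ∧ (∀ b, y b ∈ Y) ∧ ∀ a b, S (x a) (y b) ↔ a ≤ b) ∨
      (∃ x y : Fin r → V, (∀ a, x a ∈ Z) ∧ (∀ b, y b ∈ Y) ∧ ∀ a b, S (x a) (y b) ↔ a < b) := by
  intro s
  induction s using Nat.strong_induction_on with
  | _ s ih =>
    intro p r hpr
    rcases p with _ | p
    · refine ⟨0, fun Y Z _ => Or.inl ⟨Fin.elim0, Fin.elim0, fun a => a.elim0, fun a => a.elim0,
        fun a => a.elim0⟩⟩
    rcases r with _ | r
    · refine ⟨0, fun Y Z _ => Or.inr ⟨Fin.elim0, Fin.elim0, fun a => a.elim0, fun a => a.elim0,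
        fun a => a.elim0⟩⟩
    obtain ⟨N₁, h1⟩ := ih (p + (r + 1)) (by omega) p (r + 1) rfl
    obtain ⟨N₂, h2⟩ := ih ((p + 1) + r) (by omega) (p + 1) r rfl
    refine ⟨(N₁ + 1) + (N₂ + 1), fun Y Z hr => ?_⟩
    obtain ⟨c, hc⟩ := rk_nonempty _ hr
    have hY : Y ⊆ {y | y ∈ Y ∧ S c y} ∪ {y | y ∈ Y ∧ ¬ S c y} := by
      intro y hy
      by_cases h : S c y
      · exact Or.inl ⟨hy, h⟩
      · exact Or.inr ⟨hy, h⟩
    rcases rk_split hY _ (N₁ + 1) (N₂ + 1) rfl Z hr with hr1 | hr2
    · obtain ⟨y0, ⟨hy0, hcy0⟩, -, hm⟩ := hr1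
      rcases h1 _ _ hm with ⟨x, y, hx, hy, hxy⟩ | ⟨x, y, hx, hy, hxy⟩
      · left
        refine ⟨Fin.cons c x, Fin.cons y0 y, ?_, ?_, ?_⟩
        · intro a
          refine Fin.cases ?_ (fun a => ?_) a
          · exact hc
          · exact (hx a).1
        · intro b
          refine Fin.cases ?_ (fun b => ?_) b
          · exact hy0
          · exact (hy b).1
        · intro a b
          refine Fin.cases ?_ (fun a => ?_) a
          · refine Fin.cases ?_ (fun b => ?_) b
            · simpa using hcy0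
            · simpa using (hy b).2
          · refine Fin.cases ?_ (fun b => ?_) b
            · have := (hx a).2
              simpa using this
            · simpa using hxy a b
      · right
        exact ⟨x, y, fun a => (hx a).1, fun b => (hy b).1, hxy⟩
    · obtain ⟨y0, ⟨hy0, hcy0⟩, hm, -⟩ := hr2
      rcases h2 _ _ hm with ⟨x, y, hx, hy, hxy⟩ | ⟨x, y, hx, hy, hxy⟩
      · left
        exact ⟨x, y, fun a => (hx a).1, fun b => (hy b).1, hxy⟩
      · right
        refine ⟨Fin.snoc x c, Fin.snoc y y0, ?_, ?_, ?_⟩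
        · intro a
          refine Fin.lastCases ?_ (fun a => ?_) a
          · simpa using hc
          · simpa using (hx a).1
        · intro b
          refine Fin.lastCases ?_ (fun b => ?_) b
          · simpa using hy0
          · simpa using (hy b).1
        · intro a b
          refine Fin.lastCases ?_ (fun a => ?_) a
          · refine Fin.lastCases ?_ (fun b => ?_) b
            · simpa using hcy0
            · have := (hy b).2
              simp only [Fin.snoc_last, Fin.snoc_castSucc]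
              constructor
              · intro h
                exact absurd h this
              · intro h
                exact absurd h (not_lt.mpr (Fin.le_last _))
          · refine Fin.lastCases ?_ (fun b => ?_) b
            · have := (hx a).2
              simp only [Fin.snoc_last, Fin.snoc_castSucc]
              constructor
              · intro _
                exact Fin.castSucc_lt_last a
              · intro _
                exact this
            · simpa using hxy a b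

theorem no_tall_tree {S : V → V → Prop} {t : ℕ} (h : NoLadder S t) :
    ∃ N : ℕ, ¬ Rk S Set.univ N Set.univ := by
  obtain ⟨N, hN⟩ := ladder_claim S (t + (t + 1)) t (t + 1) rfl
  refine ⟨N, fun hr => ?_⟩
  rcases hN _ _ hr with ⟨x, y, -, -, hxy⟩ | ⟨x, y, -, -, hxy⟩
  · exact h ⟨x, y, hxy⟩
  · refine h ⟨fun a => x (Fin.castSucc a), fun b => y (Fin.succ b), fun a b => ?_⟩
    rw [hxy]
    rw [Fin.lt_def, Fin.le_def]
    simp only [Fin.val_castSucc, Fin.val_succ]
    omega

end Pool.Agent.Lib.MP_4fb322_lc_h91s
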