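import Mathlib
import Pool.Agent.Lib.MP_4fb322_lc_h91s.SDefs

set_option autoImplicit false

/-!
# Row S08

The rank function of a ladder free relation (pure combinatorics). PROOF. For `x : V` and `T : Finset V` let `[x]_T = {z | ∀ y ∈ T, (S z y ↔ S x y)}`.
`Rk S univ n Z` is monotone in `Z` and `Rk (n+1) Z → Rk n Z` (by induction on `n`), `Rk S univ 0 [x]_T` always holds. Let
`α x = sInf {n | ∃ T : Finset V, ¬ Rk S univ (n + 1) [x]_T}` (nonempty by hN and monotonicity: `n = N`). By Nat.sInf_mem choose `T`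
with `¬ Rk S univ (α x + 1) [x]_T`. Let `z ∈ [x]_T`. Then `[z]_T = [x]_T` so `α z ≤ α x` (Nat.sInf_le). Suppose `α z = α x = n` and
`S z y`, `S x y` have different truth values for some `y`. Put `T' = insert y T`. Then `Rk S univ n [x]_{T'}` (if `n = 0` clear; if
`n = k + 1` then otherwise `k` would be in the set defining `α x`), and in the same way `Rk S univ n [z]_{T'}`. These two
sets are contained in the two halves of `[x]_T` given by `y` (in one order or the other), so `Rk S univ (n + 1) [x]_T`: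
contradiction. (About 80 lines.)
-/

namespace Pool.Agent.Lib.MP_4fb322_lc_h91s

open Set Pool.Agent.Lib.MP_4fb322_lc_h70 Pool.Agent.Lib.MP_4fb322_lc_h91
open Pool.Agent.Lib.MP_4fb322_lc_h21 Pool.Agent.Lib.MP_4fb322_lc_h91x

variable {I : Type} {ar : I → ℕ} {V W C : Type}

private theorem rk_mono {S : V → V → Prop} {Y : Set V} (n : ℕ) :
    ∀ {Z Z' : Set V}, Z ⊆ Z' → Rk S Y n Z → Rk S Y n Z' := by
  induction n with
  | zero =>
    intro Z Z' h h1
    exact Set.Nonempty.mono h h1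
  | succ n ih =>
    intro Z Z' h h1
    obtain ⟨y, hy, h2, h3⟩ := h1
    exact ⟨y, hy, ih (fun z hz => ⟨h hz.1, hz.2⟩) h2, ih (fun z hz => ⟨h hz.1, hz.2⟩) h3⟩

private theorem rk_pred {S : V → V → Prop} {Y : Set V} (n : ℕ) :
    ∀ {Z : Set V}, Rk S Y (n + 1) Z → Rk S Y n Z := by
  induction n with
  | zero =>
    intro Z h1
    obtain ⟨y, hy, ⟨z, hz⟩, h3⟩ := h1
    exact ⟨z, hz.1⟩
  | succ n ih =>
    intro Z h1
    obtain ⟨y, hy, h2, h3⟩ := h1
    exact ⟨y, hy, ih h2, ih h3⟩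

theorem exists_rank {S : V → V → Prop} {N : ℕ} (hN : ¬ Rk S Set.univ N Set.univ) :
    ∃ α : V → ℕ, ∀ x, ∃ T : Finset V, ∀ z, (∀ y ∈ T, (S z y ↔ S x y)) →
      α z ≤ α x ∧ (α z = α x → ∀ y, (S z y ↔ S x y)) := by
  classical
  obtain ⟨cls, hcls⟩ : ∃ cls : V → Finset V → Set V,
      ∀ x T z, z ∈ cls x T ↔ ∀ y ∈ T, (S z y ↔ S x y) :=
    ⟨fun x T => {z | ∀ y ∈ T, (S z y ↔ S x y)}, fun _ _ _ => Iff.rfl⟩
  obtain ⟨A, hA⟩ : ∃ A : V → Set ℕ, ∀ x n, n ∈ A x ↔ ∃ T : Finset V, ¬ Rk S Set.univ (n + 1) (cls x T) :=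
    ⟨fun x => {n | ∃ T : Finset V, ¬ Rk S Set.univ (n + 1) (cls x T)}, fun _ _ => Iff.rfl⟩
  have hne : ∀ x, (A x).Nonempty := fun x => ⟨N, (hA x N).2 ⟨∅, fun h =>
    hN (rk_mono N (Set.subset_univ _) (rk_pred N h))⟩⟩
  -- lower bound for refined classes
  have hlow : ∀ x T, Rk S Set.univ (sInf (A x)) (cls x T) := by
    intro x T
    rcases Nat.eq_zero_or_pos (sInf (A x)) with h0 | hpos
    · rw [h0]
      exact ⟨x, (hcls x T x).2 (fun y _ => Iff.rfl)⟩
    · obtain ⟨k, hk⟩ : ∃ k, sInf (A x) = k + 1 := ⟨sInf (A x) - 1, by omega⟩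
      rw [hk]
      by_contra hcon
      have h1 : k ∈ A x := (hA x k).2 ⟨T, hcon⟩
      have h2 := Nat.sInf_le h1
      omega
  refine ⟨fun x => sInf (A x), fun x => ?_⟩
  obtain ⟨T, hT⟩ := (hA x _).1 (Nat.sInf_mem (hne x))
  refine ⟨T, fun z hz => ?_⟩
  have hclseq : cls z T = cls x T := by
    ext w
    rw [hcls, hcls]
    exact ⟨fun h y hy => (h y hy).trans (hz y hy), fun h y hy => (h y hy).trans (hz y hy).symm⟩
  refine ⟨Nat.sInf_le ((hA z _).2 ⟨T, by rw [hclseq]; exact hT⟩), fun heq y => ?_⟩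
  by_contra hcon
  have hx := hlow x (insert y T)
  have hzz := hlow z (insert y T)
  simp only at heq
  rw [heq] at hzz
  apply hT
  by_cases hxy : S x y
  · have hzy : ¬ S z y := fun h => hcon ⟨fun _ => hxy, fun _ => h⟩
    refine ⟨y, Set.mem_univ y, rk_mono _ (fun w hw => ?_) hx, rk_mono _ (fun w hw => ?_) hzz⟩
    · rw [hcls] at hw
      exact ⟨(hcls _ _ _).2 (fun u hu => hw u (Finset.mem_insert_of_mem hu)),
        (hw y (Finset.mem_insert_self _ _)).2 hxy⟩
    · rw [hcls] at hw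
      refine ⟨(hcls _ _ _).2 (fun u hu => (hw u (Finset.mem_insert_of_mem hu)).trans (hz u hu)), ?_⟩
      exact fun h => hzy ((hw y (Finset.mem_insert_self _ _)).1 h)
  · have hzy : S z y := by
      by_contra h
      exact hcon ⟨fun h1 => absurd h1 h, fun h1 => absurd h1 hxy⟩
    refine ⟨y, Set.mem_univ y, rk_mono _ (fun w hw => ?_) hzz, rk_mono _ (fun w hw => ?_) hx⟩
    · rw [hcls] at hw
      exact ⟨(hcls _ _ _).2 (fun u hu => (hw u (Finset.mem_insert_of_mem hu)).trans (hz u hu)),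
        (hw y (Finset.mem_insert_self _ _)).2 hzy⟩
    · rw [hcls] at hw
      refine ⟨(hcls _ _ _).2 (fun u hu => hw u (Finset.mem_insert_of_mem hu)), ?_⟩
      exact fun h => hxy ((hw y (Finset.mem_insert_self _ _)).1 h)

end Pool.Agent.Lib.MP_4fb322_lc_h91s
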