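import Mathlib
import Pool.Agent.Lib.MP_4fb322_lc_h91s.SDefs

set_option autoImplicit false

/-!
# Row S09

Generic points have exactly invariant rows. PROOF. Let `T` be the finite set for `x`: by hinv and Filter.eventually_all_finset almost
all `f` satisfy `∀ y ∈ T, (S (f x) y ↔ S x y)`, so `α (f x) ≤ α x` for almost all `f`; hence there is `n` with `∀ᶠ f in u, α (f x) = n`
(finitely many values in an ultrafilter). By hid applied to `p f := α (f x) = n`: `∀ᶠ f, ∀ᶠ g, α (g (f x)) = n`. So almost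
all `f` satisfy: `α (f x) = n` and `∀ᶠ g, α (g (f x)) = n`. Fix such `f`, `z = f x`, and the finite set `T` for `z`: almost all `g` agree
on `T` (hinv for `z`) and have `α (g z) = n = α z`, so `∀ y, (S (g z) y ↔ S z y)`. (About 40 lines.)
-/

namespace Pool.Agent.Lib.MP_4fb322_lc_h91s

open Set Pool.Agent.Lib.MP_4fb322_lc_h70 Pool.Agent.Lib.MP_4fb322_lc_h91
open Pool.Agent.Lib.MP_4fb322_lc_h21 Pool.Agent.Lib.MP_4fb322_lc_h91x

variable {I : Type} {ar : I → ℕ} {V W C : Type}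

theorem exact_of_rank {u : Ultrafilter (V → V)}
    (hid : ∀ p : (V → V) → Prop, (∀ᶠ f in (u : Filter (V → V)), p f) ↔
      ∀ᶠ f in (u : Filter (V → V)), ∀ᶠ g in (u : Filter (V → V)), p (fun x => g (f x)))
    {S : V → V → Prop} {α : V → ℕ}
    (hα : ∀ x, ∃ T : Finset V, ∀ z, (∀ y ∈ T, (S z y ↔ S x y)) →
      α z ≤ α x ∧ (α z = α x → ∀ y, (S z y ↔ S x y)))
    (hinv : ∀ x y, ∀ᶠ g in (u : Filter (V → V)), (S (g x) y ↔ S x y)) (x : V) :
    ∀ᶠ f in (u : Filter (V → V)), ∀ᶠ g in (u : Filter (V → V)),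
      ∀ y, (S (g (f x)) y ↔ S (f x) y) := by
  obtain ⟨T, hT⟩ := hα x
  have h1 : ∀ᶠ f in (u : Filter (V → V)), ∀ y ∈ T, (S (f x) y ↔ S x y) := by
    rw [Filter.eventually_all_finset]
    intro y _
    exact hinv x y
  have h2 : ∀ᶠ f in (u : Filter (V → V)), ∃ n : Fin (α x + 1), α (f x) = n.1 := by
    filter_upwards [h1] with f hf
    have := (hT (f x) hf).1
    exact ⟨⟨α (f x), by omega⟩, rfl⟩
  have h3 : ∃ n : ℕ, ∀ᶠ f in (u : Filter (V → V)), α (f x) = n := by
    by_contra hne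
    push Not at hne
    have h4 : ∀ n : Fin (α x + 1), ∀ᶠ f in (u : Filter (V → V)), ¬ α (f x) = n.1 := by
      intro n
      exact hne n.1
    rw [← Filter.eventually_all] at h4
    obtain ⟨f, hf1, n, hf2⟩ := (h4.and h2).exists
    exact hf1 n hf2
  obtain ⟨n, hn⟩ := h3
  have h5 := (hid (fun f => α (f x) = n)).mp hn
  filter_upwards [hn, h5] with f hf1 hf2
  obtain ⟨T', hT'⟩ := hα (f x)
  have h6 : ∀ᶠ g in (u : Filter (V → V)), ∀ y ∈ T', (S (g (f x)) y ↔ S (f x) y) := by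
    rw [Filter.eventually_all_finset]
    intro y _
    exact hinv (f x) y
  filter_upwards [hf2, h6] with g hg1 hg2
  exact (hT' (g (f x)) hg2).2 (by rw [hf1]; exact hg1)

end Pool.Agent.Lib.MP_4fb322_lc_h91s
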