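import Mathlib
import Pool.Agent.Lib.MP_4fb322_lc_h91s.SDefs
import Pool.Agent.Lib.MP_4fb322_lc_h91s.S03
import Pool.Agent.Lib.MP_4fb322_lc_h91s.S05
import Pool.Agent.Lib.MP_4fb322_lc_h91s.S06
import Pool.Agent.Lib.MP_4fb322_lc_h91s.S07
import Pool.Agent.Lib.MP_4fb322_lc_h91s.S08
import Pool.Agent.Lib.MP_4fb322_lc_h91s.S09

set_option autoImplicit false

/-!
# Row S10

Generic points are in `Zs`.
-/

namespace Pool.Agent.Lib.MP_4fb322_lc_h91s

open Set Pool.Agent.Lib.MP_4fb322_lc_h70 Pool.Agent.Lib.MP_4fb322_lc_h91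
open Pool.Agent.Lib.MP_4fb322_lc_h21 Pool.Agent.Lib.MP_4fb322_lc_h91x

variable {I : Type} {ar : I → ℕ} {V W C : Type}

theorem mem_Zs [Finite I] {M : (i : I) → Set (Fin (ar i) → V)} {u : Ultrafilter (V → V)}
    (hu : Gen M u) {t : ℕ}
    (hst : ∀ i, ar i = 2 → NoLadder (fun x y => (pr2 x y : Fin (ar i) → V) ∈ M i) t) (x : V) :
    ∀ᶠ f in (u : Filter (V → V)), f x ∈ Zs M u := by
  have ha : ∀ i, ∀ᶠ f in (u : Filter (V → V)), ∀ᶠ g in (u : Filter (V → V)),
      ∀ y, (Qr M u i (g (f x)) y ↔ Qr M u i (f x) y) := by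
    intro i
    by_cases hi : ar i = 2
    · obtain ⟨N, hN⟩ := no_tall_tree (qr_noLadder (u := u) hi (hst i hi))
      obtain ⟨α, hα⟩ := exists_rank hN
      exact exact_of_rank hu.idem hα (fun x y => qr_left hu i x y) x
    · refine Filter.Eventually.of_forall fun f => Filter.Eventually.of_forall fun g y => ?_
      exact ⟨fun h => absurd h.1 hi, fun h => absurd h.1 hi⟩
  have hb : ∀ i, ∀ᶠ f in (u : Filter (V → V)), ∀ᶠ g in (u : Filter (V → V)),
      ∀ y, (Qr M u i y (g (f x)) ↔ Qr M u i y (f x)) := by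
    intro i
    by_cases hi : ar i = 2
    · obtain ⟨N, hN⟩ := no_tall_tree (noLadder_swap (qr_noLadder (u := u) hi (hst i hi)))
      obtain ⟨α, hα⟩ := exists_rank hN
      exact exact_of_rank hu.idem hα (fun x y => qr_right hu (hst i hi) y x) x
    · refine Filter.Eventually.of_forall fun f => Filter.Eventually.of_forall fun g y => ?_
      exact ⟨fun h => absurd h.1 hi, fun h => absurd h.1 hi⟩
  have hc : ∀ᶠ f in (u : Filter (V → V)), ∀ᶠ g in (u : Filter (V → V)),
      (g (f x) ∈ Pins M ↔ f x ∈ Pins M) := by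
    by_cases h : ∀ᶠ f in (u : Filter (V → V)), f x ∈ Pins M
    · have h2 := (hu.idem (fun f => f x ∈ Pins M)).1 h
      filter_upwards [h, h2] with f hf1 hf2
      filter_upwards [hf2] with g hg
      exact ⟨fun _ => hf1, fun _ => hg⟩
    · have h' : ∀ᶠ f in (u : Filter (V → V)), ¬ f x ∈ Pins M := Ultrafilter.eventually_not.2 h
      have h2 := (hu.idem (fun f => ¬ f x ∈ Pins M)).1 h'
      filter_upwards [h', h2] with f hf1 hf2
      filter_upwards [hf2] with g hg
      exact ⟨fun e => absurd e hg, fun e => absurd e hf1⟩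
  have ha' := Filter.eventually_all.2 ha
  have hb' := Filter.eventually_all.2 hb
  filter_upwards [ha', hb', hc] with f h1 h2 h3
  show ∀ᶠ g in (u : Filter (V → V)), col M u (g (f x)) = col M u (f x)
  have h1' := Filter.eventually_all.2 h1
  have h2' := Filter.eventually_all.2 h2
  filter_upwards [h1', h2', h3] with g k1 k2 k3
  unfold col
  refine Prod.ext ?_ (Prod.ext ?_ ?_)
  · funext i y
    exact propext (k1 i y)
  · funext i y
    exact propext (k2 i y)
  · exact propext k3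

theorem pins_sub_Zs {M : (i : I) → Set (Fin (ar i) → V)} {u : Ultrafilter (V → V)}
    (hu : Gen M u) : Pins M ⊆ Zs M u := by
  intro p hp
  show ∀ᶠ g in (u : Filter (V → V)), col M u (g p) = col M u p
  filter_upwards [pin_fix hu hp] with g hg
  rw [hg]

end Pool.Agent.Lib.MP_4fb322_lc_h91s
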