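import Mathlib
import Pool.Agent.Lib.MP_4fb322_lc_h91s.SDefs
import Pool.Agent.Lib.MP_4fb322_lc_h91s.S03

set_option autoImplicit false

/-!
# Row S11

Exact recognition of colours and pins. PROOF of recog_col. `z ∈ Zs M u`: `∀ᶠ h in u, col (h z) = col z`; by hq with `p f := col M u (f z) = col M u z`:
`∀ᶠ f in q, ∀ᶠ g in v, ∀ᶠ h in u, col (h (g (f z))) = col z`. For every `f`, almost all `g` in `v` have `g (f z) ∈ Zs M u` (hv), i.e.
`∀ᶠ h in u, col (h (g (f z))) = col (g (f z))`. Combine (choose `h`). PROOF of recog_pin. By pin_fix and hq with `p f := f p = p`: `∀ᶠ f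
in q, ∀ᶠ g in v, ∀ᶠ h in u, h (g (f p)) = p`; also `∀ᶠ h in u, h p = p` and `h` is injective on `{p, g (f p)}` (hu.emb), so `g (f p) =
p`. (About 40 lines.)
-/

namespace Pool.Agent.Lib.MP_4fb322_lc_h91s

open Set Pool.Agent.Lib.MP_4fb322_lc_h70 Pool.Agent.Lib.MP_4fb322_lc_h91
open Pool.Agent.Lib.MP_4fb322_lc_h21 Pool.Agent.Lib.MP_4fb322_lc_h91x

variable {I : Type} {ar : I → ℕ} {V W C : Type}

theorem recog_col {M : (i : I) → Set (Fin (ar i) → V)} {u v q : Ultrafilter (V → V)}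
    (hv : ∀ z, ∀ᶠ g in (v : Filter (V → V)), g z ∈ Zs M u)
    (hq : ∀ p : (V → V) → Prop, (∀ᶠ f in (u : Filter (V → V)), p f) ↔
      ∀ᶠ f in (q : Filter (V → V)), ∀ᶠ g in (v : Filter (V → V)),
        ∀ᶠ h in (u : Filter (V → V)), p (fun x => h (g (f x))))
    {z : V} (hz : z ∈ Zs M u) :
    ∀ᶠ f in (q : Filter (V → V)), ∀ᶠ g in (v : Filter (V → V)),
      col M u (g (f z)) = col M u z := by
  have hz' : ∀ᶠ f in (u : Filter (V → V)), col M u (f z) = col M u z := hz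
  have h1 := (hq (fun f => col M u (f z) = col M u z)).1 hz'
  filter_upwards [h1] with f hf
  filter_upwards [hf, hv (f z)] with g hg hg2
  have hg3 : ∀ᶠ h in (u : Filter (V → V)), col M u (h (g (f z))) = col M u (g (f z)) := hg2
  obtain ⟨h, hh1, hh2⟩ := (hg.and hg3).exists
  exact hh2.symm.trans hh1

theorem recog_pin {M : (i : I) → Set (Fin (ar i) → V)} {u v q : Ultrafilter (V → V)}
    (hu : Gen M u)
    (hq : ∀ p : (V → V) → Prop, (∀ᶠ f in (u : Filter (V → V)), p f) ↔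
      ∀ᶠ f in (q : Filter (V → V)), ∀ᶠ g in (v : Filter (V → V)),
        ∀ᶠ h in (u : Filter (V → V)), p (fun x => h (g (f x))))
    {p : V} (hp : p ∈ Pins M) :
    ∀ᶠ f in (q : Filter (V → V)), ∀ᶠ g in (v : Filter (V → V)), g (f p) = p := by
  have hfix := pin_fix hu hp
  have h1 := (hq (fun f => f p = p)).1 hfix
  filter_upwards [h1] with f hf
  filter_upwards [hf] with g hg
  have hemb : ∀ᶠ h in (u : Filter (V → V)), PE M ({p, g (f p)} : Set V) h :=
    hu.emb _ ((Set.finite_singleton _).insert _)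
  obtain ⟨h, ⟨hh1, hh2⟩, hh3⟩ := ((hg.and hfix).and hemb).exists
  exact hh3.1 (by simp) (by simp) (hh1.trans hh2.symm)

end Pool.Agent.Lib.MP_4fb322_lc_h91s
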