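import Mathlib
import Pool.Agent.Lib.MP_4fb322_lc_h91s.SDefs

set_option autoImplicit false

/-!
# Row S12

Elementary facts on the limit structure. PROOFS. not_oneP: arity at most two. If `ar i = 0` or all entries coincide then OneP holds; so there
are indices `0, 1`, `ar i = 2`, `s = pr2 (s 0) (s 1)` (eq_pr2), and if `s 0` is a pin then OneP with `k = pcl (s 1)`, etc. LL_cross:
`pr2 x y` is not OneP (both entries are no pins and the pieces differ), and if `pr2 x y = pr2 x' y'` in `Fin (ar i) → _` with `ar i = 2`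
then `x = x'`, `y = y'`. qc_iff: if `col x' = col x` and `col y' = col y` then `Qr i x' y' ↔ Qr i x y' ↔ Qr i x y` (first and
second components, congrFun). (About 70 lines.)
-/

namespace Pool.Agent.Lib.MP_4fb322_lc_h91s

open Set Pool.Agent.Lib.MP_4fb322_lc_h70 Pool.Agent.Lib.MP_4fb322_lc_h91
open Pool.Agent.Lib.MP_4fb322_lc_h21 Pool.Agent.Lib.MP_4fb322_lc_h91x

variable {I : Type} {ar : I → ℕ} {V W C : Type}

/-- the rule for pairs in different pieces, on colours -/
def QC (M : (i : I) → Set (Fin (ar i) → V)) (u : Ultrafilter (V → V)) (i : I)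
    (c d : Col I V) : Prop :=
  ∃ x y : V, col M u x = c ∧ col M u y = d ∧ Qr M u i x y

theorem qc_iff {M : (i : I) → Set (Fin (ar i) → V)} {u : Ultrafilter (V → V)} (i : I)
    (x y : V) : QC M u i (col M u x) (col M u y) ↔ Qr M u i x y := by
  constructor
  · rintro ⟨x', y', hx, hy, h⟩
    have h1 : Qr M u i x' y' = Qr M u i x y' :=
      congrFun (congrFun (congrArg Prod.fst hx) i) y'
    have h2 : Qr M u i x y' = Qr M u i x y :=
      congrFun (congrFun (congrArg (fun c => c.2.1) hy) i) x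
    rw [h1, h2] at h
    exact h
  · intro h
    exact ⟨x, y, rfl, rfl, h⟩

theorem LL_oneP {M : (i : I) → Set (Fin (ar i) → V)} {u : Ultrafilter (V → V)} {i : I}
    {s : Fin (ar i) → LW M u} (h : OneP s) : s ∈ LL M u i ↔ (fun j => pj (s j)) ∈ M i := by
  constructor
  · rintro (⟨_, h1⟩ | ⟨h1, _⟩)
    · exact h1
    · exact absurd h h1
  · intro h1
    exact Or.inl ⟨h, h1⟩

theorem not_oneP (har : ∀ i, ar i ≤ 2) {M : (i : I) → Set (Fin (ar i) → V)}
    {u : Ultrafilter (V → V)} {i : I} {s : Fin (ar i) → LW M u} (h : ¬ OneP s) :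
    ar i = 2 ∧ ∃ x y : LW M u, s = pr2 x y ∧ x ∉ LP M u ∧ y ∉ LP M u ∧ pcl x ≠ pcl y := by
  have h2 : ar i = 2 := by
    by_contra hne
    have hle := har i
    apply h
    by_cases h0 : ar i = 0
    · exact ⟨0, fun j => absurd j.2 (by omega)⟩
    · have h1 : ar i = 1 := by omega
      refine ⟨pcl (s ⟨0, by omega⟩), fun j => Or.inr ?_⟩
      have : j = ⟨0, by omega⟩ := Fin.ext (by have := j.2; simp only; omega)
      rw [this]
  refine ⟨h2, s ⟨0, by omega⟩, s ⟨1, by omega⟩, eq_pr2 (har i) s rfl rfl, ?_, ?_, ?_⟩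
  · intro hp
    apply h
    refine ⟨pcl (s ⟨1, by omega⟩), fun j => ?_⟩
    by_cases hj : j.1 = 0
    · have : j = ⟨0, by omega⟩ := Fin.ext hj
      rw [this]
      exact Or.inl hp
    · have : j = ⟨1, by omega⟩ := Fin.ext (by have := j.2; simp only; omega)
      rw [this]
      exact Or.inr rfl
  · intro hp
    apply h
    refine ⟨pcl (s ⟨0, by omega⟩), fun j => ?_⟩
    by_cases hj : j.1 = 0
    · have : j = ⟨0, by omega⟩ := Fin.ext hj
      rw [this]
      exact Or.inr rfl
    · have : j = ⟨1, by omega⟩ := Fin.ext (by have := j.2; simp only; omega)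
      rw [this]
      exact Or.inl hp
  · intro he
    apply h
    refine ⟨pcl (s ⟨0, by omega⟩), fun j => Or.inr ?_⟩
    by_cases hj : j.1 = 0
    · have : j = ⟨0, by omega⟩ := Fin.ext hj
      rw [this]
    · have : j = ⟨1, by omega⟩ := Fin.ext (by have := j.2; simp only; omega)
      rw [this]
      exact he.symm

theorem LL_cross {M : (i : I) → Set (Fin (ar i) → V)} {u : Ultrafilter (V → V)} {i : I}
    (hi : ar i = 2) {x y : LW M u} (hx : x ∉ LP M u) (hy : y ∉ LP M u)
    (h : pcl x ≠ pcl y) :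
    (pr2 x y : Fin (ar i) → LW M u) ∈ LL M u i ↔ Qr M u i (pj x) (pj y) := by
  have e0 : ∀ a b : LW M u, (pr2 a b : Fin (ar i) → LW M u) ⟨0, by omega⟩ = a := fun a b => by
    simp [pr2]
  have e1 : ∀ a b : LW M u, (pr2 a b : Fin (ar i) → LW M u) ⟨1, by omega⟩ = b := fun a b => by
    simp [pr2]
  have hn : ¬ OneP (pr2 x y : Fin (ar i) → LW M u) := by
    rintro ⟨k, hk⟩
    have h0 := hk ⟨0, by omega⟩
    have h1 := hk ⟨1, by omega⟩
    rw [e0] at h0
    rw [e1] at h1
    rcases h0 with h0 | h0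
    · exact hx h0
    · rcases h1 with h1 | h1
      · exact hy h1
      · exact h (h0.trans h1.symm)
  constructor
  · rintro (⟨h1, _⟩ | ⟨_, x', y', he, h1⟩)
    · exact absurd h1 hn
    · have hx' : x = x' := by
        have := congrFun he ⟨0, by omega⟩
        rwa [e0, e0] at this
      have hy' : y = y' := by
        have := congrFun he ⟨1, by omega⟩
        rwa [e1, e1] at this
      rw [hx', hy']
      exact h1
  · intro h1
    exact Or.inr ⟨hn, x, y, rfl, h1⟩

end Pool.Agent.Lib.MP_4fb322_lc_h91s
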