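import Mathlib
import Pool.Agent.Lib.MP_4fb322_lc_h91s.SDefs
import Pool.Agent.Lib.MP_4fb322_lc_h91s.S03
import Pool.Agent.Lib.MP_4fb322_lc_h91s.S05
import Pool.Agent.Lib.MP_4fb322_lc_h91s.S10
import Pool.Agent.Lib.MP_4fb322_lc_h91s.S12

set_option autoImplicit false

/-!
# Row S13

Realisation of finite parts of the limit structure inside `Zs`. PROOF. Let `R = pj '' B` (finite subset of `Zs M u`) and `R' = R \ Pins M`. CLAIM: for
every `n` there is `F : ℕ → V → V` with (1) for `k < n`: `PE M R (F k)`, `F k p = p` for pins `p ∈ R`, `F k x ∈ Zs M u` and `col (F k x) = col x` for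
`x ∈ R`; (2) for `j < k < n`, `x y ∈ R'`: `F j x ≠ F k y` and for all `i` with `ar i = 2`: `pr2 (F j x) (F k y) ∈ M i ↔ Qr i x y`,
`pr2 (F k y) (F j x) ∈ M i ↔ Qr i y x`; (3) for `k < n`, `x y ∈ R'`, `ar i = 2`: `∀ᶠ g in u, (pr2 (F k x) (g y) ∈ M i ↔ Qr i x y) ∧ (pr2 (g y) (F k x) ∈ M
i ↔ Qr i y x)`. Induction: choose `F n := f` in the intersection of finitely many sets of `u`: hu.emb, pin_fix, mem_Zs,
the definition of `Zs` (R ⊆ Zs), (2) for `j < n` from (3) and push_off (`f y ≠ F j x` as `y` is no pin), and (3) for `f`: `∀ᶠ f, ∀ᶠ g, (pr2 (f x) (g y) ∈ M i ↔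
Qr i x y)` by definition of `Qr` (two cases, Ultrafilter.eventually_not), `∀ᶠ f, ∀ᶠ g, (pr2 (g y) (f x) ∈ M i ↔ Qr i y x)` by qr_comm.
All index sets are finite (R' is finite, Finite I, `j < n`): Filter.eventually_all_finite etc. Take `n` larger than all `pcl b`,
`b ∈ B`, and `ι b = F (pcl b) (pj b)` (for pins this is `pj b`; pins have piece `0 < n`). Injectivity on `B`: same piece: PE; a pin
and a non-pin: PE of one `F k` (it fixes the pin); different pieces: (2); two vertices with equal `pj` and `pcl` are equal (Subtype.ext, Prod.ext).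
Relations: if OneP with piece `k` (all entries pins or in piece `k`) then `ι ∘ s = F k ∘ (pj ∘ s)` (any `k < n`; if all entries are pins use `k = 0`) and LL_oneP;
otherwise not_oneP and LL_cross, and (2) (in one order or the other). (About 180 lines.)
-/

namespace Pool.Agent.Lib.MP_4fb322_lc_h91s

open Set Pool.Agent.Lib.MP_4fb322_lc_h70 Pool.Agent.Lib.MP_4fb322_lc_h91
open Pool.Agent.Lib.MP_4fb322_lc_h21 Pool.Agent.Lib.MP_4fb322_lc_h91x

variable {I : Type} {ar : I → ℕ} {V W C : Type}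

/-- the properties of a single function -/
private def rzG (M : (i : I) → Set (Fin (ar i) → V)) (u : Ultrafilter (V → V)) (R : Set V)
    (f : V → V) : Prop :=
  PE M R f ∧ (∀ p ∈ R, p ∈ Pins M → f p = p) ∧
    (∀ x ∈ R, f x ∈ Zs M u ∧ col M u (f x) = col M u x) ∧
    ∀ x ∈ R \ Pins M, ∀ y ∈ R \ Pins M, ∀ i, ar i = 2 → ∀ᶠ g in (u : Filter (V → V)),
      ((pr2 (f x) (g y) : Fin (ar i) → V) ∈ M i ↔ Qr M u i x y) ∧
      ((pr2 (g y) (f x) : Fin (ar i) → V) ∈ M i ↔ Qr M u i y x)

/-- the properties of a pair of functions -/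
private def rzR (M : (i : I) → Set (Fin (ar i) → V)) (u : Ultrafilter (V → V)) (R : Set V)
    (f g : V → V) : Prop :=
  ∀ x ∈ R \ Pins M, ∀ y ∈ R \ Pins M, g y ≠ f x ∧ ∀ i, ar i = 2 →
      ((pr2 (f x) (g y) : Fin (ar i) → V) ∈ M i ↔ Qr M u i x y) ∧
      ((pr2 (g y) (f x) : Fin (ar i) → V) ∈ M i ↔ Qr M u i y x)

private theorem rzG_ev [Finite I] {M : (i : I) → Set (Fin (ar i) → V)}
    {u : Ultrafilter (V → V)} (hu : Gen M u) {t : ℕ}
    (hst : ∀ i, ar i = 2 → NoLadder (fun x y => (pr2 x y : Fin (ar i) → V) ∈ M i) t)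
    {R : Set V} (hR : R.Finite) (hZ : R ⊆ Zs M u) :
    ∀ᶠ f in (u : Filter (V → V)), rzG M u R f := by
  refine Filter.Eventually.and (hu.emb R hR) (Filter.Eventually.and ?_
    (Filter.Eventually.and ?_ ?_))
  · refine (Filter.eventually_all_finite hR).mpr fun p _ => ?_
    exact Filter.eventually_imp_distrib_left.mpr fun hp => pin_fix hu hp
  · refine (Filter.eventually_all_finite hR).mpr fun x hx => ?_
    exact (mem_Zs hu hst x).and (hZ hx)
  · have hR' : (R \ Pins M).Finite := hR.subset Set.sdiff_subset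
    refine (Filter.eventually_all_finite hR').mpr fun x _ => ?_
    refine (Filter.eventually_all_finite hR').mpr fun y _ => ?_
    refine Filter.eventually_all.mpr fun i => ?_
    refine Filter.eventually_imp_distrib_left.mpr fun hi => ?_
    have h1 : ∀ᶠ f in (u : Filter (V → V)), ∀ᶠ g in (u : Filter (V → V)),
        ((pr2 (f x) (g y) : Fin (ar i) → V) ∈ M i ↔ Qr M u i x y) := by
      by_cases h : Qr M u i x y
      · simp only [h, iff_true]
        exact h.2
      · simp only [h, iff_false]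
        have h2 : ¬ ∀ᶠ f in (u : Filter (V → V)), ∀ᶠ g in (u : Filter (V → V)),
            (pr2 (f x) (g y) : Fin (ar i) → V) ∈ M i := fun h' => h ⟨hi, h'⟩
        rw [← Ultrafilter.eventually_not] at h2
        exact h2.mono fun f hf => Ultrafilter.eventually_not.mpr hf
    have h3 : ∀ᶠ f in (u : Filter (V → V)), ∀ᶠ g in (u : Filter (V → V)),
        ((pr2 (g y) (f x) : Fin (ar i) → V) ∈ M i ↔ Qr M u i y x) := by
      by_cases h : Qr M u i y x
      · simp only [h, iff_true]
        exact ((qr_comm (hst i hi) y x).mp h).2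
      · simp only [h, iff_false]
        have h2 : ¬ ∀ᶠ f in (u : Filter (V → V)), ∀ᶠ g in (u : Filter (V → V)),
            (pr2 (g y) (f x) : Fin (ar i) → V) ∈ M i :=
          fun h' => h ((qr_comm (hst i hi) y x).mpr ⟨hi, h'⟩)
        rw [← Ultrafilter.eventually_not] at h2
        exact h2.mono fun f hf => Ultrafilter.eventually_not.mpr hf
    filter_upwards [h1, h3] with f hf1 hf2
    exact hf1.and hf2

private theorem rzR_ev [Finite I] {M : (i : I) → Set (Fin (ar i) → V)}
    {u : Ultrafilter (V → V)} (hu : Gen M u)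
    {R : Set V} (hR : R.Finite) {f : V → V} (hf : rzG M u R f) :
    ∀ᶠ g in (u : Filter (V → V)), rzR M u R f g := by
  have hR' : (R \ Pins M).Finite := hR.subset Set.sdiff_subset
  refine (Filter.eventually_all_finite hR').mpr fun x hx => ?_
  refine (Filter.eventually_all_finite hR').mpr fun y hy => ?_
  refine (push_off hu hy.2 (f x)).and ?_
  refine Filter.eventually_all.mpr fun i => ?_
  exact Filter.eventually_imp_distrib_left.mpr fun hi => hf.2.2.2 x hx y hy i hi

private theorem rz_seq [Finite I] {M : (i : I) → Set (Fin (ar i) → V)}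
    {u : Ultrafilter (V → V)} (hu : Gen M u) {t : ℕ}
    (hst : ∀ i, ar i = 2 → NoLadder (fun x y => (pr2 x y : Fin (ar i) → V) ∈ M i) t)
    {R : Set V} (hR : R.Finite) (hZ : R ⊆ Zs M u) :
    ∃ F : ℕ → V → V, (∀ n, rzG M u R (F n)) ∧ ∀ m n, m < n → rzR M u R (F m) (F n) := by
  refine exists_seq_of_forall_finset_exists (rzG M u R) (rzR M u R) fun s hs => ?_
  have h1 : ∀ᶠ g in (u : Filter (V → V)), ∀ f ∈ s, rzR M u R f g :=
    (Filter.eventually_all_finset s).mpr fun f hf => rzR_ev hu hR (hs f hf)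
  obtain ⟨g, hg1, hg2⟩ := ((rzG_ev hu hst hR hZ).and h1).exists
  exact ⟨g, hg1, hg2⟩

theorem realize [Finite I] (har : ∀ i, ar i ≤ 2) {M : (i : I) → Set (Fin (ar i) → V)}
    {u : Ultrafilter (V → V)} (hu : Gen M u) {t : ℕ}
    (hst : ∀ i, ar i = 2 → NoLadder (fun x y => (pr2 x y : Fin (ar i) → V) ∈ M i) t)
    (B : Set (LW M u)) (hB : B.Finite) :
    ∃ ι : LW M u → V, PX (LL M u) M B ι ∧ (∀ b ∈ B, b ∈ LP M u → ι b = pj b) ∧
      ∀ b ∈ B, col M u (ι b) = col M u (pj b) ∧ ι b ∈ Zs M u := by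
  have hR : (pj '' B : Set V).Finite := hB.image _
  have hZ : (pj '' B : Set V) ⊆ Zs M u := by
    rintro _ ⟨b, _, rfl⟩
    exact b.2.1
  obtain ⟨F, hF1, hF2⟩ := rz_seq hu hst hR hZ
  have hmem : ∀ b ∈ B, pj b ∈ (pj '' B : Set V) := fun b hb => ⟨b, hb, rfl⟩
  have hpin : ∀ b ∈ B, b ∈ LP M u → ∀ k, F k (pj b) = pj b := fun b hb hp k =>
    (hF1 k).2.1 _ (hmem b hb) hp
  have hext : ∀ b b' : LW M u, pj b = pj b' → pcl b = pcl b' → b = b' := by
    intro b b' h1 h2
    exact Subtype.ext (Prod.ext h1 h2)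
  refine ⟨fun b => F (pcl b) (pj b), ⟨?_, ?_⟩, fun b hb hp => hpin b hb hp _, fun b hb => ?_⟩
  · intro b hb b' hb' h
    simp only at h
    by_cases hp : b ∈ LP M u
    · have h1 : F (pcl b') (pj b) = F (pcl b') (pj b') := by
        rw [hpin b hb hp, ← h, hpin b hb hp]
      have h2 := (hF1 (pcl b')).1.1 (hmem b hb) (hmem b' hb') h1
      have hp' : b' ∈ LP M u := by
        show pj b' ∈ Pins M
        rw [← h2]; exact hp
      exact hext b b' h2 (by rw [show pcl b = 0 from b.2.2 hp, show pcl b' = 0 from b'.2.2 hp'])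
    · by_cases hp' : b' ∈ LP M u
      · have h1 : F (pcl b) (pj b) = F (pcl b) (pj b') := by
          rw [hpin b' hb' hp', h, hpin b' hb' hp']
        have h2 := (hF1 (pcl b)).1.1 (hmem b hb) (hmem b' hb') h1
        exact absurd (show pj b ∈ Pins M by rw [h2]; exact hp') hp
      · have hx : pj b ∈ (pj '' B : Set V) \ Pins M := ⟨hmem b hb, hp⟩
        have hy : pj b' ∈ (pj '' B : Set V) \ Pins M := ⟨hmem b' hb', hp'⟩
        rcases lt_trichotomy (pcl b) (pcl b') with h1 | h1 | h1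
        · exact absurd h.symm (hF2 _ _ h1 _ hx _ hy).1
        · rw [← h1] at h
          exact hext b b' ((hF1 (pcl b)).1.1 (hmem b hb) (hmem b' hb') h) h1
        · exact absurd h (hF2 _ _ h1 _ hy _ hx).1
  · intro i s hs
    by_cases hone : OneP s
    · rw [LL_oneP hone]
      obtain ⟨k, hk⟩ := hone
      have h1 := (hF1 k).1.2 i (fun j => pj (s j)) (fun j => hmem _ (hs j))
      rw [h1]
      have h2 : (F k ∘ fun j => pj (s j)) = (fun b => F (pcl b) (pj b)) ∘ s := by
        funext j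
        simp only [Function.comp_apply]
        rcases hk j with h | h
        · rw [hpin (s j) (hs j) h, hpin (s j) (hs j) h]
        · rw [h]
      rw [h2]
    · obtain ⟨hi, x, y, hsxy, hx, hy, hxy⟩ := not_oneP har hone
      have hxB : x ∈ B := by
        have := hs ⟨0, by omega⟩
        rw [hsxy] at this
        simpa [pr2] using this
      have hyB : y ∈ B := by
        have := hs ⟨1, by omega⟩
        rw [hsxy] at this
        simpa [pr2] using this
      rw [hsxy, LL_cross hi hx hy hxy, pr2_comp]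
      have hx' : pj x ∈ (pj '' B : Set V) \ Pins M := ⟨hmem x hxB, hx⟩
      have hy' : pj y ∈ (pj '' B : Set V) \ Pins M := ⟨hmem y hyB, hy⟩
      rcases lt_or_gt_of_ne hxy with h | h
      · exact (((hF2 _ _ h _ hx' _ hy').2 i hi).1).symm
      · exact (((hF2 _ _ h _ hy' _ hx').2 i hi).2).symm
  · obtain ⟨h1, h2⟩ := (hF1 (pcl b)).2.2.1 _ (hmem b hb)
    exact ⟨h2, h1⟩

end Pool.Agent.Lib.MP_4fb322_lc_h91s
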