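import Mathlib
import Pool.Agent.Lib.MP_4fb322_lc_h91s.SDefs
import Pool.Agent.Lib.MP_4fb322_lc_h91s.S02
import Pool.Agent.Lib.MP_4fb322_lc_h91s.S03
import Pool.Agent.Lib.MP_4fb322_lc_h91s.S10
import Pool.Agent.Lib.MP_4fb322_lc_h91s.S11
import Pool.Agent.Lib.MP_4fb322_lc_h91s.S12
import Pool.Agent.Lib.MP_4fb322_lc_h91s.S13

set_option autoImplicit false

/-!
# Row S14

Exact recognition for full sequences in the limit structure. PROOF. Suppose not; then (Ultrafilter.eventually_not) the set of `m` without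
such `h` is in UF; call it `Ω`. For finite `R ⊆ V` let `Φ R G` say: there are `m ∈ Ω`, `h' : V → LW M u`, `ι : LW M u → V` with
`PX M (LL M u) R h'`, `h' x ∈ N m` for `x ∈ R`, `PX (LL M u) M (h' '' R ∪ A) ι`, `ι b = pj b` for pins `b ∈ h' '' R ∪ A`, `col (ι b) = col
(pj b)` and `ι b ∈ Zs` for `b ∈ h' '' R ∪ A`, and `G x = ι (h' x)` for `x ∈ R`. Monotone in `R`. Nonempty for finite `R`: by
mem_Zs and hu.emb there is `f` with `PE M R f`, `f x ∈ Zs M u` for `x ∈ R`; `e x := ⟨(f x, 0), _⟩` gives `PX M (LL M u) R e` (OneP with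
`k = 0`, LL_oneP; extend outside `R` arbitrarily, e.g. classical choice of a default value if `R` is nonempty, `R = ∅` is trivial but needs
a map `V → LW M u`: if LW is empty and V is not, then Zs is empty, impossible by mem_Zs; if V is empty everything is trivial); hN for
`e '' R` gives `m ∈ Ω` and an embedding of `e '' R` in `N m`; `h'` = composition; `ι` from realize. By exists_ultra (S02) get `v` with `∀ᶠ g
in v, Φ R g` for all finite `R`; so `GE M v` (composition of PX's; PX M M is PE) and `g z ∈ Zs` for almost all `g`. Take `q` from `hu.mini v`. Let `ι₀`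
be given by realize for `A`; `A₀ = ι₀ '' A ⊆ Zs`. By recog_col, recog_pin and `GE M q` there is `f` in `q` with PE M A₀ f such that for almost all `g` in `v`: `col (g (f z)) = col
z` for `z ∈ A₀`, `g (f p) = p` for pins `p ∈ A₀`. Choose such `g` with `Φ (f '' A₀) g`, and `m, h', ι` for it. Put `h = h' ∘ f ∘ ι₀` on
`A`: `PE (LL M u) A h` (composition), `h x ∈ N m`, `col (pj (h x)) = col (ι (h x)) = col (g (f (ι₀ x))) = col (ι₀ x) = col (pj x)`. If `x ∈ A` is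
a pin then `ι₀ x = pj x =: p` is a pin, `ι (h x) = g (f p) = p = ι x` (`ι` fixes the pins of `A`), and `ι` is injective on `h' '' (f '' A₀)
∪ A`: `h x = x`. So `m ∈ Ω` has such an `h`: contradiction. (About 180 lines.)
-/

namespace Pool.Agent.Lib.MP_4fb322_lc_h91s

open Set Pool.Agent.Lib.MP_4fb322_lc_h70 Pool.Agent.Lib.MP_4fb322_lc_h91
open Pool.Agent.Lib.MP_4fb322_lc_h21 Pool.Agent.Lib.MP_4fb322_lc_h91x

variable {I : Type} {ar : I → ℕ} {V W C : Type}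

private theorem S14_comp {V₁ V₂ V₃ : Type} {M₁ : (i : I) → Set (Fin (ar i) → V₁)}
    {M₂ : (i : I) → Set (Fin (ar i) → V₂)} {M₃ : (i : I) → Set (Fin (ar i) → V₃)}
    {Y : Set V₁} {Z : Set V₂} {f : V₁ → V₂} {g : V₂ → V₃} (hf : PX M₁ M₂ Y f)
    (hg : PX M₂ M₃ Z g) (h : ∀ y ∈ Y, f y ∈ Z) : PX M₁ M₃ Y (fun x => g (f x)) := by
  refine ⟨fun x hx y hy hxy => hf.1 hx hy (hg.1 (h x hx) (h y hy) hxy), fun i s hs => ?_⟩
  rw [hf.2 i s hs, hg.2 i (f ∘ s) fun j => h _ (hs j)]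
  rfl

private theorem S14_mono {V₁ V₂ : Type} {M₁ : (i : I) → Set (Fin (ar i) → V₁)}
    {M₂ : (i : I) → Set (Fin (ar i) → V₂)}
    {Y Y' : Set V₁} {f : V₁ → V₂} (hf : PX M₁ M₂ Y f) (h : Y' ⊆ Y) : PX M₁ M₂ Y' f :=
  ⟨hf.1.mono h, fun i s hs => hf.2 i s fun j => h (hs j)⟩

private theorem S14_congr {V₁ V₂ : Type} {M₁ : (i : I) → Set (Fin (ar i) → V₁)}
    {M₂ : (i : I) → Set (Fin (ar i) → V₂)}
    {Y : Set V₁} {f g : V₁ → V₂} (hf : PX M₁ M₂ Y f) (h : ∀ y ∈ Y, g y = f y) :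
    PX M₁ M₂ Y g := by
  refine ⟨fun x hx y hy hxy => hf.1 hx hy (by rw [← h x hx, ← h y hy, hxy]), fun i s hs => ?_⟩
  rw [hf.2 i s hs]
  have : f ∘ s = g ∘ s := by
    funext j
    exact (h _ (hs j)).symm
  rw [this]

/-- the limit of the realisations of copies in the `N m`, `m ∈ Ω` -/
private def S14_Phi (M : (i : I) → Set (Fin (ar i) → V)) (u : Ultrafilter (V → V)) (Ω : Set ℕ)
    (N : ℕ → Set (LW M u)) (A : Set (LW M u)) (R : Set V) (G : V → V) : Prop :=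
  ∃ m ∈ Ω, ∃ (h' : V → LW M u) (ι : LW M u → V), PX M (LL M u) R h' ∧ (∀ x ∈ R, h' x ∈ N m) ∧
    PX (LL M u) M (h' '' R ∪ A) ι ∧ (∀ b ∈ h' '' R ∪ A, b ∈ LP M u → ι b = pj b) ∧
    (∀ b ∈ h' '' R ∪ A, col M u (ι b) = col M u (pj b) ∧ ι b ∈ Zs M u) ∧
    ∀ x ∈ R, G x = ι (h' x)

private theorem S14_Phi_mono {M : (i : I) → Set (Fin (ar i) → V)} {u : Ultrafilter (V → V)}
    {Ω : Set ℕ} {N : ℕ → Set (LW M u)} {A : Set (LW M u)} {R R' : Set V} (hR : R ⊆ R')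
    {G : V → V} (h : S14_Phi M u Ω N A R' G) : S14_Phi M u Ω N A R G := by
  obtain ⟨m, hm, h', ι, h1, h2, h3, h4, h5, h6⟩ := h
  have hs : h' '' R ∪ A ⊆ h' '' R' ∪ A :=
    Set.union_subset_union_left _ (Set.image_mono hR)
  exact ⟨m, hm, h', ι, S14_mono h1 hR, fun x hx => h2 x (hR hx), S14_mono h3 hs,
    fun b hb => h4 b (hs hb), fun b hb => h5 b (hs hb), fun x hx => h6 x (hR hx)⟩

theorem recog [Finite I] (har : ∀ i, ar i ≤ 2) {M : (i : I) → Set (Fin (ar i) → V)}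
    {u : Ultrafilter (V → V)} (hu : Gen M u) {t : ℕ}
    (hst : ∀ i, ar i = 2 → NoLadder (fun x y => (pr2 x y : Fin (ar i) → V) ∈ M i) t)
    (N : ℕ → Set (LW M u))
    (hN : ∀ B : Set (LW M u), B.Finite → ∀ᶠ m in UF, VE (LL M u) B (N m))
    (A : Set (LW M u)) (hA : A.Finite) :
    ∀ᶠ m in UF, ∃ h : LW M u → LW M u, PE (LL M u) A h ∧
      ∀ x ∈ A, h x ∈ N m ∧ (x ∈ LP M u → h x = x) ∧ col M u (pj (h x)) = col M u (pj x) := by
  classical
  rcases isEmpty_or_nonempty (LW M u) with hE | ⟨⟨w₀⟩⟩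
  · exact Filter.Eventually.of_forall fun m => ⟨id, PE_id _, fun x => hE.elim x⟩
  by_contra hno
  rw [uf_not] at hno
  set Ω : Set ℕ := {m | ¬ ∃ h : LW M u → LW M u, PE (LL M u) A h ∧
      ∀ x ∈ A, h x ∈ N m ∧ (x ∈ LP M u → h x = x) ∧ col M u (pj (h x)) = col M u (pj x)}
    with hΩdef
  have hΩ : ∀ᶠ m in UF, m ∈ Ω := hno
  -- nonempty
  have hne : ∀ R : Set V, R.Finite → ∃ G, S14_Phi M u Ω N A R G := by
    intro R hR
    have h1 : ∀ᶠ f in (u : Filter (V → V)), ∀ x ∈ R, f x ∈ Zs M u :=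
      (Filter.eventually_all_finite hR).2 fun x _ => mem_Zs hu hst x
    obtain ⟨f, hf1, hf2⟩ := (h1.and (hu.emb R hR)).exists
    let e : V → LW M u := fun x => if h : f x ∈ Zs M u then ⟨(f x, 0), h, fun _ => rfl⟩ else w₀
    have he : ∀ x ∈ R, pj (e x) = f x ∧ pcl (e x) = 0 := by
      intro x hx
      have : e x = ⟨(f x, 0), hf1 x hx, fun _ => rfl⟩ := dif_pos (hf1 x hx)
      rw [this]
      exact ⟨rfl, rfl⟩
    have hePX : PX M (LL M u) R e := by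
      refine ⟨fun x hx y hy hxy => hf2.1 hx hy ?_, fun i s hs => ?_⟩
      · rw [← (he x hx).1, ← (he y hy).1, hxy]
      · have hone : OneP (e ∘ s) := ⟨0, fun j => Or.inr (he _ (hs j)).2⟩
        rw [LL_oneP hone, hf2.2 i s hs]
        have : (fun j => pj ((e ∘ s) j)) = f ∘ s := by
          funext j
          exact (he _ (hs j)).1
        rw [this]
    obtain ⟨m, hm1, hm2⟩ := (hΩ.and (hN (e '' R) (hR.image e))).exists
    obtain ⟨g, hg1, hg2⟩ := hm2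
    have hPX' : PX M (LL M u) R (fun x => g (e x)) :=
      S14_comp hePX (M₃ := LL M u) hg1 fun y hy => ⟨y, hy, rfl⟩
    obtain ⟨ι, hι1, hι2, hι3⟩ := realize har hu hst ((fun x => g (e x)) '' R ∪ A)
      ((hR.image _).union hA)
    exact ⟨fun x => ι (g (e x)), m, hm1, fun x => g (e x), ι, hPX',
      fun x hx => hg2 _ ⟨x, hx, rfl⟩, hι1, hι2, hι3, fun x _ => rfl⟩
  obtain ⟨v, hv⟩ := exists_ultra (S14_Phi M u Ω N A)
    (fun R R' h f hf => S14_Phi_mono h hf) hne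
  have hGE : GE M v := by
    intro R hR
    filter_upwards [hv R hR] with g hg
    obtain ⟨m, hm, h', ι, h1, h2, h3, h4, h5, h6⟩ := hg
    exact S14_congr (S14_comp h1 (M₃ := M) h3 fun y hy => Or.inl ⟨y, hy, rfl⟩) h6
  have hvZ : ∀ z, ∀ᶠ g in (v : Filter (V → V)), g z ∈ Zs M u := by
    intro z
    filter_upwards [hv {z} (Set.finite_singleton z)] with g hg
    obtain ⟨m, hm, h', ι, h1, h2, h3, h4, h5, h6⟩ := hg
    rw [h6 z rfl]
    exact (h5 _ (Or.inl ⟨z, rfl, rfl⟩)).2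
  obtain ⟨q, hqE, hq⟩ := hu.mini v hGE
  obtain ⟨ι₀, hι1, hι2, hι3⟩ := realize har hu hst A hA
  have hA₀ : (ι₀ '' A).Finite := hA.image _
  have h7 : ∀ᶠ f in (q : Filter (V → V)), ∀ z ∈ ι₀ '' A, ∀ᶠ g in (v : Filter (V → V)),
      col M u (g (f z)) = col M u z ∧ (z ∈ Pins M → g (f z) = z) := by
    refine (Filter.eventually_all_finite hA₀).2 ?_
    rintro z ⟨x, hx, rfl⟩
    have h8 := recog_col hvZ hq (hι3 x hx).2
    by_cases hp : ι₀ x ∈ Pins M
    · filter_upwards [h8, recog_pin hu hq hp] with f hf1 hf2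
      filter_upwards [hf1, hf2] with g hg1 hg2
      exact ⟨hg1, fun _ => hg2⟩
    · filter_upwards [h8] with f hf1
      filter_upwards [hf1] with g hg1
      exact ⟨hg1, fun h => absurd h hp⟩
  obtain ⟨f, hf1, hf2⟩ := (h7.and (hqE _ hA₀)).exists
  have h9 : ∀ᶠ g in (v : Filter (V → V)), ∀ z ∈ ι₀ '' A,
      col M u (g (f z)) = col M u z ∧ (z ∈ Pins M → g (f z) = z) :=
    (Filter.eventually_all_finite hA₀).2 hf1
  obtain ⟨g, hg1, hg2⟩ := (h9.and (hv _ (hA₀.image f))).exists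
  obtain ⟨m, hm, h', ι, k1, k2, k3, k4, k5, k6⟩ := hg2
  apply hm
  have hmem : ∀ x ∈ A, f (ι₀ x) ∈ f '' (ι₀ '' A) := fun x hx => ⟨_, ⟨x, hx, rfl⟩, rfl⟩
  refine ⟨fun x => h' (f (ι₀ x)), ?_, ?_⟩
  · have h10 : PX (LL M u) M A (fun x => f (ι₀ x)) :=
      S14_comp hι1 (M₃ := M) hf2 fun y hy => ⟨y, hy, rfl⟩
    exact S14_comp h10 (M₃ := LL M u) k1 fun y hy => hmem y hy
  · intro x hx
    have hin : h' (f (ι₀ x)) ∈ h' '' (f '' (ι₀ '' A)) ∪ A := Or.inl ⟨_, hmem x hx, rfl⟩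
    have hgx : g (f (ι₀ x)) = ι (h' (f (ι₀ x))) := k6 _ (hmem x hx)
    have hcol := hg1 (ι₀ x) ⟨x, hx, rfl⟩
    refine ⟨k2 _ (hmem x hx), fun hxP => ?_, ?_⟩
    · have e1 : ι₀ x = pj x := hι2 x hx hxP
      have hpin : ι₀ x ∈ Pins M := by rw [e1]; exact hxP
      have e2 := hcol.2 hpin
      rw [hgx] at e2
      have e3 : ι x = pj x := k4 x (Or.inr hx) hxP
      exact k3.1 hin (Or.inr hx) (by rw [e2, e1, e3])
    · rw [← (k5 _ hin).1, ← hgx, hcol.1, (hι3 x hx).1]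

end Pool.Agent.Lib.MP_4fb322_lc_h91s
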