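import Mathlib
import Pool.Agent.Lib.MP_4fb322_lc_h91s.SDefs
import Pool.Agent.Lib.MP_4fb322_lc_h91s.S10
import Pool.Agent.Lib.MP_4fb322_lc_h91s.S12
import Pool.Agent.Lib.MP_4fb322_lc_h91s.S13

set_option autoImplicit false

/-!
# Row S16

The limit structure has the same age. PROOF. (⊆) `A` with `f : Fin n → LW M u`; `B = range f` finite; `ι` from realize; `ι ∘ f` is injective
and preserves the relations (PX). (⊇) `A` with `f : Fin n → V`; by hu.emb and mem_Zs there is `g` with `PE M (range f) g` and `g (f x) ∈ Zs M u` for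
all `x`; take `x ↦ ⟨(g (f x), 0), _⟩`; all tuples are OneP with `k = 0` (LL_oneP). (About 60 lines.)
-/

namespace Pool.Agent.Lib.MP_4fb322_lc_h91s

open Set Pool.Agent.Lib.MP_4fb322_lc_h70 Pool.Agent.Lib.MP_4fb322_lc_h91
open Pool.Agent.Lib.MP_4fb322_lc_h21 Pool.Agent.Lib.MP_4fb322_lc_h91x

variable {I : Type} {ar : I → ℕ} {V W C : Type}

theorem age_LL [Finite I] (har : ∀ i, ar i ≤ 2) {M : (i : I) → Set (Fin (ar i) → V)}
    {u : Ultrafilter (V → V)} (hu : Gen M u) {t : ℕ}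
    (hst : ∀ i, ar i = 2 → NoLadder (fun x y => (pr2 x y : Fin (ar i) → V) ∈ M i) t) :
    ageOn (LL M u) Set.univ = ageOn M Set.univ := by
  ext A
  constructor
  · rintro ⟨f, hfinj, -, hfrel⟩
    obtain ⟨ι, hι, -, -⟩ := realize har hu hst (Set.range f) (Set.finite_range f)
    refine ⟨ι ∘ f, ?_, fun x => Set.mem_univ _, ?_⟩
    · intro x y hxy
      exact hfinj (hι.1 ⟨x, rfl⟩ ⟨y, rfl⟩ hxy)
    · intro i s
      rw [hfrel i s, hι.2 i (f ∘ s) (fun j => ⟨s j, rfl⟩)]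
      rfl
  · rintro ⟨f, hfinj, -, hfrel⟩
    have h1 : ∀ᶠ g in (u : Filter (V → V)), PE M (Set.range f) g :=
      hu.emb (Set.range f) (Set.finite_range f)
    have h2 : ∀ᶠ g in (u : Filter (V → V)), ∀ x : Fin A.1, g (f x) ∈ Zs M u :=
      Filter.eventually_all.2 fun x => mem_Zs hu hst (f x)
    obtain ⟨g, hg1, hg2⟩ := (h1.and h2).exists
    let F : Fin A.1 → LW M u := fun x => ⟨(g (f x), 0), hg2 x, fun _ => rfl⟩
    refine ⟨F, ?_, fun x => Set.mem_univ _, ?_⟩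
    · intro x y hxy
      have hxy' : g (f x) = g (f y) := congrArg (fun v : LW M u => v.1.1) hxy
      exact hfinj (hg1.1 ⟨x, rfl⟩ ⟨y, rfl⟩ hxy')
    · intro i s
      have hone : OneP (F ∘ s) := ⟨0, fun j => Or.inr rfl⟩
      rw [hfrel i s, hg1.2 i (f ∘ s) (fun j => ⟨s j, rfl⟩), LL_oneP hone]
      rfl

end Pool.Agent.Lib.MP_4fb322_lc_h91s
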