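import Mathlib
import Pool.Agent.Lib.MP_4fb322_lc_h91s.SDefs
import Pool.Agent.Lib.MP_4fb322_lc_h91s.S10
import Pool.Agent.Lib.MP_4fb322_lc_h91s.S15

set_option autoImplicit false

/-!
# Row S17

An antichain inside `Zs`, containing all pins eventually. PROOF. From hna: `s : ℕ → Str ar`, `s k ∈ ageOn M univ`, pairwise not
Emb. For every `k`: `f : Fin (s k).1 → V`; as in age_LL choose `g` with `PE M (range f) g`, values in `Zs`; `a k` = image of `g ∘ f` (Finset); then `Emb (s k)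
(indV M (a k))` and `Emb (indV M (a k)) (s k)` (see emb_indV, exists_indV_of_mem, emb_of_VE, VE_of_emb in Lib/MP_4fb322_lc_h70/LocFin), so `VE M (a i) (a j)` gives
`Emb (s i) (s j)`. Pins: if `¬ ∀ᶠ n in UF, p ∈ a n` then `∀ᶠ n in UF, p ∉ a n`, so `∀ᶠ n in UF, ∀ᶠ m in UF, VE M (a n) {p}ᶜ` (identity), and min_seqS
with `N m = {p}ᶜ` gives `VE M Y {p}ᶜ` for all finite `Y` (a constant eventually statement): `p` is no pin. (About 90 lines.)
-/

namespace Pool.Agent.Lib.MP_4fb322_lc_h91s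

open Set Pool.Agent.Lib.MP_4fb322_lc_h70 Pool.Agent.Lib.MP_4fb322_lc_h91
open Pool.Agent.Lib.MP_4fb322_lc_h21 Pool.Agent.Lib.MP_4fb322_lc_h91x

variable {I : Type} {ar : I → ℕ} {V W C : Type}

theorem exists_anti [Finite I] {M : (i : I) → Set (Fin (ar i) → V)}
    {u : Ultrafilter (V → V)} (hu : Gen M u) {t : ℕ}
    (hst : ∀ i, ar i = 2 → NoLadder (fun x y => (pr2 x y : Fin (ar i) → V) ∈ M i) t)
    (hmin : ∀ 𝒞 : Set (Str ar), 𝒞 ⊆ ageOn M Set.univ → IsAge 𝒞 → ¬ NoAntichain 𝒞 →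
      𝒞 = ageOn M Set.univ)
    (hna : ¬ NoAntichain (ageOn M Set.univ)) :
    ∃ a : ℕ → Finset V, (∀ n, (a n : Set V) ⊆ Zs M u) ∧
      (∀ i j, i ≠ j → ¬ VE M (a i : Set V) (a j : Set V)) ∧
      ∀ p ∈ Pins M, ∀ᶠ n in UF, p ∈ a n := by
  classical
  unfold NoAntichain at hna
  rw [not_not] at hna
  obtain ⟨s, hs, hanti⟩ := hna
  have hZ : ∀ k, s k ∈ ageOn M (Zs M u) := by
    intro k
    obtain ⟨Y, -, hY1, -⟩ := exists_indV_of_mem M (hs k)
    have h1 : ∀ᶠ f in (u : Filter (V → V)), PE M (Y : Set V) f :=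
      hu.emb (Y : Set V) Y.finite_toSet
    have h2 : ∀ᶠ f in (u : Filter (V → V)), ∀ y ∈ (Y : Set V), f y ∈ Zs M u :=
      (Filter.eventually_all_finite Y.finite_toSet).2 fun y _ => mem_Zs hu hst y
    obtain ⟨f, hf1, hf2⟩ := (h1.and h2).exists
    exact (ageOn_isAge M (Zs M u)).2.1 _ _ (indV_mem_ageOn M ⟨f, hf1, hf2⟩) hY1
  choose a ha1 ha2 ha3 using fun k => exists_indV_of_mem M (hZ k)
  have hA : ∀ i j, i ≠ j → ¬ VE M (a i : Set V) (a j : Set V) := by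
    intro i j hij h
    exact hanti i j hij ((ha2 i).trans ((emb_of_VE M h).trans (ha3 j)))
  refine ⟨a, ha1, hA, fun p hp => ?_⟩
  by_contra hno
  have h1 : ∀ᶠ n in UF, p ∉ a n := uf_not.1 hno
  apply hp
  intro Y hY
  have h2 : ∀ᶠ n in UF, ∀ᶠ m in UF, VE M (a n : Set V) ((fun _ : ℕ => ({p}ᶜ : Set V)) m) := by
    filter_upwards [h1] with n hn
    refine Filter.Eventually.of_forall fun m => ?_
    refine ⟨id, PE_id _, fun y hy hyp => ?_⟩
    have : y = p := hyp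
    rw [this] at hy
    exact hn hy
  obtain ⟨m, hm⟩ := (min_seqS hmin hA (fun _ => ({p}ᶜ : Set V)) h2 Y hY).exists
  exact hm

end Pool.Agent.Lib.MP_4fb322_lc_h91s
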