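import Mathlib
import Pool.Agent.Lib.MP_4fb322_lc_h91s.SDefs
import Pool.Agent.Lib.MP_4fb322_lc_h91s.S10
import Pool.Agent.Lib.MP_4fb322_lc_h91s.S12
import Pool.Agent.Lib.MP_4fb322_lc_h91s.S14
import Pool.Agent.Lib.MP_4fb322_lc_h91s.S15
import Pool.Agent.Lib.MP_4fb322_lc_h91s.S16
import Pool.Agent.Lib.MP_4fb322_lc_h91s.S17

set_option autoImplicit false

/-!
# Row S18

Assembly of the first half. PROOF. `Q = QC M u`, `sh k v = if pj v ∈ Pins M then v else ⟨(pj v, k), _⟩`, `a` from exists_anti, `X n` = the Finset of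
the vertices `⟨(x, 0), _⟩`, `x ∈ a n \ Pins M` (Set.Finite.toFinset), `U n` = the vertices `⟨(p, 0), _⟩`, `p ∈ a n ∩ Pins M`, `b n = U n ∪ X n` (Finset).
cross: LL_cross, qc_iff. sh_pe: injective on the set (pins are fixed, others go to piece `k` with the same pj); a tuple with entries
pins or non-pins of piece 0 is OneP, its image is OneP (piece `k`) with the same pj's: LL_oneP. sh_pin, sh_np, X_np: by definition.
`b` is an antichain for `VE (LL M u)`: the map `pj` restricted to piece 0 and pins is a `PX` bijection `b n → a n` (OneP, LL_oneP) so `VE (LL M u) (b i) (b j)`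
gives `VE M (a i) (a j)`. full: let `N` be as in the field and `A, T` finite. For almost all `n`, taking `T = U n` in `LE`: for almost all `m` there is `f` with
`PE (U n ∪ X n) f`, identity on `U n`, `X n → N m`; so `VE (LL M u) (b n) (LP M u ∪ N m)`. By min_seqS for the structure `LL M u` (hmin transfers by age_LL), all finite `Y`:
`∀ᶠ m, VE (LL M u) Y (LP M u ∪ N m)`. By recog (with `LP M u ∪ N m`) for the finite set `T ∪ A`: for almost all `m` there is `h`, identity on the pins, colour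
preserving; for `x ∈ A`: `x` is no pin so by the third component of the colour `h x` is no pin and `h x ∈ N m`. anti: suppose `LE (LP M u) (X n) X`; with
`T = U n`: for almost all `m`, `KX (U n) (X n) (X m)`; and for almost all `m`, `U n ⊆ U m` (finitely many pins, exists_anti), `m ≠ n` (uf_ne); so
`VE (LL M u) (b n) (b m)`: contradiction. (About 200 lines.)
-/

namespace Pool.Agent.Lib.MP_4fb322_lc_h91s

open Set Pool.Agent.Lib.MP_4fb322_lc_h70 Pool.Agent.Lib.MP_4fb322_lc_h91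
open Pool.Agent.Lib.MP_4fb322_lc_h21 Pool.Agent.Lib.MP_4fb322_lc_h91x

variable {I : Type} {ar : I → ℕ} {V W C : Type}

/-- the copy of a point in piece 0 -/
private theorem S18_lift {M : (i : I) → Set (Fin (ar i) → V)} {u : Ultrafilter (V → V)} {x : V}
    (hx : x ∈ Zs M u) : ∃ w : LW M u, pj w = x ∧ pcl w = 0 :=
  ⟨⟨(x, 0), hx, fun _ => rfl⟩, rfl, rfl⟩

private theorem S18_inj {M : (i : I) → Set (Fin (ar i) → V)} {u : Ultrafilter (V → V)}
    {v w : LW M u} (h : pj v = pj w) (h' : pcl v = pcl w) : v = w :=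
  Subtype.ext (Prod.ext h h')

open Classical in
/-- the copy map to piece `k` -/
private noncomputable def S18_sh (M : (i : I) → Set (Fin (ar i) → V)) (u : Ultrafilter (V → V))
    (k : ℕ) (v : LW M u) : LW M u :=
  if h : pj v ∈ Pins M then v else ⟨(pj v, k), v.2.1, fun h' => absurd h' h⟩

private theorem S18_sh_pin {M : (i : I) → Set (Fin (ar i) → V)} {u : Ultrafilter (V → V)}
    (k : ℕ) {v : LW M u} (h : v ∈ LP M u) : S18_sh M u k v = v := dif_pos h

private theorem S18_sh_np {M : (i : I) → Set (Fin (ar i) → V)} {u : Ultrafilter (V → V)}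
    (k : ℕ) {v : LW M u} (h : v ∉ LP M u) :
    pj (S18_sh M u k v) = pj v ∧ pcl (S18_sh M u k v) = k := by
  have e : S18_sh M u k v = ⟨(pj v, k), v.2.1, fun h' => absurd h' h⟩ := dif_neg h
  rw [e]
  exact ⟨rfl, rfl⟩

private theorem S18_sh_pj {M : (i : I) → Set (Fin (ar i) → V)} {u : Ultrafilter (V → V)}
    (k : ℕ) (v : LW M u) : pj (S18_sh M u k v) = pj v := by
  by_cases h : v ∈ LP M u
  · rw [S18_sh_pin k h]
  · exact (S18_sh_np k h).1

private theorem S18_sh_pe {M : (i : I) → Set (Fin (ar i) → V)} {u : Ultrafilter (V → V)}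
    (k : ℕ) : PE (LL M u) (LP M u ∪ {x | x ∉ LP M u ∧ pcl x = 0}) (S18_sh M u k) := by
  refine ⟨?_, ?_⟩
  · intro x hx y hy hxy
    have hp : pj x = pj y := by rw [← S18_sh_pj k x, hxy, S18_sh_pj]
    rcases hx with hx | hx
    · have hy' : y ∈ LP M u := by
        show pj y ∈ Pins M
        rw [← hp]; exact hx
      rw [S18_sh_pin k hx, S18_sh_pin k hy'] at hxy
      exact hxy
    · rcases hy with hy | hy
      · exact absurd (show pj x ∈ Pins M by rw [hp]; exact hy) hx.1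
      · exact S18_inj hp (by rw [hx.2, hy.2])
  · intro i s hs
    have h1 : OneP s := ⟨0, fun j => by
      rcases hs j with h | h
      · exact Or.inl h
      · exact Or.inr h.2⟩
    have h2 : OneP (S18_sh M u k ∘ s) := ⟨k, fun j => by
      rcases hs j with h | h
      · left
        show pj (S18_sh M u k (s j)) ∈ Pins M
        rw [S18_sh_pj]; exact h
      · exact Or.inr (S18_sh_np k h.1).2⟩
    rw [LL_oneP h1, LL_oneP h2]
    have : (fun j => pj ((S18_sh M u k ∘ s) j)) = fun j => pj (s j) := by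
      funext j
      exact S18_sh_pj k (s j)
    rw [this]

/-- the copy of a finite set in piece 0 -/
private theorem S18_fin {M : (i : I) → Set (Fin (ar i) → V)} {u : Ultrafilter (V → V)}
    (a : Finset V) : {w : LW M u | pcl w = 0 ∧ pj w ∈ a}.Finite := by
  refine Set.Finite.of_finite_image (f := pj) ?_ ?_
  · refine a.finite_toSet.subset ?_
    rintro _ ⟨w, hw, rfl⟩
    exact hw.2
  · intro v hv w hw h
    exact S18_inj h (by rw [hv.1, hw.1])

private theorem S18_anti {M : (i : I) → Set (Fin (ar i) → V)} {u : Ultrafilter (V → V)}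
    {a a' : Finset V} (ha : (a : Set V) ⊆ Zs M u)
    (h : VE (LL M u) {w : LW M u | pcl w = 0 ∧ pj w ∈ a} {w : LW M u | pcl w = 0 ∧ pj w ∈ a'}) :
    VE M (a : Set V) (a' : Set V) := by
  classical
  obtain ⟨g, hg, hg'⟩ := h
  have hl : ∀ x : V, ∃ w : V → V, x ∈ a → ∃ v : LW M u, pj v = x ∧ pcl v = 0 ∧ w x = pj (g v) := by
    intro x
    by_cases hx : x ∈ a
    · obtain ⟨w, hw1, hw2⟩ := S18_lift (ha hx)
      exact ⟨fun _ => pj (g w), fun _ => ⟨w, hw1, hw2, rfl⟩⟩
    · exact ⟨id, fun h => absurd h hx⟩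
  choose F hF using hl
  have hF' : ∀ x ∈ a, ∃ v : LW M u, pj v = x ∧ pcl v = 0 ∧ F x x = pj (g v) := fun x hx => hF x hx
  refine ⟨fun x => F x x, ⟨?_, ?_⟩, ?_⟩
  · intro x hx y hy hxy
    obtain ⟨v, hv1, hv2, hv3⟩ := hF' x hx
    obtain ⟨w, hw1, hw2, hw3⟩ := hF' y hy
    have hv : v ∈ {w : LW M u | pcl w = 0 ∧ pj w ∈ a} := ⟨hv2, by rw [hv1]; exact hx⟩
    have hw : w ∈ {w : LW M u | pcl w = 0 ∧ pj w ∈ a} := ⟨hw2, by rw [hw1]; exact hy⟩
    have h1 : g v = g w := S18_inj (by rw [← hv3, ← hw3]; exact hxy)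
      (by rw [(hg' v hv).1, (hg' w hw).1])
    rw [← hv1, ← hw1, hg.1 hv hw h1]
  · intro i s hs
    have h1 : ∀ j, ∃ v : LW M u, pj v = s j ∧ pcl v = 0 ∧ F (s j) (s j) = pj (g v) :=
      fun j => hF' _ (hs j)
    choose z hz1 hz2 hz3 using h1
    have hz : ∀ j, z j ∈ {w : LW M u | pcl w = 0 ∧ pj w ∈ a} :=
      fun j => ⟨hz2 j, by rw [hz1]; exact hs j⟩
    have e1 : s = fun j => pj (z j) := by funext j; exact (hz1 j).symm
    have e2 : ((fun x => F x x) ∘ s) = fun j => pj ((g ∘ z) j) := by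
      funext j; exact hz3 j
    have o1 : OneP z := ⟨0, fun j => Or.inr (hz2 j)⟩
    have o2 : OneP (g ∘ z) := ⟨0, fun j => Or.inr (hg' _ (hz j)).1⟩
    rw [e2, ← LL_oneP o2, ← hg.2 i z hz, LL_oneP o1, ← e1]
  · intro x hx
    obtain ⟨v, hv1, hv2, hv3⟩ := hF' x hx
    have hv : v ∈ {w : LW M u | pcl w = 0 ∧ pj w ∈ a} := ⟨hv2, by rw [hv1]; exact hx⟩
    show F x x ∈ (a' : Set V)
    rw [hv3]
    exact (hg' v hv).2

theorem exists_sy [Finite I] (har : ∀ i, ar i ≤ 2) {M : (i : I) → Set (Fin (ar i) → V)}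
    {u : Ultrafilter (V → V)} (hu : Gen M u) {t : ℕ}
    (hst : ∀ i, ar i = 2 → NoLadder (fun x y => (pr2 x y : Fin (ar i) → V) ∈ M i) t)
    (hmin : ∀ 𝒞 : Set (Str ar), 𝒞 ⊆ ageOn M Set.univ → IsAge 𝒞 → ¬ NoAntichain 𝒞 →
      𝒞 = ageOn M Set.univ)
    (hna : ¬ NoAntichain (ageOn M Set.univ)) :
    ∃ (Q : I → Col I V → Col I V → Prop) (sh : ℕ → LW M u → LW M u)
      (X : ℕ → Finset (LW M u)),
      Sy (LL M u) (LP M u) pcl (fun x => col M u (pj x)) Q sh X := by
  classical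
  obtain ⟨a, ha1, ha2, ha3⟩ := exists_anti hu hst hmin hna
  let b : ℕ → Finset (LW M u) := fun n => (S18_fin (M := M) (u := u) (a n)).toFinset
  have hb : ∀ n, (b n : Set (LW M u)) = {w : LW M u | pcl w = 0 ∧ pj w ∈ a n} :=
    fun n => (S18_fin (M := M) (u := u) (a n)).coe_toFinset
  let X : ℕ → Finset (LW M u) := fun n => (b n).filter (fun w => w ∉ LP M u)
  let U : ℕ → Finset (LW M u) := fun n => (b n).filter (fun w => w ∈ LP M u)
  have hmX : ∀ n w, w ∈ X n ↔ (pcl w = 0 ∧ pj w ∈ a n) ∧ w ∉ LP M u := by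
    intro n w
    have h1 : w ∈ b n ↔ pcl w = 0 ∧ pj w ∈ a n := by
      rw [← Finset.mem_coe, hb]; rfl
    rw [← h1]
    exact Finset.mem_filter
  have hmU : ∀ n w, w ∈ U n ↔ (pcl w = 0 ∧ pj w ∈ a n) ∧ w ∈ LP M u := by
    intro n w
    have h1 : w ∈ b n ↔ pcl w = 0 ∧ pj w ∈ a n := by
      rw [← Finset.mem_coe, hb]; rfl
    rw [← h1]
    exact Finset.mem_filter
  have hbUX : ∀ n, ∀ w ∈ (b n : Set (LW M u)), w ∈ (U n : Set (LW M u)) ∪ (X n : Set (LW M u)) := by
    intro n w hw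
    by_cases h : w ∈ LP M u
    · exact Or.inl (Finset.mem_coe.2 (Finset.mem_filter.2 ⟨hw, h⟩))
    · exact Or.inr (Finset.mem_coe.2 (Finset.mem_filter.2 ⟨hw, h⟩))
  have hanti : ∀ i j, i ≠ j → ¬ VE (LL M u) (b i : Set (LW M u)) (b j : Set (LW M u)) := by
    intro i j hij h
    rw [hb, hb] at h
    exact ha2 i j hij (S18_anti (ha1 i) h)
  have hage := age_LL har hu hst
  have hmin' : ∀ 𝒞 : Set (Str ar), 𝒞 ⊆ ageOn (LL M u) Set.univ → IsAge 𝒞 → ¬ NoAntichain 𝒞 →
      𝒞 = ageOn (LL M u) Set.univ := by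
    rw [hage]; exact hmin
  have hUP : ∀ n, (U n : Set (LW M u)) ⊆ LP M u := fun n w hw => ((hmU n w).1 hw).2
  refine ⟨QC M u, S18_sh M u, X, ?_⟩
  refine ⟨har, ?_, fun k => S18_sh_pe k, fun k x hx => S18_sh_pin k hx, ?_, ?_, ?_, ?_⟩
  · intro i hi x y hx hy hxy
    rw [LL_cross hi hx hy hxy, qc_iff]
  · intro k x hx _
    have h1 := S18_sh_np k hx
    refine ⟨?_, h1.2, ?_⟩
    · show ¬ pj (S18_sh M u k x) ∈ Pins M
      rw [h1.1]; exact hx
    · show col M u (pj (S18_sh M u k x)) = col M u (pj x)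
      rw [h1.1]
  · intro n x hx
    exact ⟨((hmX n x).1 hx).2, ((hmX n x).1 hx).1.1⟩
  · -- full
    intro N hNP hN A hA hAP T hT hTP
    have h1 : ∀ᶠ n in UF, ∀ᶠ m in UF, VE (LL M u) (b n : Set (LW M u)) (LP M u ∪ N m) := by
      filter_upwards [hN] with n hn
      filter_upwards [hn (U n : Set (LW M u)) (U n).finite_toSet (hUP n)] with m hm
      obtain ⟨f, hf1, hf2, hf3⟩ := hm
      refine ⟨f, PE_mono hf1 (hbUX n), ?_⟩
      intro y hy
      rcases hbUX n y hy with h | h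
      · rw [hf2 y h]; exact Or.inl (hUP n h)
      · exact Or.inr (hf3 y h).1
    have h2 : ∀ Y : Set (LW M u), Y.Finite → ∀ᶠ m in UF, VE (LL M u) Y (LP M u ∪ N m) :=
      fun Y hY => min_seqS hmin' hanti (fun m => LP M u ∪ N m) h1 Y hY
    have h3 := recog har hu hst (fun m => LP M u ∪ N m) h2 (T ∪ A) (hT.union hA)
    filter_upwards [h3] with m hm
    obtain ⟨h, hh1, hh2⟩ := hm
    refine ⟨h, hh1, fun x hx => (hh2 x (Or.inl hx)).2.1 (hTP hx), fun y hy => ?_⟩
    have h4 := hh2 y (Or.inr hy)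
    have h5 : (pj (h y) ∈ Pins M) = (pj y ∈ Pins M) := congrArg (fun c => c.2.2) h4.2.2
    refine ⟨?_, h4.2.2⟩
    rcases h4.1 with h6 | h6
    · exfalso
      have h7 : pj (h y) ∈ Pins M := h6
      rw [h5] at h7
      exact hAP hy h7
    · exact h6
  · -- anti
    intro n hn
    have h1 := hn (U n : Set (LW M u)) (U n).finite_toSet (hUP n)
    have h2 : ∀ᶠ m in UF, ∀ w ∈ (U n : Set (LW M u)), w ∈ b m := by
      refine (Filter.eventually_all_finite (U n).finite_toSet).2 fun w hw => ?_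
      have h3 := (hmU n w).1 hw
      filter_upwards [ha3 (pj w) h3.2] with m hm
      rw [← Finset.mem_coe, hb]
      exact ⟨h3.1.1, hm⟩
    obtain ⟨m, ⟨hm1, hm2⟩, hm3⟩ := ((h1.and h2).and (uf_ne n)).exists
    apply hanti n m (Ne.symm hm3)
    obtain ⟨f, hf1, hf2, hf3⟩ := hm1
    refine ⟨f, PE_mono hf1 (hbUX n), ?_⟩
    intro y hy
    rcases hbUX n y hy with h | h
    · rw [hf2 y h]; exact hm2 y h
    · exact (Finset.mem_filter.1 (hf3 y h).1).1

end Pool.Agent.Lib.MP_4fb322_lc_h91s
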