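import Mathlib
import Pool.Agent.Lib.MP_4fb322_lc_h91s.SDefs

set_option autoImplicit false

/-!
# Row S19

Glueing coloured embeddings.
-/

namespace Pool.Agent.Lib.MP_4fb322_lc_h91s

open Set Pool.Agent.Lib.MP_4fb322_lc_h70 Pool.Agent.Lib.MP_4fb322_lc_h91
open Pool.Agent.Lib.MP_4fb322_lc_h21 Pool.Agent.Lib.MP_4fb322_lc_h91x

variable {I : Type} {ar : I → ℕ} {V W C : Type}

private theorem not_adj {M : (i : I) → Set (Fin (ar i) → V)} {κ : V → C}
    {Q : I → C → C → Prop} {x y : V} (h : ¬ AdjQ M κ Q x y) {i : I} (hi : ar i = 2) :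
    ((pr2 x y : Fin (ar i) → V) ∈ M i ↔ Q i (κ x) (κ y)) := by
  by_contra hc
  exact h ⟨i, hi, Or.inl hc⟩

theorem glue_fam (har : ∀ i, ar i ≤ 2) {M : (i : I) → Set (Fin (ar i) → V)} {κ : V → C}
    {Q : I → C → C → Prop} {ι : Type} {T : Set V} {A Y : ι → Set V}
    (hA : ∀ i j, i ≠ j → NA M κ Q (A i) (A j)) (hY : ∀ i j, i ≠ j → NA M κ Q (Y i) (Y j))
    (h : ∀ i, KX M κ T (A i) (Y i)) : KX M κ T (⋃ i, A i) (⋃ i, Y i) := by
  classical
  choose F hF using h
  set f : V → V := fun x => if h : ∃ i, x ∈ A i then F h.choose x else x with hf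
  have huniq : ∀ i j x, x ∈ A i → x ∈ A j → i = j := by
    intro i j x hi hj
    by_contra hne
    exact (hA i j hne x hi x hj).1 rfl
  have hfA : ∀ i, ∀ x ∈ A i, f x = F i x := by
    intro i x hx
    have hex : ∃ i, x ∈ A i := ⟨i, hx⟩
    have h1 : hex.choose = i := huniq _ _ x hex.choose_spec hx
    simp only [hf]
    rw [dif_pos hex, h1]
  have hfT : ∀ x ∈ T, f x = x := by
    intro x hx
    by_cases hex : ∃ i, x ∈ A i
    · obtain ⟨i, hi⟩ := hex
      rw [hfA i x hi, (hF i).2.1 x hx]
    · simp only [hf]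
      rw [dif_neg hex]
  have hfTA : ∀ i, ∀ x ∈ T ∪ A i, f x = F i x := by
    rintro i x (hx | hx)
    · rw [hfT x hx, (hF i).2.1 x hx]
    · exact hfA i x hx
  have hcross : ∀ a b, a ≠ b → ∀ x ∈ A a, ∀ y ∈ A b, f x ≠ f y ∧ ¬ AdjQ M κ Q (f x) (f y) := by
    intro a b hab x hx y hy
    rw [hfA a x hx, hfA b y hy]
    exact hY a b hab _ ((hF a).2.2 x hx).1 _ ((hF b).2.2 y hy).1
  have hcol : ∀ a, ∀ x ∈ A a, κ (f x) = κ x := by
    intro a x hx
    rw [hfA a x hx]
    exact ((hF a).2.2 x hx).2
  have hpair : ∀ a b, a ≠ b → ∀ x ∈ A a, ∀ y ∈ A b, ∀ i, ar i = 2 →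
      ((pr2 x y : Fin (ar i) → V) ∈ M i ↔ (pr2 (f x) (f y) : Fin (ar i) → V) ∈ M i) := by
    intro a b hab x hx y hy i hi
    rw [not_adj (hA a b hab x hx y hy).2 hi, not_adj (hcross a b hab x hx y hy).2 hi,
      hcol a x hx, hcol b y hy]
  refine ⟨f, ⟨?_, ?_⟩, hfT, ?_⟩
  · intro x hx y hy hxy
    rcases hx with hx | hx
    · rcases hy with hy | hy
      · rw [← hfT x hx, ← hfT y hy, hxy]
      · obtain ⟨b, hb⟩ := Set.mem_iUnion.mp hy
        exact (hF b).1.1 (Or.inl hx) (Or.inr hb) (by
          rw [← hfTA b x (Or.inl hx), ← hfTA b y (Or.inr hb), hxy])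
    · obtain ⟨a, ha⟩ := Set.mem_iUnion.mp hx
      rcases hy with hy | hy
      · exact (hF a).1.1 (Or.inr ha) (Or.inl hy) (by
          rw [← hfTA a x (Or.inr ha), ← hfTA a y (Or.inl hy), hxy])
      · obtain ⟨b, hb⟩ := Set.mem_iUnion.mp hy
        by_cases hab : a = b
        · subst hab
          exact (hF a).1.1 (Or.inr ha) (Or.inr hb) (by
            rw [← hfTA a x (Or.inr ha), ← hfTA a y (Or.inr hb), hxy])
        · exact absurd hxy (hcross a b hab x ha y hb).1
  · intro i s hs
    by_cases hT : ∀ j, s j ∈ T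
    · have : f ∘ s = s := by
        funext j
        exact hfT _ (hT j)
      rw [this]
    · push Not at hT
      obtain ⟨j, hj⟩ := hT
      obtain ⟨a, ha⟩ : ∃ a, s j ∈ A a := by
        rcases hs j with h | h
        · exact absurd h hj
        · exact Set.mem_iUnion.mp h
      by_cases hall : ∀ j', s j' ∈ T ∪ A a
      · have : f ∘ s = F a ∘ s := by
          funext j'
          exact hfTA a _ (hall j')
        rw [this]
        exact (hF a).1.2 i s hall
      · push Not at hall
        obtain ⟨j', hj'⟩ := hall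
        obtain ⟨b, hb⟩ : ∃ b, s j' ∈ A b := by
          rcases hs j' with h | h
          · exact absurd (Or.inl h) hj'
          · exact Set.mem_iUnion.mp h
        have hab : a ≠ b := by
          rintro rfl
          exact hj' (Or.inr hb)
        have hjj : j.1 ≠ j'.1 := by
          intro e
          have : j = j' := Fin.ext e
          subst this
          exact hab (huniq _ _ _ ha hb)
        have hi2 : ar i = 2 := by
          have h1 := j.2
          have h2 := j'.2
          have h3 := har i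
          omega
        have h1 := j.2
        have h2 := j'.2
        by_cases hj0 : j.1 = 0
        · have hj1 : j'.1 = 1 := by omega
          have e1 := eq_pr2 (har i) s hj0 hj1
          have e2 := eq_pr2 (har i) (f ∘ s) hj0 hj1
          rw [e2, e1]
          simp only [Function.comp_apply]
          have := hpair a b hab _ ha _ hb i hi2
          rw [← e1]
          rw [e1]
          convert this using 2
          all_goals simp [pr2, hj0, hj1]
        · have hj1 : j.1 = 1 := by omega
          have hj0' : j'.1 = 0 := by omega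
          have e1 := eq_pr2 (har i) s hj0' hj1
          have e2 := eq_pr2 (har i) (f ∘ s) hj0' hj1
          rw [e2, e1]
          simp only [Function.comp_apply]
          have := hpair b a hab.symm _ hb _ ha i hi2
          convert this using 2
          all_goals simp [pr2, hj0', hj1]
  · intro y hy
    obtain ⟨a, ha⟩ := Set.mem_iUnion.mp hy
    rw [hfA a y ha]
    exact ⟨Set.mem_iUnion.mpr ⟨a, ((hF a).2.2 y ha).1⟩, ((hF a).2.2 y ha).2⟩

theorem glue2 (har : ∀ i, ar i ≤ 2) {M : (i : I) → Set (Fin (ar i) → V)} {κ : V → C}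
    {Q : I → C → C → Prop} {T A B Y Z : Set V} (hA : NA M κ Q A B) (hY : NA M κ Q Y Z)
    (h1 : KX M κ T A Y) (h2 : KX M κ T B Z) : KX M κ T (A ∪ B) (Y ∪ Z) := by
  have h := glue_fam har (M := M) (κ := κ) (Q := Q) (ι := Bool) (T := T)
    (A := fun b => cond b A B) (Y := fun b => cond b Y Z) ?_ ?_ ?_
  · have e1 : (⋃ b : Bool, cond b A B) = A ∪ B := (Set.union_eq_iUnion).symm
    have e2 : (⋃ b : Bool, cond b Y Z) = Y ∪ Z := (Set.union_eq_iUnion).symm
    rw [e1, e2] at h
    exact h
  · rintro (_ | _) (_ | _) hne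
    · exact absurd rfl hne
    · exact hA.symm
    · exact hA
    · exact absurd rfl hne
  · rintro (_ | _) (_ | _) hne
    · exact absurd rfl hne
    · exact hY.symm
    · exact hY
    · exact absurd rfl hne
  · rintro (_ | _)
    · exact h2
    · exact h1

end Pool.Agent.Lib.MP_4fb322_lc_h91s
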