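import Mathlib
import Pool.Agent.Lib.MP_4fb322_lc_h91s.SDefs

set_option autoImplicit false

/-!
# Row S20

Components and connected sets for the relation `AdjQ` (symmetric: AdjQ.symm). PROOFS. cmp_spec: Linked.refl, Linked.right; connected: a nonempty subset `R`
of the component closed under adjacency contains with `a` every `b` linked to `a` (walk inside `X`, all its points are in the component).
cmp_eq_or: if `CmpK X x` and `CmpK X y` share a point, or contain adjacent points, then `x, y` are linked and the components are equal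
(Linked.trans, Linked.symm, Linked.single). cmp_na: the same. conn_image: as conn_image in XDefs (use adjQ_map: if `a, b ∈ A` are adjacent then so are their images,
so they are in the same `Y i`; `x₀ ∈ A` with `f x₀ ∈ Y i`; the set of `x ∈ A` with `f x ∈ Y i` is closed under adjacency). conn_cmp: conn_image
applied to the family of components `Y x = CmpK X x`, `x ∈ X`, choosing one representative per component (e.g. index the family by the
set of all sets of the form CmpK X x, as a subtype of Set V), or directly with the closedness argument. (About 110 lines.)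
-/

namespace Pool.Agent.Lib.MP_4fb322_lc_h91s

open Set Pool.Agent.Lib.MP_4fb322_lc_h70 Pool.Agent.Lib.MP_4fb322_lc_h91
open Pool.Agent.Lib.MP_4fb322_lc_h21 Pool.Agent.Lib.MP_4fb322_lc_h91x

variable {I : Type} {ar : I → ℕ} {V W C : Type}

private theorem s20_ext {M : (i : I) → Set (Fin (ar i) → V)} {κ : V → C} {Q : I → C → C → Prop}
    {X : Set V} {x y : V} (h : Linked (AdjQ M κ Q) X x y) :
    CmpK M κ Q X y = CmpK M κ Q X x := by
  have hs : ∀ a b : V, AdjQ M κ Q a b → AdjQ M κ Q b a := fun a b => AdjQ.symm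
  ext z
  exact ⟨fun hz => Linked.trans h hz, fun hz => Linked.trans (Linked.symm hs h) hz⟩

theorem cmp_spec {M : (i : I) → Set (Fin (ar i) → V)} {κ : V → C} {Q : I → C → C → Prop}
    {X : Set V} {x : V} (hx : x ∈ X) : x ∈ CmpK M κ Q X x ∧ CmpK M κ Q X x ⊆ X ∧
      Cn (AdjQ M κ Q) (CmpK M κ Q X x) := by
  have hs : ∀ a b : V, AdjQ M κ Q a b → AdjQ M κ Q b a := fun a b => AdjQ.symm
  refine ⟨Linked.refl hx, fun y hy => Linked.right hy, fun R hR hne hcl => ?_⟩
  refine subset_antisymm hR fun y hy => ?_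
  obtain ⟨r, hr⟩ := hne
  obtain ⟨n, w, hw, hw0, hwn⟩ := Linked.trans (Linked.symm hs (hR hr)) hy
  have key : ∀ i, i ≤ n → w i ∈ R := by
    intro i
    induction i with
    | zero => intro _; rw [hw0]; exact hr
    | succ i ih =>
      intro hi
      have h1 := ih (by omega)
      have h2 : AdjQ M κ Q (w i) (w (i + 1)) := hw.2 i (by omega)
      exact hcl (w i) h1 (w (i + 1)) (Linked.trans (hR h1)
        (Linked.single (hw.1 i (by omega)) (hw.1 (i + 1) hi) h2)) h2
  rw [← hwn]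
  exact key n le_rfl

theorem cmp_eq_or {M : (i : I) → Set (Fin (ar i) → V)} {κ : V → C} {Q : I → C → C → Prop}
    {X : Set V} (x y : V) :
    CmpK M κ Q X x = CmpK M κ Q X y ∨ NA M κ Q (CmpK M κ Q X x) (CmpK M κ Q X y) := by
  have hs : ∀ a b : V, AdjQ M κ Q a b → AdjQ M κ Q b a := fun a b => AdjQ.symm
  by_cases h : ∃ a ∈ CmpK M κ Q X x, ∃ b ∈ CmpK M κ Q X y, a = b ∨ AdjQ M κ Q a b
  · left
    obtain ⟨a, ha, b, hb, hab⟩ := h
    have h1 : Linked (AdjQ M κ Q) X a b := by
      rcases hab with rfl | hab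
      · exact Linked.refl (Linked.right ha)
      · exact Linked.single (Linked.right ha) (Linked.right hb) hab
    exact (s20_ext (Linked.trans ha (Linked.trans h1 (Linked.symm hs hb)))).symm
  · right
    intro a ha b hb
    exact ⟨fun e => h ⟨a, ha, b, hb, Or.inl e⟩, fun e => h ⟨a, ha, b, hb, Or.inr e⟩⟩

theorem cmp_eq_of_mem {M : (i : I) → Set (Fin (ar i) → V)} {κ : V → C}
    {Q : I → C → C → Prop} {X : Set V} {x y : V} (h : y ∈ CmpK M κ Q X x) :
    CmpK M κ Q X y = CmpK M κ Q X x := s20_ext h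

theorem cmp_na {M : (i : I) → Set (Fin (ar i) → V)} {κ : V → C} {Q : I → C → C → Prop}
    {X : Set V} (x : V) : NA M κ Q (CmpK M κ Q X x) (X \ CmpK M κ Q X x) := by
  intro a ha b hb
  refine ⟨fun e => hb.2 (e ▸ ha), fun e => hb.2 ?_⟩
  exact Linked.trans ha (Linked.single (Linked.right ha) hb.1 e)

theorem conn_image {M : (i : I) → Set (Fin (ar i) → V)} {κ : V → C} {Q : I → C → C → Prop}
    {T A X : Set V} (hA : Cn (AdjQ M κ Q) A) (hne : A.Nonempty) {f : V → V}
    (hf : KE M κ T A X f) {ι : Type} (Y : ι → Set V)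
    (hY : ∀ i j, i ≠ j → NA M κ Q (Y i) (Y j)) (hfY : ∀ x ∈ A, ∃ i, f x ∈ Y i) :
    ∃ i, ∀ x ∈ A, f x ∈ Y i := by
  obtain ⟨x₀, hx₀⟩ := hne
  obtain ⟨i, hi⟩ := hfY x₀ hx₀
  refine ⟨i, ?_⟩
  have h1 := hA {x | x ∈ A ∧ f x ∈ Y i} (fun x hx => hx.1) ⟨x₀, hx₀, hi⟩ (by
    rintro x ⟨hx, hxi⟩ y hy hxy
    refine ⟨hy, ?_⟩
    obtain ⟨j, hj⟩ := hfY y hy
    by_cases hij : i = j
    · rw [hij]; exact hj
    · exact absurd ((adjQ_map hf hx hy).2 hxy) (hY i j hij _ hxi _ hj).2)
  intro x hx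
  exact (h1.symm.subset hx).2

theorem conn_cmp {M : (i : I) → Set (Fin (ar i) → V)} {κ : V → C} {Q : I → C → C → Prop}
    {T A X : Set V} (hA : Cn (AdjQ M κ Q) A) (hne : A.Nonempty) {f : V → V}
    (hf : KE M κ T A X f) : ∃ x ∈ X, ∀ y ∈ A, f y ∈ CmpK M κ Q X x := by
  obtain ⟨x₀, hx₀⟩ := hne
  have hfX : ∀ y ∈ A, f y ∈ X := fun y hy => (hf.2.2 y hy).1
  refine ⟨f x₀, hfX x₀ hx₀, ?_⟩
  have h1 := hA {y | y ∈ A ∧ f y ∈ CmpK M κ Q X (f x₀)} (fun x hx => hx.1)
    ⟨x₀, hx₀, Linked.refl (hfX x₀ hx₀)⟩ (by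
      rintro x ⟨hx, hxi⟩ y hy hxy
      exact ⟨hy, Linked.trans hxi
        (Linked.single (hfX x hx) (hfX y hy) ((adjQ_map hf hx hy).2 hxy))⟩)
  intro x hx
  exact (h1.symm.subset hx).2

end Pool.Agent.Lib.MP_4fb322_lc_h91s
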