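import Mathlib
import Pool.Agent.Lib.MP_4fb322_lc_h91s.SDefs
import Pool.Agent.Lib.MP_4fb322_lc_h91s.S20

set_option autoImplicit false

/-!
# Row S21

Connected finite sets embed into almost all `X m` (over all finite sets of pins). PROOF. Suppose not: there is a finite `T ⊆ P` with `¬ ∀ᶠ m,
KX T A (X m)`, so `Ω = {m | ¬ KX T A (X m)} ∈ UF`. Let `N m = ⋃ j ∈ Ω, sh (j + 1) '' X j` (independent of `m`), a subset of `Pᶜ` (sh_image). For
`n ∈ Ω`: `LE (X n) N` holds, by `sh (n + 1)` (kx_sh). So `hS.full` gives `KX T A (N 0)`: some `f`. The sets `Y j = sh (j + 1) '' X j` (j ∈ Ω) are pairwise NA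
(na_sh), so by conn_image `f` maps `A` into one `Y j`, `j ∈ Ω` (index the family by the subtype of `Ω`, or by `ℕ` with `Y j = ∅` for `j ∉ Ω`),
so `KX T A (Y j)` and by kx_sh_inv `KX T A (X j)`: contradiction with `j ∈ Ω`. (About 60 lines.)
-/

namespace Pool.Agent.Lib.MP_4fb322_lc_h91s

open Set Pool.Agent.Lib.MP_4fb322_lc_h70 Pool.Agent.Lib.MP_4fb322_lc_h91
open Pool.Agent.Lib.MP_4fb322_lc_h21 Pool.Agent.Lib.MP_4fb322_lc_h91x

variable {I : Type} {ar : I → ℕ} {V W C : Type}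

theorem conn_le {M : (i : I) → Set (Fin (ar i) → V)} {P : Set V} {pc : V → ℕ} {κ : V → C}
    {Q : I → C → C → Prop} {sh : ℕ → V → V} {X : ℕ → Finset V} (hS : Sy M P pc κ Q sh X)
    {A : Set V} (hAf : A.Finite) (hne : A.Nonempty) (hAP : A ⊆ Pᶜ)
    (hA : Cn (AdjQ M κ Q) A) : LE M κ P A (fun m => (X m : Set V)) := by
  intro T hT hTP
  by_contra hcon
  have hfr : ∃ᶠ m in UF, ¬ KX M κ T A (X m : Set V) := Filter.not_eventually.1 hcon
  have hΩ : ∀ᶠ m in UF, ¬ KX M κ T A (X m : Set V) :=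
    Ultrafilter.frequently_iff_eventually.1 hfr
  set Ω : Set ℕ := {m | ¬ KX M κ T A (X m : Set V)} with hΩd
  have hN : ∀ m : ℕ, (fun _ : ℕ => ⋃ j ∈ Ω, sh (j + 1) '' (X j : Set V)) m ⊆ Pᶜ := by
    intro m y hy
    simp only [Set.mem_iUnion] at hy
    obtain ⟨j, _, hy⟩ := hy
    exact (hS.sh_image (fun x hx => hS.X_np j x hx) (j + 1) y hy).1
  have hfull : ∀ᶠ n in UF, LE M κ P (X n : Set V)
      (fun _ : ℕ => ⋃ j ∈ Ω, sh (j + 1) '' (X j : Set V)) := by
    filter_upwards [hΩ] with n hn T' _ hT'P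
    refine Filter.Eventually.of_forall fun m => ?_
    have h1 : KX M κ T' (X n : Set V) (sh (n + 1) '' (X n : Set V)) :=
      ⟨_, hS.kx_sh (fun x hx => hS.X_np n x hx) hT'P (n + 1)⟩
    refine h1.mono subset_rfl subset_rfl ?_
    exact Set.subset_biUnion_of_mem (u := fun j => sh (j + 1) '' (X j : Set V)) hn
  obtain ⟨m, f, hf⟩ := (hS.full _ hN hfull A hAf hAP T hT hTP).exists
  obtain ⟨⟨j, hj⟩, hfj⟩ := conn_image hA hne hf (ι := {j : ℕ // j ∈ Ω})
    (fun j => sh (j.1 + 1) '' (X j.1 : Set V)) (fun i j hij => hS.na_sh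
      (fun x hx => hS.X_np i.1 x hx) (fun x hx => hS.X_np j.1 x hx)
      (fun e => hij (Subtype.ext (by omega)))) (fun x hx => by
        have := (hf.2.2 x hx).1
        simp only [Set.mem_iUnion] at this
        obtain ⟨j, hj, hy⟩ := this
        exact ⟨⟨j, hj⟩, hy⟩)
  have h2 : KX M κ T A (sh (j + 1) '' (X j : Set V)) :=
    ⟨f, hf.1, hf.2.1, fun y hy => ⟨hfj y hy, (hf.2.2 y hy).2⟩⟩
  exact hj (h2.trans (hS.kx_sh_inv (fun x hx => hS.X_np j x hx) hTP (j + 1)))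

end Pool.Agent.Lib.MP_4fb322_lc_h91s
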