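import Mathlib
import Pool.Agent.Lib.MP_4fb322_lc_h91s.SDefs
import Pool.Agent.Lib.MP_4fb322_lc_h91s.S19
import Pool.Agent.Lib.MP_4fb322_lc_h91s.S20

set_option autoImplicit false

/-!
# Row S22

If `B` embeds into almost all `X m`, but `B ∪ A` does not, then the number of components of `X m` containing a copy of the connected set `A` is bounded.
PROOF. Almost all `m` satisfy: `KX T B (X m)` (some `f`), `KX T A (X m)` and `¬ KX T (B ∪ A) (X m)`. For such `m` let `𝒟 m` be the finite set of all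
components `D` (Finset V) of `X m` with `KX T A D`. `(𝒟 m).card ≤ B.card`: the components meeting `f '' B` are at most `B.card` many
(components are equal or disjoint, cmp_eq_of_mem); if `B.card < (𝒟 m).card` there is `D ∈ 𝒟 m` not meeting `f '' B`, so `f` embeds `B` in `X m \ D`,
`A` embeds in `D`, NA (cmp_na, hNA) and glue2 gives `KX T (B ∪ A) (X m)`: contradiction. `𝒟 m` is nonempty by conn_cmp. By uf_exists (ι =
Fin (B.card + 1)) there is `q` with `(𝒟 m).card = q` for almost all `m`, `0 < q`. For these `m` let `D m` be an enumeration of `𝒟 m` (Finset.equivFinOfCardEq),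
for the other `m` anything. (About 110 lines.)
-/

namespace Pool.Agent.Lib.MP_4fb322_lc_h91s

open Set Pool.Agent.Lib.MP_4fb322_lc_h70 Pool.Agent.Lib.MP_4fb322_lc_h91
open Pool.Agent.Lib.MP_4fb322_lc_h21 Pool.Agent.Lib.MP_4fb322_lc_h91x

variable {I : Type} {ar : I → ℕ} {V W C : Type}

theorem exists_specK (har : ∀ i, ar i ≤ 2) {M : (i : I) → Set (Fin (ar i) → V)} {κ : V → C}
    {Q : I → C → C → Prop} {X : ℕ → Finset V} {T : Set V} {B A : Finset V}
    (hne : A.Nonempty) (hA : Cn (AdjQ M κ Q) (A : Set V))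
    (hNA : NA M κ Q (B : Set V) (A : Set V))
    (hB : ∀ᶠ m in UF, KX M κ T (B : Set V) (X m : Set V))
    (hAm : ∀ᶠ m in UF, KX M κ T (A : Set V) (X m : Set V))
    (hBA : ¬ ∀ᶠ m in UF, KX M κ T ((B : Set V) ∪ (A : Set V)) (X m : Set V)) :
    ∃ (q : ℕ) (D : ℕ → Fin q → Finset V), 0 < q ∧
      ∀ᶠ m in UF, SpecK M κ Q T A (X m) (D m) := by
  classical
  -- components as finsets
  let cf : ℕ → V → Finset V := fun m x =>
    (X m).filter (fun y => y ∈ CmpK M κ Q (X m : Set V) x)
  have hcf : ∀ m, ∀ x ∈ X m, (cf m x : Set V) = CmpK M κ Q (X m : Set V) x := by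
    intro m x hx
    ext y
    rw [Finset.mem_coe, Finset.mem_filter]
    exact ⟨fun h => h.2, fun h => ⟨Finset.mem_coe.1 ((cmp_spec (Finset.mem_coe.2 hx)).2.1 h), h⟩⟩
  let S : ℕ → Finset (Finset V) := fun m =>
    ((X m).image (cf m)).filter (fun K => KX M κ T (A : Set V) (K : Set V))
  have hS : ∀ m K, K ∈ S m ↔ (∃ x ∈ X m, cf m x = K) ∧ KX M κ T (A : Set V) (K : Set V) := by
    intro m K
    rw [Finset.mem_filter, Finset.mem_image]
  -- (1) nonempty
  have hne' : ∀ᶠ m in UF, (S m).Nonempty := by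
    filter_upwards [hAm] with m hm
    obtain ⟨f, hf⟩ := hm
    obtain ⟨x, hx, h1⟩ := conn_cmp hA (Finset.coe_nonempty.2 hne) hf
    refine ⟨cf m x, (hS m _).2 ⟨⟨x, Finset.mem_coe.1 hx, rfl⟩, f, hf.1, hf.2.1, ?_⟩⟩
    intro y hy
    rw [hcf m x (Finset.mem_coe.1 hx)]
    exact ⟨h1 y hy, (hf.2.2 y hy).2⟩
  -- (2) bounded
  have hc : ∀ᶠ m in UF, (S m).card ≤ B.card := by
    rw [uf_not] at hBA
    filter_upwards [hB, hBA] with m hmB hmBA
    obtain ⟨f, hf⟩ := hmB
    have h2 : ∀ K ∈ S m, ∃ y, y ∈ K ∧ y ∈ B.image f := by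
      intro K hK
      by_contra hno
      push Not at hno
      obtain ⟨⟨x, hx, hxK⟩, hKX⟩ := (hS m K).1 hK
      apply hmBA
      have hKc : (K : Set V) = CmpK M κ Q (X m : Set V) x := by rw [← hxK]; exact hcf m x hx
      have hfB : KX M κ T (B : Set V) ((X m : Set V) \ (K : Set V)) := by
        refine ⟨f, hf.1, hf.2.1, fun y hy => ⟨⟨(hf.2.2 y hy).1, fun hyK => ?_⟩, (hf.2.2 y hy).2⟩⟩
        exact hno (f y) (Finset.mem_coe.1 hyK) (Finset.mem_image.2 ⟨y, Finset.mem_coe.1 hy, rfl⟩)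
      have hna : NA M κ Q ((X m : Set V) \ (K : Set V)) (K : Set V) := by
        rw [hKc]; exact (cmp_na x).symm
      have h3 := glue2 har hNA hna hfB hKX
      refine h3.mono subset_rfl subset_rfl ?_
      rintro y (hy | hy)
      · exact hy.1
      · rw [hKc] at hy
        exact (cmp_spec (Finset.mem_coe.2 hx)).2.1 hy
    have : Nonempty V := ⟨hne.choose⟩
    choose! g hg1 hg2 using h2
    have h3 : (S m).card ≤ (B.image f).card := by
      apply Finset.card_le_card_of_injOn g
      · intro K hK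
        exact hg2 K (Finset.mem_coe.1 hK)
      · intro K hK L hL hKL
        obtain ⟨⟨x, hx, rfl⟩, -⟩ := (hS m _).1 (Finset.mem_coe.1 hK)
        obtain ⟨⟨y, hy, rfl⟩, -⟩ := (hS m _).1 (Finset.mem_coe.1 hL)
        have h4 : g (cf m x) ∈ CmpK M κ Q (X m : Set V) x := by
          rw [← hcf m x hx]
          exact hg1 _ (Finset.mem_coe.1 hK)
        have h5 : g (cf m y) ∈ CmpK M κ Q (X m : Set V) y := by
          rw [← hcf m y hy]
          exact hg1 _ (Finset.mem_coe.1 hL)
        rw [← hKL] at h5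
        have h6 := cmp_eq_of_mem h4
        have h7 := cmp_eq_of_mem h5
        apply Finset.coe_injective
        rw [hcf m x hx, hcf m y hy, ← h6, ← h7]
    exact h3.trans Finset.card_image_le
  -- (3) one cardinality
  obtain ⟨q, hq⟩ : ∃ q : ℕ, ∀ᶠ m in UF, (S m).card = q := by
    have h1 : ∀ᶠ m in UF, ∃ i : Fin (B.card + 1), (S m).card = i.val := by
      filter_upwards [hc] with m hm
      exact ⟨⟨(S m).card, Nat.lt_succ_of_le hm⟩, rfl⟩
    obtain ⟨i, hi⟩ := uf_exists h1
    exact ⟨i.val, hi⟩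
  refine ⟨q, fun m j => if h : (S m).card = q then
    ((S m).equivFin.symm (Fin.cast h.symm j)).1 else ∅, ?_, ?_⟩
  · obtain ⟨m, hm1, hm2⟩ := (hne'.and hq).exists
    rw [← hm2]
    exact Finset.card_pos.2 hm1
  · filter_upwards [hq] with m hm
    have hD : ∀ j : Fin q, (if h : (S m).card = q then
        ((S m).equivFin.symm (Fin.cast h.symm j)).1 else ∅) =
        ((S m).equivFin.symm (Fin.cast hm.symm j)).1 := fun j => dif_pos hm
    have hmem : ∀ j : Fin q, ((S m).equivFin.symm (Fin.cast hm.symm j)).1 ∈ S m :=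
      fun j => ((S m).equivFin.symm (Fin.cast hm.symm j)).2
    refine ⟨?_, ?_, ?_, ?_⟩
    · intro j
      beta_reduce
      rw [hD j]
      obtain ⟨⟨x, hx, hxK⟩, -⟩ := (hS m _).1 (hmem j)
      refine ⟨x, hx, ?_⟩
      rw [← hxK]
      exact hcf m x hx
    · intro j k hjk
      beta_reduce at hjk
      rw [hD j, hD k] at hjk
      have h1 := (S m).equivFin.symm.injective (Subtype.ext hjk)
      exact Fin.ext (by simpa using congrArg Fin.val h1)
    · intro j
      beta_reduce
      rw [hD j]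
      exact ((hS m _).1 (hmem j)).2
    · intro x hx hRE
      have h1 : cf m x ∈ S m := by
        rw [hS]
        refine ⟨⟨x, hx, rfl⟩, ?_⟩
        rw [hcf m x hx]
        exact hRE
      refine ⟨Fin.cast hm ((S m).equivFin ⟨cf m x, h1⟩), ?_⟩
      beta_reduce
      rw [hD]
      have h2 : Fin.cast hm.symm (Fin.cast hm ((S m).equivFin ⟨cf m x, h1⟩)) =
          (S m).equivFin ⟨cf m x, h1⟩ := Fin.ext rfl
      rw [h2, Equiv.symm_apply_apply]
      exact hcf m x hx

end Pool.Agent.Lib.MP_4fb322_lc_h91s
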