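import Mathlib
import Pool.Agent.Lib.MP_4fb322_lc_h91s.SDefs
import Pool.Agent.Lib.MP_4fb322_lc_h91s.S20
import Pool.Agent.Lib.MP_4fb322_lc_h91s.S21

set_option autoImplicit false

/-!
# Row S23

Every special sequence has an outgoing arrow. PROOF. For almost all `n` (SpecK holds at `n`) `D n l` is a component of `X n`: finite, nonempty, connected
(cmp_spec), outside `P` (X_np), and `KX T A (D n l)`. Fix such `n`. By conn_le: `LE (D n l) X`. For every finite `T'` with `T ⊆ T' ⊆ P`: for almost all `m`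
there is `f : KE T' (D n l) (X m)`, by conn_cmp its image lies in a component `CmpK (X m) x`, and `KX T A (CmpK (X m) x)` (KX.trans after
KX.mono), so by SpecK at `m` there is `l'` with `D m l' = CmpK (X m) x`: `KX T' (D n l) (D m l')`. By uf_exists: for every such
`T'` there is `l'` with `∀ᶠ m, KX T' (D n l) (D m l')`. One `l'` works for all finite `T' ⊆ P`: otherwise choose for every `l'` a finite `T'_{l'} ⊆
P` for which it fails and take the union of all of them and `T` (KX.mono). So for almost all `n` there is `l'` with `LE (D n l) (D · l')`; by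
uf_exists one `l'` for almost all `n`. (About 70 lines.)
-/

namespace Pool.Agent.Lib.MP_4fb322_lc_h91s

open Set Pool.Agent.Lib.MP_4fb322_lc_h70 Pool.Agent.Lib.MP_4fb322_lc_h91
open Pool.Agent.Lib.MP_4fb322_lc_h21 Pool.Agent.Lib.MP_4fb322_lc_h91x

variable {I : Type} {ar : I → ℕ} {V W C : Type}

theorem arr_outK {M : (i : I) → Set (Fin (ar i) → V)} {P : Set V} {pc : V → ℕ} {κ : V → C}
    {Q : I → C → C → Prop} {sh : ℕ → V → V} {X : ℕ → Finset V} (hS : Sy M P pc κ Q sh X)
    {T : Set V} (hT : T.Finite) (hTP : T ⊆ P) {A : Finset V} {q : ℕ}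
    {D : ℕ → Fin q → Finset V} (hD : ∀ᶠ m in UF, SpecK M κ Q T A (X m) (D m)) (l : Fin q) :
    ∃ l' : Fin q, ArrK M κ P (fun n => D n l) (fun n => D n l') := by
  suffices hmain : ∀ᶠ n in UF, ∃ l' : Fin q, LE M κ P (D n l : Set V)
      (fun m => (D m l' : Set V)) by
    exact uf_exists hmain
  filter_upwards [hD] with n hn
  obtain ⟨x, hx, hDx⟩ := hn.1 l
  obtain ⟨hxC, hCX, hCn⟩ := cmp_spec (M := M) (κ := κ) (Q := Q) (X := (X n : Set V)) hx
  rw [← hDx] at hxC hCX hCn
  have hKA : KX M κ T (A : Set V) (D n l : Set V) := hn.2.2.1 l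
  have hPc : (D n l : Set V) ⊆ Pᶜ := fun y hy => (hS.X_np n y (hCX hy)).1
  have hLE := conn_le hS (D n l).finite_toSet ⟨x, hxC⟩ hPc hCn
  have claim : ∀ T' : Set V, T'.Finite → T ⊆ T' → T' ⊆ P → ∃ l' : Fin q, ∀ᶠ m in UF,
      KX M κ T' (D n l : Set V) (D m l' : Set V) := by
    intro T' hT' hTT' hTP'
    apply uf_exists
    filter_upwards [hLE T' hT' hTP', hD] with m hm1 hm2
    obtain ⟨f, hf⟩ := hm1
    obtain ⟨z, hz, hzc⟩ := conn_cmp hCn ⟨x, hxC⟩ hf
    have h1 : KX M κ T' (D n l : Set V) (CmpK M κ Q (X m : Set V) z) :=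
      ⟨f, hf.1, hf.2.1, fun y hy => ⟨hzc y hy, (hf.2.2 y hy).2⟩⟩
    have h2 : KX M κ T (A : Set V) (CmpK M κ Q (X m : Set V) z) :=
      hKA.trans (h1.mono hTT' subset_rfl subset_rfl)
    obtain ⟨i, hi⟩ := hm2.2.2.2 z hz h2
    refine ⟨i, ?_⟩
    rw [hi]
    exact h1
  by_contra hne
  have hne' : ∀ l' : Fin q, ∃ T' : Set V, T'.Finite ∧ T' ⊆ P ∧
      ¬ ∀ᶠ m in UF, KX M κ T' (D n l : Set V) (D m l' : Set V) := by
    intro l'
    by_contra hcon
    apply hne
    refine ⟨l', fun T' hT' hTP' => ?_⟩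
    by_contra hcon2
    exact hcon ⟨T', hT', hTP', hcon2⟩
  choose T' hT'f hT'P hT'n using hne'
  obtain ⟨l', hl'⟩ := claim (T ∪ ⋃ j, T' j) (hT.union (Set.finite_iUnion hT'f))
    Set.subset_union_left (Set.union_subset hTP (Set.iUnion_subset hT'P))
  apply hT'n l'
  filter_upwards [hl'] with m hm
  exact hm.mono ((Set.subset_iUnion T' l').trans Set.subset_union_right) subset_rfl subset_rfl

end Pool.Agent.Lib.MP_4fb322_lc_h91s
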