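import Mathlib
import Pool.Agent.Lib.MP_4fb322_lc_h91s.SDefs

set_option autoImplicit false

/-!
# Row S24

Terminal elements (pure combinatorics). PROOF. Among the `b` with `R a b` (there is one) choose one with the smallest number of successors `succ b = {c | R b c}`
(Finset.exists_min_image on Finset.univ.filter, classical). Let `b'` be a successor of `b`. `succ b' ⊆ succ b` by transitivity, `R a b'`, so by
minimality `succ b' = succ b` (cardinalities). `b' ∈ succ b = succ b'`: `R b' b'`. If `R b' c` then `R a c`, `succ c ⊆ succ b'`, so equal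
by minimality again, and `b' ∈ succ b' = succ c`: `R c b'`. So `b'` is as required. (About 40 lines.)
-/

namespace Pool.Agent.Lib.MP_4fb322_lc_h91s

open Set Pool.Agent.Lib.MP_4fb322_lc_h70 Pool.Agent.Lib.MP_4fb322_lc_h91
open Pool.Agent.Lib.MP_4fb322_lc_h21 Pool.Agent.Lib.MP_4fb322_lc_h91x

variable {I : Type} {ar : I → ℕ} {V W C : Type}

theorem exists_terminal {q : ℕ} {R : Fin q → Fin q → Prop}
    (ht : ∀ a b c, R a b → R b c → R a c) (ho : ∀ a, ∃ b, R a b) (a : Fin q) :
    ∃ b, R a b ∧ R b b ∧ ∀ c, R b c → R c b := by
  classical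
  obtain ⟨b0, hb0⟩ := ho a
  obtain ⟨b, hb, hmin⟩ := Finset.exists_min_image (Finset.univ.filter (fun b => R a b))
    (fun b => (Finset.univ.filter (fun c => R b c)).card) ⟨b0, by simp [hb0]⟩
  have hab : R a b := by simpa using hb
  obtain ⟨b', hbb'⟩ := ho b
  have hab' : R a b' := ht a b b' hab hbb'
  have hsub : Finset.univ.filter (fun c => R b' c) ⊆ Finset.univ.filter (fun c => R b c) := by
    intro c hc
    simp only [Finset.mem_filter, Finset.mem_univ, true_and] at hc ⊢
    exact ht b b' c hbb' hc
  have heq : Finset.univ.filter (fun c => R b' c) = Finset.univ.filter (fun c => R b c) :=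
    Finset.eq_of_subset_of_card_le hsub (hmin b' (by simp [hab']))
  have hb'b' : R b' b' := by
    have h1 : b' ∈ Finset.univ.filter (fun c => R b c) := by simp [hbb']
    rw [← heq] at h1
    simpa using h1
  refine ⟨b', hab', hb'b', fun c hc => ?_⟩
  have hac : R a c := ht a b' c hab' hc
  have hsub2 : Finset.univ.filter (fun d => R c d) ⊆ Finset.univ.filter (fun d => R b' d) := by
    intro d hd
    simp only [Finset.mem_filter, Finset.mem_univ, true_and] at hd ⊢
    exact ht b' c d hc hd
  have heq2 : Finset.univ.filter (fun d => R c d) = Finset.univ.filter (fun d => R b' d) := by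
    refine Finset.eq_of_subset_of_card_le hsub2 ?_
    rw [heq]
    exact hmin c (by simp [hac])
  have h2 : b' ∈ Finset.univ.filter (fun d => R b' d) := by simp [hb'b']
  rw [← heq2] at h2
  simpa using h2

end Pool.Agent.Lib.MP_4fb322_lc_h91s
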