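import Mathlib
import Pool.Agent.Lib.MP_4fb322_lc_h91s.SDefs
import Pool.Agent.Lib.MP_4fb322_lc_h91s.S19
import Pool.Agent.Lib.MP_4fb322_lc_h91s.S20

set_option autoImplicit false

/-!
# Row S25

The auxiliary sets are full. `NN m` = `X m` together with a copy (in piece `j + 1`) of `X j` minus the recurrent special components, for `j ∈ Ω`. PROOF. By `hS.full` (NN m ⊆ Pᶜ: X_np,
sh_image) it is enough to show: for almost all `n`, `LE (X n) NN`. Take `n ∈ Ω` with SpecK at `n` and, for every `l` with `ArrK (D · l) (D · l)`, `LE (D n l) (D · l)` (finitely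
many `l`, each holds for almost all `n`). Let `T'` be finite. For almost all `m` (SpecK at `m`) and all recurrent `l`: `KX T' (D n l) (D m l)`. Glue
(glue_fam with index type `Option {l // recurrent}`): `A (some l) = D n l`, `Y (some l) = D m l`, `A none = X n \ ⋃ recurrent D n l`, `Y none = sh
(n + 1) '' A none` (kx_sh). NA for the `A`'s: different `l` give different (D n is injective) components of `X n`, so NA by cmp_eq_or; a component
and the rest: cmp_na. NA for the `Y`'s: different components of `X m` (cmp_eq_or, D m injective); `Y (some l) ⊆ X m` is in piece `0` and `Y none` in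
piece `n + 1` (X_np, sh_image, na_of_pc). `⋃ A = X n`, `⋃ Y ⊆ NN m`. (About 90 lines.)
-/

namespace Pool.Agent.Lib.MP_4fb322_lc_h91s

open Set Pool.Agent.Lib.MP_4fb322_lc_h70 Pool.Agent.Lib.MP_4fb322_lc_h91
open Pool.Agent.Lib.MP_4fb322_lc_h21 Pool.Agent.Lib.MP_4fb322_lc_h91x

variable {I : Type} {ar : I → ℕ} {V W C : Type}

/-- the auxiliary sets -/
def NN (M : (i : I) → Set (Fin (ar i) → V)) (κ : V → C) (P : Set V) (sh : ℕ → V → V)
    (X : ℕ → Finset V) {q : ℕ} (D : ℕ → Fin q → Finset V) (Ω : Set ℕ) (m : ℕ) : Set V :=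
  (X m : Set V) ∪ ⋃ j ∈ Ω, sh (j + 1) '' ((X j : Set V) \
    ⋃ l ∈ {l : Fin q | ArrK M κ P (fun n => D n l) (fun n => D n l)}, (D j l : Set V))

theorem full_NN {M : (i : I) → Set (Fin (ar i) → V)} {P : Set V} {pc : V → ℕ} {κ : V → C}
    {Q : I → C → C → Prop} {sh : ℕ → V → V} {X : ℕ → Finset V} (hS : Sy M P pc κ Q sh X)
    {T : Set V} {A : Finset V} {q : ℕ} {D : ℕ → Fin q → Finset V}
    (hD : ∀ᶠ m in UF, SpecK M κ Q T A (X m) (D m)) {Ω : Set ℕ} (hΩ : Ω ∈ UF)
    {B : Set V} (hB : B.Finite) (hBP : B ⊆ Pᶜ) : LE M κ P B (NN M κ P sh X D Ω) := by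
  classical
  set rec : Set (Fin q) := {l : Fin q | ArrK M κ P (fun n => D n l) (fun n => D n l)} with hrec
  have hsub : ∀ m, NN M κ P sh X D Ω m ⊆ Pᶜ := by
    intro m y hy
    rcases hy with hy | hy
    · exact (hS.X_np m y hy).1
    · simp only [Set.mem_iUnion] at hy
      obtain ⟨j, _, hy⟩ := hy
      exact (hS.sh_image (fun x hx => hS.X_np j x hx.1) (j + 1) y hy).1
  refine hS.full _ hsub ?_ B hB hBP
  have hΩ' : ∀ᶠ n in UF, n ∈ Ω := hΩ
  have hrecn : ∀ᶠ n in UF, ∀ l ∈ rec, LE M κ P (D n l : Set V) (fun m => (D m l : Set V)) := by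
    rw [Filter.eventually_all_finite (Set.toFinite rec)]
    intro l hl
    exact hl
  filter_upwards [hΩ', hD, hrecn] with n hn hDn hrn T' hT' hT'P
  have h1 : ∀ᶠ m in UF, ∀ l ∈ rec, KX M κ T' (D n l : Set V) (D m l : Set V) := by
    rw [Filter.eventually_all_finite (Set.toFinite rec)]
    intro l hl
    exact hrn l hl T' hT' hT'P
  filter_upwards [hD, h1] with m hDm hm
  -- the rest of X n
  set R : Set V := (X n : Set V) \ ⋃ l ∈ rec, (D n l : Set V) with hR
  let A' : Option {l : Fin q // l ∈ rec} → Set V := fun o => match o with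
    | some l => (D n l.1 : Set V)
    | none => R
  let Y' : Option {l : Fin q // l ∈ rec} → Set V := fun o => match o with
    | some l => (D m l.1 : Set V)
    | none => sh (n + 1) '' R
  have hspec : ∀ (k : ℕ), SpecK M κ Q T A (X k) (D k) → ∀ l l' : Fin q, l ≠ l' →
      NA M κ Q (D k l : Set V) (D k l' : Set V) := by
    intro k hk l l' hll
    obtain ⟨x, _, hx⟩ := hk.1 l
    obtain ⟨y, _, hy⟩ := hk.1 l'
    rcases cmp_eq_or (M := M) (κ := κ) (Q := Q) (X := (X k : Set V)) x y with h | h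
    · exfalso
      apply hll
      apply hk.2.1
      apply Finset.coe_injective
      rw [hx, hy, h]
    · rw [hx, hy]
      exact h
  have hDsub : ∀ (k : ℕ), SpecK M κ Q T A (X k) (D k) → ∀ l : Fin q,
      (D k l : Set V) ⊆ (X k : Set V) := by
    intro k hk l
    obtain ⟨x, hx, hxl⟩ := hk.1 l
    rw [hxl]
    exact (cmp_spec (M := M) (κ := κ) (Q := Q) hx).2.1
  have hrest : ∀ l ∈ rec, NA M κ Q (D n l : Set V) R := by
    intro l hl
    obtain ⟨x, _, hx⟩ := hDn.1 l
    have := cmp_na (M := M) (κ := κ) (Q := Q) (X := (X n : Set V)) x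
    rw [← hx] at this
    refine this.mono subset_rfl ?_
    rintro y ⟨hy, hy'⟩
    refine ⟨hy, fun h => hy' ?_⟩
    exact Set.mem_biUnion hl h
  have hA' : ∀ i j, i ≠ j → NA M κ Q (A' i) (A' j) := by
    rintro (_ | l) (_ | l') hij
    · exact absurd rfl hij
    · exact (hrest l'.1 l'.2).symm
    · exact hrest l.1 l.2
    · exact hspec n hDn l.1 l'.1 (fun e => hij (congrArg some (Subtype.ext e)))
  have hcross : ∀ l ∈ rec, NA M κ Q (D m l : Set V) (sh (n + 1) '' R) := by
    intro l _ x hx y hy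
    have h2 := hS.X_np m x (hDsub m hDm l hx)
    have h3 := hS.sh_image (A := R) (fun z hz => hS.X_np n z hz.1) (n + 1) y hy
    exact hS.na_of_pc h2.1 h3.1 (by rw [h2.2, h3.2]; omega)
  have hY' : ∀ i j, i ≠ j → NA M κ Q (Y' i) (Y' j) := by
    rintro (_ | l) (_ | l') hij
    · exact absurd rfl hij
    · exact (hcross l'.1 l'.2).symm
    · exact hcross l.1 l.2
    · exact hspec m hDm l.1 l'.1 (fun e => hij (congrArg some (Subtype.ext e)))
  have hK : ∀ i, KX M κ T' (A' i) (Y' i) := by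
    rintro (_ | l)
    · exact ⟨_, hS.kx_sh (fun z hz => hS.X_np n z hz.1) hT'P (n + 1)⟩
    · exact hm l.1 l.2
  have hglue := glue_fam hS.ar2 hA' hY' hK
  refine hglue.mono subset_rfl ?_ ?_
  · intro x hx
    by_cases h : x ∈ ⋃ l ∈ rec, (D n l : Set V)
    · simp only [Set.mem_iUnion] at h
      obtain ⟨l, hl, hxl⟩ := h
      exact Set.mem_iUnion.2 ⟨some ⟨l, hl⟩, hxl⟩
    · exact Set.mem_iUnion.2 ⟨none, ⟨hx, h⟩⟩
  · intro y hy
    obtain ⟨i, hy⟩ := Set.mem_iUnion.1 hy
    rcases i with _ | l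
    · exact Or.inr (Set.mem_biUnion hn hy)
    · exact Or.inl (hDsub m hDm l.1 hy)

end Pool.Agent.Lib.MP_4fb322_lc_h91s
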