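import Mathlib
import Pool.Agent.Lib.MP_4fb322_lc_h91s.SDefs
import Pool.Agent.Lib.MP_4fb322_lc_h91s.S20
import Pool.Agent.Lib.MP_4fb322_lc_h91s.S25

set_option autoImplicit false

/-!
# Row S26

Dichotomy: an arrow to a non recurrent special sequence, or two copies fit. PROOF. Let `Rec l' := ArrK (D · l') (D · l')`. Fix `n` with SpecK at `n`. `D n l` is nonempty,
connected, a subset of `X n`, and contains a copy of `A` over `T`. Case 1: for every finite `T' ⊆ P` the set `{j | ∃ l', ¬ Rec l' ∧ KX T' (D n l) (D j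
l')}` is in UF. Then (uf_exists, and the union trick over `l'` as in row S23) there is `l'` with `¬ Rec l'` and `LE (D n l) (D · l')`. Case 2: for some
finite `T₀ ⊆ P` it is not in UF; then `Ω := {j | SpecK at j, and no such l' for T₀} ∈ UF`. Let `T'` be finite, `T' ⊆ P`; put `T₁ = T' ∪ T₀ ∪ T`.
Let `B = ⋃ k ∈ {0, ..., q}, sh (k + 1) '' D n l` (finite, ⊆ Pᶜ by sh_image; the `q + 1` copies are pairwise NA by na_sh and each is connected: it is the image of the connected set `D n l`
under a coloured embedding, adjQ_map). By full_NN for almost all `m` there is `f : KE T₁ B (NN m)`. The parts `X m`, `sh (j + 1) '' (X j \ ⋃ ...)` (j ∈ Ω) of `NN m` are pairwise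
NA (pieces), so by conn_image each copy goes into one part. If copy `k` goes into the part of `j ∈ Ω`: then `KX T₁ (D n l) (X j \ ⋃ Rec D j)` (kx_sh, kx_sh_inv), by
conn_cmp (applied to the inclusion in `X j`) the image is in a component of `X j` containing a copy of `A` over `T`, i.e. in some `D j l'`; and `¬ Rec l'` since the image avoids the recurrent `D j l''`
(the image is nonempty and inside `D j l'`); so `KX T₁ (D n l) (D j l')` with `¬ Rec l'`: contradiction with `j ∈ Ω`. So all `q + 1` copies go into `X m`, and (SpecK at `m`) each into some `D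
m l'`; by the pigeonhole principle (Fintype.exists_ne_map_eq_of_card_lt) two copies `k₁ ≠ k₂` go into the same `D m l'`. So `∀ᶠ m, ∃ l' k₁ k₂, k₁ ≠ k₂ ∧ KX T' (sh k₁ '' D n l ∪ sh
k₂ '' D n l) (D m l')`. By uf_exists and the union trick: one `l'` for all finite `T' ⊆ P`. So almost every `n` has Case 1 (with some `l'`) or Case 2 (with some `l'`); by uf_exists (ι = Fin
q ⊕ Fin q or Bool × Fin q) one alternative and one `l'` for almost all `n`. (About 200 lines.)
-/

namespace Pool.Agent.Lib.MP_4fb322_lc_h91s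

open Set Pool.Agent.Lib.MP_4fb322_lc_h70 Pool.Agent.Lib.MP_4fb322_lc_h91
open Pool.Agent.Lib.MP_4fb322_lc_h21 Pool.Agent.Lib.MP_4fb322_lc_h91x

variable {I : Type} {ar : I → ℕ} {V W C : Type}

private theorem uniform26 {ι : Type} [Finite ι] {P T₀ : Set V} (hT₀ : T₀.Finite)
    (hT₀P : T₀ ⊆ P) {Φ : ι → Set V → Prop}
    (hmono : ∀ i T T', T ⊆ T' → Φ i T' → Φ i T)
    (h : ∀ T : Set V, T.Finite → T ⊆ P → T₀ ⊆ T → ∃ i, Φ i T) :
    ∃ i, ∀ T : Set V, T.Finite → T ⊆ P → Φ i T := by
  by_contra hno
  push Not at hno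
  choose F hF1 hF2 hF3 using hno
  obtain ⟨i, hi⟩ := h (T₀ ∪ ⋃ i, F i) (hT₀.union (Set.finite_iUnion hF1))
    (Set.union_subset hT₀P (Set.iUnion_subset hF2)) Set.subset_union_left
  exact hF3 i (hmono i _ _ ((Set.subset_iUnion F i).trans Set.subset_union_right) hi)

private theorem KE_target26 {M : (i : I) → Set (Fin (ar i) → V)} {κ : V → C}
    {T A B X Y : Set V} {f : V → V} (hf : KE M κ T B X f) (hA : A ⊆ B)
    (hY : ∀ x ∈ A, f x ∈ Y) : KE M κ T A Y f :=
  ⟨PE_mono hf.1 (Set.union_subset_union_right _ hA), hf.2.1,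
    fun y hy => ⟨hY y hy, (hf.2.2 y (hA hy)).2⟩⟩

theorem dichotomyK {M : (i : I) → Set (Fin (ar i) → V)} {P : Set V} {pc : V → ℕ} {κ : V → C}
    {Q : I → C → C → Prop} {sh : ℕ → V → V} {X : ℕ → Finset V} (hS : Sy M P pc κ Q sh X)
    {T : Set V} (hT : T.Finite) (hTP : T ⊆ P) {A : Finset V} (hne : A.Nonempty) {q : ℕ}
    {D : ℕ → Fin q → Finset V} (hD : ∀ᶠ m in UF, SpecK M κ Q T A (X m) (D m)) (l : Fin q) :
    (∃ l' : Fin q, ¬ ArrK M κ P (fun n => D n l') (fun n => D n l') ∧
      ArrK M κ P (fun n => D n l) (fun n => D n l')) ∨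
    ∃ l' : Fin q, Arr2 M κ P sh (fun n => D n l) (fun n => D n l') := by
  classical
  let R : Fin q → Prop := fun l' => ArrK M κ P (fun n => D n l') (fun n => D n l')
  have key : ∀ᶠ n in UF, ∃ c : Bool × Fin q,
      (c.1 = true → ¬ R c.2 ∧ LE M κ P (D n l : Set V) (fun m => (D m c.2 : Set V))) ∧
      (c.1 = false → ∀ T' : Set V, T'.Finite → T' ⊆ P → ∀ᶠ m in UF, ∃ k₁ k₂ : ℕ, k₁ ≠ k₂ ∧
        KX M κ T' (sh k₁ '' (D n l : Set V) ∪ sh k₂ '' (D n l : Set V)) (D m c.2 : Set V)) := by
    filter_upwards [hD] with n hn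
    obtain ⟨x₀, hx₀, hDn⟩ := hn.1 l
    have hsp := cmp_spec (M := M) (κ := κ) (Q := Q) (X := (X n : Set V)) hx₀
    have hDconn : Cn (AdjQ M κ Q) (D n l : Set V) := by rw [hDn]; exact hsp.2.2
    have hDne : (D n l : Set V).Nonempty := ⟨x₀, by rw [hDn]; exact hsp.1⟩
    have hDsub : ∀ x ∈ (D n l : Set V), x ∉ P ∧ pc x = 0 := by
      intro x hx
      rw [hDn] at hx
      exact hS.X_np n x (hsp.2.1 hx)
    have hAD : KX M κ T (A : Set V) (D n l : Set V) := hn.2.2.1 l
    by_cases h1 : ∀ T' : Set V, T'.Finite → T' ⊆ P →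
        ∀ᶠ j in UF, ∃ l' : Fin q, ¬ R l' ∧ KX M κ T' (D n l : Set V) (D j l' : Set V)
    · -- case 1
      have h2 : ∃ l' : Fin q, ∀ T' : Set V, T'.Finite → T' ⊆ P →
          (¬ R l' ∧ ∀ᶠ j in UF, KX M κ T' (D n l : Set V) (D j l' : Set V)) := by
        refine uniform26 (P := P) (T₀ := ∅) Set.finite_empty (Set.empty_subset _)
          (Φ := fun l' T' => ¬ R l' ∧ ∀ᶠ j in UF, KX M κ T' (D n l : Set V) (D j l' : Set V))
          ?_ ?_
        · rintro l' T₁ T₂ h12 ⟨h3, h4⟩
          exact ⟨h3, h4.mono fun j hj => hj.mono h12 subset_rfl subset_rfl⟩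
        · intro T' hT' hT'P _
          obtain ⟨l', hl'⟩ := uf_exists (h1 T' hT' hT'P)
          exact ⟨l', hl'.exists.choose_spec.1, hl'.mono fun j hj => hj.2⟩
      obtain ⟨l', hl'⟩ := h2
      refine ⟨(true, l'), fun _ => ⟨(hl' ∅ Set.finite_empty (Set.empty_subset _)).1,
        fun T' hT' hT'P => (hl' T' hT' hT'P).2⟩, fun h => by simp at h⟩
    · -- case 2
      push Not at h1
      obtain ⟨T₀, hT₀, hT₀P, hno⟩ := h1
      have hΩ0 : ∀ᶠ j in UF, ∀ l' : Fin q, ¬ R l' →
          ¬ KX M κ T₀ (D n l : Set V) (D j l' : Set V) := hno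
      set Ω : Set ℕ := {j | SpecK M κ Q T A (X j) (D j) ∧
        ∀ l' : Fin q, ¬ R l' → ¬ KX M κ T₀ (D n l : Set V) (D j l' : Set V)} with hΩdef
      have hΩ : Ω ∈ UF := by
        filter_upwards [hD, hΩ0] with j h3 h4
        exact ⟨h3, h4⟩
      have claim : ∀ T' : Set V, T'.Finite → T' ⊆ P → T₀ ∪ T ⊆ T' → ∀ᶠ m in UF,
          ∃ l' : Fin q, ∃ k₁ k₂ : ℕ, k₁ ≠ k₂ ∧
          KX M κ T' (sh k₁ '' (D n l : Set V) ∪ sh k₂ '' (D n l : Set V))
            (D m l' : Set V) := by
        intro T' hT' hT'P hTT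
        set B : Set V := ⋃ k : Fin (q + 1), sh (k.1 + 1) '' (D n l : Set V) with hB
        have hBf : B.Finite := Set.finite_iUnion fun k => (D n l).finite_toSet.image _
        have hBP : B ⊆ Pᶜ := by
          intro y hy
          obtain ⟨k, hk⟩ := Set.mem_iUnion.1 hy
          exact (hS.sh_image hDsub (k.1 + 1) y hk).1
        have hfull := full_NN hS hD hΩ hBf hBP T' hT' hT'P
        filter_upwards [hfull, hD] with m ⟨f, hf⟩ hm
        -- the parts of `NN m`
        set Z : ℕ → Set V := fun j => (X j : Set V) \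
          ⋃ l ∈ {l : Fin q | ArrK M κ P (fun n => D n l) (fun n => D n l)}, (D j l : Set V)
          with hZ
        have hZ0 : ∀ j, ∀ x ∈ Z j, x ∉ P ∧ pc x = 0 := fun j x hx => hS.X_np j x hx.1
        let Y : Option ℕ → Set V := fun o => match o with
          | none => (X m : Set V)
          | some j => if j ∈ Ω then sh (j + 1) '' Z j else ∅
        have hYpc : ∀ o, ∀ y ∈ Y o, y ∉ P ∧ pc y = (match o with
          | none => 0
          | some j => j + 1) := by
          intro o y hy
          cases o with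
          | none => exact hS.X_np m y hy
          | some j =>
            by_cases hj : j ∈ Ω
            · simp only [Y, if_pos hj] at hy
              exact hS.sh_image (hZ0 j) (j + 1) y hy
            · simp only [Y, if_neg hj] at hy
              exact absurd hy (Set.notMem_empty _)
        have hYNA : ∀ i j, i ≠ j → NA M κ Q (Y i) (Y j) := by
          intro i j hij x hx y hy
          have h3 := hYpc i x hx
          have h4 := hYpc j y hy
          refine hS.na_of_pc h3.1 h4.1 ?_
          rw [h3.2, h4.2]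
          cases i with
          | none =>
            cases j with
            | none => exact absurd rfl hij
            | some j => simp
          | some i =>
            cases j with
            | none => simp
            | some j =>
              intro e
              apply hij
              simp only [add_left_inj] at e
              rw [e]
        have hcov : ∀ y ∈ NN M κ P sh X D Ω m, ∃ o, y ∈ Y o := by
          rintro y (hy | hy)
          · exact ⟨none, hy⟩
          · simp only [Set.mem_iUnion] at hy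
            obtain ⟨j, hj, hy⟩ := hy
            exact ⟨some j, by simp only [Y, if_pos hj]; exact hy⟩
        have hsub : ∀ k : Fin (q + 1), sh (k.1 + 1) '' (D n l : Set V) ⊆ B := fun k =>
          Set.subset_iUnion (fun k : Fin (q + 1) => sh (k.1 + 1) '' (D n l : Set V)) k
        have hk : ∀ k : Fin (q + 1), ∃ l' : Fin q, ∀ x ∈ (D n l : Set V),
            f (sh (k.1 + 1) x) ∈ D m l' := by
          intro k
          have hsh := hS.kx_sh hDsub hT'P (k.1 + 1)
          have hfk : KE M κ T' (sh (k.1 + 1) '' (D n l : Set V)) (NN M κ P sh X D Ω m) f :=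
            KE_target26 hf (hsub k) fun x hx => (hf.2.2 x (hsub k hx)).1
          have hcomp := hsh.comp hfk
          obtain ⟨o, ho⟩ := conn_image hDconn hDne hcomp Y hYNA fun x hx =>
            hcov _ (hcomp.2.2 x hx).1
          cases o with
          | none =>
            have hX : KE M κ T' (D n l : Set V) (X m : Set V) (f ∘ sh (k.1 + 1)) :=
              KE_target26 hcomp subset_rfl ho
            obtain ⟨x, hx, hcx⟩ := conn_cmp hDconn hDne hX
            have hDc : KX M κ T' (D n l : Set V) (CmpK M κ Q (X m : Set V) x) :=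
              ⟨_, KE_target26 hX subset_rfl hcx⟩
            have hAc : KX M κ T (A : Set V) (CmpK M κ Q (X m : Set V) x) :=
              hAD.trans (KX.mono hDc (Set.subset_union_right.trans hTT) subset_rfl subset_rfl)
            obtain ⟨l', hl'⟩ := hm.2.2.2 x hx hAc
            refine ⟨l', fun y hy => ?_⟩
            have := hcx y hy
            rw [← hl'] at this
            exact this
          | some j =>
            exfalso
            obtain ⟨y₀, hy₀⟩ := hDne
            by_cases hj : j ∈ Ω
            · simp only [Y, if_pos hj] at ho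
              have h3 : KX M κ T' (D n l : Set V) (sh (j + 1) '' Z j) :=
                ⟨_, KE_target26 hcomp subset_rfl ho⟩
              obtain ⟨g, hg⟩ := h3.trans (hS.kx_sh_inv (hZ0 j) hT'P (j + 1))
              have hgX : KE M κ T' (D n l : Set V) (X j : Set V) g :=
                KE_target26 hg subset_rfl fun x hx => (hg.2.2 x hx).1.1
              obtain ⟨x, hx, hcx⟩ := conn_cmp hDconn ⟨y₀, hy₀⟩ hgX
              have hDc : KX M κ T' (D n l : Set V) (CmpK M κ Q (X j : Set V) x) :=
                ⟨_, KE_target26 hgX subset_rfl hcx⟩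
              have hAc : KX M κ T (A : Set V) (CmpK M κ Q (X j : Set V) x) :=
                hAD.trans (hDc.mono (Set.subset_union_right.trans hTT) subset_rfl subset_rfl)
              obtain ⟨l', hl'⟩ := hj.1.2.2.2 x hx hAc
              refine hj.2 l' (fun hR => ?_) ?_
              · have h4 := (hg.2.2 y₀ hy₀).1.2
                apply h4
                simp only [Set.mem_iUnion]
                refine ⟨l', hR, ?_⟩
                rw [hl']
                exact hcx y₀ hy₀
              · rw [hl']
                exact hDc.mono (Set.subset_union_left.trans hTT) subset_rfl subset_rfl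
            · simp only [Y, if_neg hj] at ho
              exact ho y₀ hy₀
        choose c hc using hk
        obtain ⟨k₁, k₂, hne12, hc12⟩ := Fintype.exists_ne_map_eq_of_card_lt c (by simp)
        refine ⟨c k₁, k₁.1 + 1, k₂.1 + 1, fun e => hne12 (Fin.ext (by omega)), f,
          KE_target26 hf (Set.union_subset (hsub k₁) (hsub k₂)) ?_⟩
        rintro y (⟨x, hx, rfl⟩ | ⟨x, hx, rfl⟩)
        · exact hc k₁ x hx
        · rw [hc12]
          exact hc k₂ x hx
      have h2 : ∃ l' : Fin q, ∀ T' : Set V, T'.Finite → T' ⊆ P → ∀ᶠ m in UF,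
          ∃ k₁ k₂ : ℕ, k₁ ≠ k₂ ∧
          KX M κ T' (sh k₁ '' (D n l : Set V) ∪ sh k₂ '' (D n l : Set V))
            (D m l' : Set V) := by
        refine uniform26 (P := P) (T₀ := T₀ ∪ T) (hT₀.union hT) (Set.union_subset hT₀P hTP)
          (Φ := fun l' T' => ∀ᶠ m in UF, ∃ k₁ k₂ : ℕ, k₁ ≠ k₂ ∧
            KX M κ T' (sh k₁ '' (D n l : Set V) ∪ sh k₂ '' (D n l : Set V))
            (D m l' : Set V)) ?_ ?_
        · rintro l' T₁ T₂ h12 h3
          exact h3.mono fun j ⟨k₁, k₂, hk, hj⟩ =>
            ⟨k₁, k₂, hk, hj.mono h12 subset_rfl subset_rfl⟩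
        · intro T' hT' hT'P hTT
          exact uf_exists (claim T' hT' hT'P hTT)
      obtain ⟨l', hl'⟩ := h2
      exact ⟨(false, l'), fun h => by simp at h, fun _ => hl'⟩
  obtain ⟨⟨b, l'⟩, hb⟩ := uf_exists key
  cases b with
  | true =>
    left
    refine ⟨l', ((hb.exists.choose_spec).1 rfl).1, ?_⟩
    filter_upwards [hb] with n hn
    exact (hn.1 rfl).2
  | false =>
    right
    refine ⟨l', ?_⟩
    filter_upwards [hb] with n hn
    exact hn.2 rfl

end Pool.Agent.Lib.MP_4fb322_lc_h91s
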