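import Mathlib
import Pool.Agent.Lib.MP_4fb322_lc_h91s.SDefs
import Pool.Agent.Lib.MP_4fb322_lc_h91s.S19

set_option autoImplicit false

/-!
# Row S27

PROOF of arr_of_arr2: for almost all `n` and all `T`, almost all `m`: `KX T (sh k₁ '' D n ∪ ...) (E m)`, and `KX T (D n) (sh k₁ '' D n)` by kx_sh; KX.trans, KX.mono. PROOF of sum_closedK:
choose `n` (Filter.Eventually.exists) with `KX T A (D n)`, `KX T B (D n)`, hDn at `n` and h at `n`. For almost all `m` there are `k₁ ≠ k₂` with `KX T (sh k₁ '' D n ∪ sh k₂ '' D n) (D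
m)`. `KX T A (sh k₁ '' D n)`, `KX T B (sh k₂ '' D n)` (kx_sh, trans), the two copies are NA (na_sh), so by glue2 (`hS.ar2`) `KX T (A ∪ B) (sh k₁ '' D n ∪ sh k₂ '' D
n)`; KX.trans. (About 40 lines.)
-/

namespace Pool.Agent.Lib.MP_4fb322_lc_h91s

open Set Pool.Agent.Lib.MP_4fb322_lc_h70 Pool.Agent.Lib.MP_4fb322_lc_h91
open Pool.Agent.Lib.MP_4fb322_lc_h21 Pool.Agent.Lib.MP_4fb322_lc_h91x

variable {I : Type} {ar : I → ℕ} {V W C : Type}

theorem arr_of_arr2 {M : (i : I) → Set (Fin (ar i) → V)} {P : Set V} {pc : V → ℕ} {κ : V → C}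
    {Q : I → C → C → Prop} {sh : ℕ → V → V} {X : ℕ → Finset V} (hS : Sy M P pc κ Q sh X)
    {D E : ℕ → Finset V} (hDn : ∀ᶠ n in UF, ∀ x ∈ D n, x ∉ P ∧ pc x = 0)
    (h : Arr2 M κ P sh D E) : ArrK M κ P D E := by
  filter_upwards [h, hDn] with n hn hd T hT hTP
  filter_upwards [hn T hT hTP] with m hm
  obtain ⟨k₁, k₂, hk, hm⟩ := hm
  have h1 : KX M κ T (D n : Set V) (sh k₁ '' (D n : Set V)) := ⟨_, hS.kx_sh hd hTP k₁⟩
  exact h1.trans (hm.mono subset_rfl Set.subset_union_left subset_rfl)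

theorem sum_closedK {M : (i : I) → Set (Fin (ar i) → V)} {P : Set V} {pc : V → ℕ} {κ : V → C}
    {Q : I → C → C → Prop} {sh : ℕ → V → V} {X : ℕ → Finset V} (hS : Sy M P pc κ Q sh X)
    {D : ℕ → Finset V} (hDn : ∀ᶠ n in UF, ∀ x ∈ D n, x ∉ P ∧ pc x = 0)
    (h : Arr2 M κ P sh D D) {T : Set V} (hT : T.Finite) (hTP : T ⊆ P) {A B : Set V}
    (hAB : NA M κ Q A B) (hA : ∀ᶠ m in UF, KX M κ T A (D m : Set V))
    (hB : ∀ᶠ m in UF, KX M κ T B (D m : Set V)) :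
    ∀ᶠ m in UF, KX M κ T (A ∪ B) (D m : Set V) := by
  obtain ⟨n, hnA, hnB, hd, hn⟩ := (hA.and (hB.and (hDn.and h))).exists
  filter_upwards [hn T hT hTP] with m hm
  obtain ⟨k₁, k₂, hk, hm⟩ := hm
  have h1 : KX M κ T (D n : Set V) (sh k₁ '' (D n : Set V)) := ⟨_, hS.kx_sh hd hTP k₁⟩
  have h2 : KX M κ T (D n : Set V) (sh k₂ '' (D n : Set V)) := ⟨_, hS.kx_sh hd hTP k₂⟩
  exact (glue2 hS.ar2 hAB (hS.na_sh hd hd hk) (hnA.trans h1) (hnB.trans h2)).trans hm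

end Pool.Agent.Lib.MP_4fb322_lc_h91s
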