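import Mathlib
import Pool.Agent.Lib.MP_4fb322_lc_h91s.SDefs
import Pool.Agent.Lib.MP_4fb322_lc_h91s.S19
import Pool.Agent.Lib.MP_4fb322_lc_h91s.S20
import Pool.Agent.Lib.MP_4fb322_lc_h91s.S27

set_option autoImplicit false

/-!
# Row S28

Placing `B ∪ A` in `X m`.
-/

namespace Pool.Agent.Lib.MP_4fb322_lc_h91s

open Set Pool.Agent.Lib.MP_4fb322_lc_h70 Pool.Agent.Lib.MP_4fb322_lc_h91
open Pool.Agent.Lib.MP_4fb322_lc_h21 Pool.Agent.Lib.MP_4fb322_lc_h91x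

variable {I : Type} {ar : I → ℕ} {V W C : Type}

theorem placeK {M : (i : I) → Set (Fin (ar i) → V)} {P : Set V} {pc : V → ℕ} {κ : V → C}
    {Q : I → C → C → Prop} {sh : ℕ → V → V} {X : ℕ → Finset V} (hS : Sy M P pc κ Q sh X)
    {T : Set V} (hT : T.Finite) (hTP : T ⊆ P) {A B : Finset V}
    (hBA : NA M κ Q (B : Set V) (A : Set V))
    (hB : ∀ᶠ m in UF, KX M κ T (B : Set V) (X m : Set V)) {D : ℕ → Finset V}
    (hD : ∀ᶠ m in UF, ∃ x ∈ X m, (D m : Set V) = CmpK M κ Q (X m : Set V) x)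
    (h2 : Arr2 M κ P sh D D) (hA : ∀ᶠ m in UF, KX M κ T (A : Set V) (D m : Set V)) :
    ∀ᶠ m in UF, KX M κ T ((B : Set V) ∪ (A : Set V)) (X m : Set V) := by
  classical
  have hDX : ∀ᶠ m in UF, (D m : Set V) ⊆ (X m : Set V) := by
    filter_upwards [hD] with m hm
    obtain ⟨x, hx, e⟩ := hm
    rw [e]
    exact (cmp_spec (Finset.mem_coe.2 hx)).2.1
  have hDn : ∀ᶠ n in UF, ∀ x ∈ D n, x ∉ P ∧ pc x = 0 := by
    filter_upwards [hDX] with m hm x hx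
    exact hS.X_np m x (Finset.mem_coe.1 (hm (Finset.mem_coe.2 hx)))
  have hDna : ∀ᶠ m in UF, NA M κ Q (D m : Set V) ((X m : Set V) \ (D m : Set V)) := by
    filter_upwards [hD] with m hm
    obtain ⟨x, hx, e⟩ := hm
    rw [e]
    exact cmp_na x
  have h1 : ∀ᶠ m in UF, ∃ s : {s : Finset V // s ∈ B.powerset}, ∃ f,
      KE M κ T (B : Set V) (X m : Set V) f ∧ ∀ y ∈ B, (f y ∈ D m ↔ y ∈ s.1) := by
    filter_upwards [hB] with m hm
    obtain ⟨f, hf⟩ := hm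
    refine ⟨⟨B.filter (fun y => f y ∈ D m), Finset.mem_powerset.2 (Finset.filter_subset _ _)⟩, f, hf,
      fun y hy => ?_⟩
    simp [hy]
  obtain ⟨⟨B', hB'⟩, hs⟩ := uf_exists h1
  rw [Finset.mem_powerset] at hB'
  have hs' : ∀ᶠ m in UF, ∃ f, KE M κ T (B : Set V) (X m : Set V) f ∧ ∀ y ∈ B, (f y ∈ D m ↔ y ∈ B') := hs
  have k1 : ∀ᶠ m in UF, KX M κ T (B' : Set V) (D m : Set V) := by
    filter_upwards [hs'] with m hm
    obtain ⟨f, hf, hfD⟩ := hm
    refine ⟨f, PE_mono hf.1 (Set.union_subset_union_right _ (Finset.coe_subset.2 hB')), hf.2.1,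
      fun y hy => ⟨?_, (hf.2.2 y (Finset.coe_subset.2 hB' hy)).2⟩⟩
    exact Finset.mem_coe.2 ((hfD y (hB' (Finset.mem_coe.1 hy))).2 (Finset.mem_coe.1 hy))
  have k2 : ∀ᶠ m in UF, KX M κ T ((B : Set V) \ (B' : Set V)) ((X m : Set V) \ (D m : Set V)) := by
    filter_upwards [hs'] with m hm
    obtain ⟨f, hf, hfD⟩ := hm
    refine ⟨f, PE_mono hf.1 (Set.union_subset_union_right _ Set.sdiff_subset), hf.2.1,
      fun y hy => ⟨⟨(hf.2.2 y hy.1).1, ?_⟩, (hf.2.2 y hy.1).2⟩⟩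
    intro hc
    exact hy.2 (Finset.mem_coe.2 ((hfD y (Finset.mem_coe.1 hy.1)).1 (Finset.mem_coe.1 hc)))
  have k3 : NA M κ Q (B' : Set V) ((B : Set V) \ (B' : Set V)) := by
    obtain ⟨m, ⟨f, hf, hfD⟩, hna⟩ := (hs'.and hDna).exists
    intro x hx y hy
    have hxB : x ∈ (B : Set V) := Finset.coe_subset.2 hB' hx
    have hfx : f x ∈ (D m : Set V) := Finset.mem_coe.2 ((hfD x (Finset.mem_coe.1 hxB)).2 (Finset.mem_coe.1 hx))
    have hfy : f y ∈ (X m : Set V) \ (D m : Set V) := by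
      refine ⟨(hf.2.2 y hy.1).1, ?_⟩
      intro hc
      exact hy.2 (Finset.mem_coe.2 ((hfD y (Finset.mem_coe.1 hy.1)).1 (Finset.mem_coe.1 hc)))
    refine ⟨?_, ?_⟩
    · rintro rfl
      exact hy.2 hx
    · intro hadj
      exact (hna _ hfx _ hfy).2 ((adjQ_map hf hxB hy.1).2 hadj)
  have k4 : NA M κ Q (B' : Set V) (A : Set V) := hBA.mono (Finset.coe_subset.2 hB') subset_rfl
  have k5 : NA M κ Q ((B' : Set V) ∪ (A : Set V)) ((B : Set V) \ (B' : Set V)) := by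
    intro x hx y hy
    rcases hx with hx | hx
    · exact k3 x hx y hy
    · exact (hBA.symm) x hx y hy.1
  have k6 := sum_closedK hS hDn h2 hT hTP k4 k1 hA
  filter_upwards [k6, k2, hDna, hDX] with m m1 m2 m3 m4
  have m5 := glue2 hS.ar2 k5 m3 m1 m2
  refine m5.mono subset_rfl ?_ ?_
  · intro x hx
    rcases hx with hx | hx
    · by_cases hxB : x ∈ (B' : Set V)
      · exact Or.inl (Or.inl hxB)
      · exact Or.inr ⟨hx, hxB⟩
    · exact Or.inl (Or.inr hx)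
  · intro x hx
    rcases hx with hx | hx
    · exact m4 hx
    · exact hx.1

end Pool.Agent.Lib.MP_4fb322_lc_h91s
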