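import Mathlib
import Pool.Agent.Lib.MP_4fb322_lc_h21.W20
import Pool.Agent.Lib.MP_4fb322_lc_h21.W21
import Pool.Agent.Lib.MP_4fb322_lc_h91s.S01
import Pool.Agent.Lib.MP_4fb322_lc_h91s.S18
import Pool.Agent.Lib.MP_4fb322_lc_h91s.S21
import Pool.Agent.Lib.MP_4fb322_lc_h91s.S22
import Pool.Agent.Lib.MP_4fb322_lc_h91s.S23
import Pool.Agent.Lib.MP_4fb322_lc_h91s.S24
import Pool.Agent.Lib.MP_4fb322_lc_h91s.S26
import Pool.Agent.Lib.MP_4fb322_lc_h91s.S28

set_option autoImplicit false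

/-!
# Stable ages of arity at most two: assembly
-/

namespace Pool.Agent.Lib.MP_4fb322_lc_h91s

open Set Pool.Agent.Lib.MP_4fb322_lc_h70 Pool.Agent.Lib.MP_4fb322_lc_h91
open Pool.Agent.Lib.MP_4fb322_lc_h21 Pool.Agent.Lib.MP_4fb322_lc_h91x

variable {I : Type} {ar : I → ℕ} {V W C : Type}

section SecondHalf

variable {M : (i : I) → Set (Fin (ar i) → V)} {P : Set V} {pc : V → ℕ} {κ : V → C}
  {Q : I → C → C → Prop} {sh : ℕ → V → V} {X : ℕ → Finset V} (hS : Sy M P pc κ Q sh X)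

include hS

theorem add_lemma {T : Set V} (hT : T.Finite) (hTP : T ⊆ P) {A B : Finset V}
    (hne : A.Nonempty) (hAP : (A : Set V) ⊆ Pᶜ) (hA : Cn (AdjQ M κ Q) (A : Set V))
    (hBA : NA M κ Q (B : Set V) (A : Set V))
    (hB : ∀ᶠ m in UF, KX M κ T (B : Set V) (X m : Set V)) :
    ∀ᶠ m in UF, KX M κ T ((B : Set V) ∪ (A : Set V)) (X m : Set V) := by
  by_contra hno
  have hAm := conn_le hS A.finite_toSet (by simpa using hne) hAP hA
  obtain ⟨q, D, hq, hD⟩ := exists_specK hS.ar2 hne hA hBA hB (hAm T hT hTP) hno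
  -- arrows
  let R : Fin q → Fin q → Prop := fun l l' => ArrK M κ P (fun n => D n l) (fun n => D n l')
  have hR : ∀ a b c, R a b → R b c → R a c := fun a b c h h' => ArrK.trans h h'
  have hout : ∀ a, ∃ b, R a b := fun a => arr_outK hS hT hTP hD a
  have hDn : ∀ l : Fin q, ∀ᶠ n in UF, ∀ x ∈ D n l, x ∉ P ∧ pc x = 0 := by
    intro l
    filter_upwards [hD] with n hn x hx
    obtain ⟨y, hy, hy'⟩ := hn.1 l
    have h1 : x ∈ CmpK M κ Q (X n : Set V) y := by rw [← hy']; exact hx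
    exact hS.X_np n x ((cmp_spec (M := M) (κ := κ) (Q := Q) (X := (X n : Set V)) hy).2.1 h1)
  -- a terminal special sequence
  obtain ⟨l, hl1, hl2, hl3⟩ := exists_terminal hR hout ⟨0, hq⟩
  have h2 : Arr2 M κ P sh (fun n => D n l) (fun n => D n l) := by
    rcases dichotomyK hS hT hTP hne hD l with ⟨l', h1, h2⟩ | ⟨l', h1⟩
    · exact absurd (hR _ _ _ (hl3 l' h2) h2) h1
    · exact h1.trans (hl3 l' (arr_of_arr2 hS (hDn l) h1))
  have hAl : ∀ᶠ m in UF, KX M κ T (A : Set V) (D m l : Set V) := by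
    filter_upwards [hD] with m hm
    exact hm.2.2.1 l
  have hDl : ∀ᶠ m in UF, ∃ x ∈ X m, (D m l : Set V) = CmpK M κ Q (X m : Set V) x := by
    filter_upwards [hD] with m hm
    exact hm.1 l
  exact hno (placeK hS hT hTP hBA hB hDl h2 hAl)

theorem comp_induct {T : Set V} (hT : T.Finite) (hTP : T ⊆ P) (n : ℕ) (k : ℕ) :
    ∀ Y : Finset V, Y.card ≤ k → Y ⊆ X n →
      (∀ x ∈ Y, CmpK M κ Q (X n : Set V) x ⊆ (Y : Set V)) →
      ∀ᶠ m in UF, KX M κ T (Y : Set V) (X m : Set V) := by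
  classical
  induction k with
  | zero =>
    intro Y hY _ _
    have : Y = ∅ := Finset.card_eq_zero.1 (Nat.le_zero.1 hY)
    subst this
    exact Filter.Eventually.of_forall fun m => KX.of_subset (by simp)
  | succ k ih =>
    intro Y hY hYX hcl
    by_cases hYe : Y = ∅
    · subst hYe
      exact Filter.Eventually.of_forall fun m => KX.of_subset (by simp)
    obtain ⟨x, hx⟩ := Finset.nonempty_iff_ne_empty.2 hYe
    have hsp := cmp_spec (M := M) (κ := κ) (Q := Q) (X := (X n : Set V)) (hYX hx)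
    set A : Finset V := Y.filter (fun y => y ∈ CmpK M κ Q (X n : Set V) x) with hAdef
    have hAc : (A : Set V) = CmpK M κ Q (X n : Set V) x := by
      ext y
      simp only [hAdef, Finset.coe_filter, Set.mem_setOf_eq]
      exact ⟨fun h => h.2, fun h => ⟨hcl x hx h, h⟩⟩
    have hxA : x ∈ A := by simp [hAdef, hx, hsp.1]
    set B : Finset V := Y \ A with hBdef
    have hBc : B.card ≤ k := by
      have h1 : B.card < Y.card := Finset.card_lt_card (by
        refine Finset.ssubset_iff_subset_ne.2 ⟨Finset.sdiff_subset, fun e => ?_⟩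
        have : x ∈ B := by rw [e]; exact hx
        exact (Finset.mem_sdiff.1 this).2 hxA)
      omega
    have hBcl : ∀ y ∈ B, CmpK M κ Q (X n : Set V) y ⊆ (B : Set V) := by
      intro y hy z hz
      have hyY := (Finset.mem_sdiff.1 hy).1
      have hyA := (Finset.mem_sdiff.1 hy).2
      refine Finset.mem_coe.2 (Finset.mem_sdiff.2 ⟨hcl y hyY hz, fun hzA => hyA ?_⟩)
      have h1 : z ∈ CmpK M κ Q (X n : Set V) x := by rw [← hAc]; exact hzA
      have h2 := cmp_eq_of_mem h1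
      have h3 := cmp_eq_of_mem hz
      have h4 : y ∈ CmpK M κ Q (X n : Set V) y :=
        (cmp_spec (M := M) (κ := κ) (Q := Q) (X := (X n : Set V)) (hYX hyY)).1
      rw [← h3, h2, ← hAc] at h4
      exact h4
    have hBX : B ⊆ X n := fun y hy => hYX (Finset.mem_sdiff.1 hy).1
    have hBle := ih B hBc hBX hBcl
    have hAP : (A : Set V) ⊆ Pᶜ := by
      intro y hy
      exact (hS.X_np n y (hYX (Finset.mem_filter.1 hy).1)).1
    have hBA : NA M κ Q (B : Set V) (A : Set V) := by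
      refine NA.symm ((cmp_na (M := M) (κ := κ) (Q := Q) (X := (X n : Set V)) x).mono ?_ ?_)
      · rw [hAc]
      · intro y hy
        refine ⟨hBX hy, fun h => (Finset.mem_sdiff.1 hy).2 ?_⟩
        rw [← hAc] at h
        exact h
    have := add_lemma hS hT hTP ⟨x, hxA⟩ hAP (by rw [hAc]; exact hsp.2.2) hBA hBle
    filter_upwards [this] with m hm
    refine hm.mono subset_rfl ?_ subset_rfl
    intro y hy
    by_cases hyA : y ∈ A
    · exact Or.inr hyA
    · exact Or.inl (Finset.mem_coe.2 (Finset.mem_sdiff.2 ⟨hy, hyA⟩))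

theorem sy_false : False := by
  refine hS.anti 0 fun T hT hTP => ?_
  refine comp_induct hS hT hTP 0 (X 0).card (X 0) le_rfl subset_rfl ?_
  intro x hx
  exact (cmp_spec (M := M) (κ := κ) (Q := Q) (X := (X 0 : Set V)) hx).2.1

end SecondHalf

/-- Every stable age of finite structures of arity at most two (finite signature) whose set
of sub-ages is well-founded has no infinite antichain. -/
theorem noAntichain_of_stable [Finite I] (har : ∀ i, ar i ≤ 2) {t : ℕ} {𝒜 : Set (Str ar)}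
    (h𝒜 : IsAge 𝒜) (hst : ∀ C ∈ 𝒜, ∀ i, ar i = 2 → ¬ HalfGraph C i t)
    (hwf : SubagesWF 𝒜) : NoAntichain 𝒜 := by
  classical
  by_contra hna
  obtain ⟨ℬ, hℬ𝒜, hℬ, hℬna, hℬmin⟩ := exists_min_age h𝒜 hwf hna
  obtain ⟨M₀, X₀, hM₀⟩ := exists_model hℬ
  let V : Type := X₀
  let M : (i : I) → Set (Fin (ar i) → V) := fun i => {s | (fun j => (s j : ℕ)) ∈ M₀ i}
  have hage : ageOn M Set.univ = ℬ := by
    rw [← hM₀]
    ext A
    constructor
    · rintro ⟨f, hf, -, hr⟩
      exact ⟨fun x => (f x : ℕ), fun x y h => hf (Subtype.ext h), fun x => (f x).2,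
        fun i s => hr i s⟩
    · rintro ⟨f, hf, hfX, hr⟩
      exact ⟨fun x => ⟨f x, hfX x⟩, fun x y h => hf (congrArg Subtype.val h),
        fun x => Set.mem_univ _, fun i s => hr i s⟩
  have hst' : ∀ i, ar i = 2 →
      NoLadder (fun x y => (pr2 x y : Fin (ar i) → V) ∈ M i) t := by
    rintro i hi ⟨x, y, hxy⟩
    set Y : Finset V := Finset.univ.image x ∪ Finset.univ.image y with hY
    have hmem : indV M Y ∈ ageOn M Set.univ := indV_mem_ageOn M (X := Set.univ)
      ⟨id, PE_id _, fun _ _ => Set.mem_univ _⟩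
    rw [hage] at hmem
    have hx : ∀ a, ∃ z, indVMap M Y z = x a := fun a => exists_indVMap M Y (by simp [hY])
    have hy : ∀ a, ∃ z, indVMap M Y z = y a := fun a => exists_indVMap M Y (by simp [hY])
    choose x' hx' using hx
    choose y' hy' using hy
    refine hst _ (hℬ𝒜 hmem) i hi ⟨x', y', fun a b => ?_⟩
    rw [← hxy a b, indVMap_rel, pr2_comp, hx', hy']
  obtain ⟨u, hu⟩ := exists_gen M
  have hmin : ∀ 𝒞 : Set (Str ar), 𝒞 ⊆ ageOn M Set.univ → IsAge 𝒞 → ¬ NoAntichain 𝒞 →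
      𝒞 = ageOn M Set.univ := by
    rw [hage]
    exact hℬmin
  obtain ⟨Q, sh, X, hS⟩ := exists_sy har hu hst' hmin (by rw [hage]; exact hℬna)
  exact sy_false hS

end Pool.Agent.Lib.MP_4fb322_lc_h91s
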